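import Pool.Agent.TCH.Stmts

set_option autoImplicit false

/-!
# TCH IDX: indices (helper7)
-/

namespace Pool.Agent.TCH

open Finset Filter Pool.Agent.MT Pool.Agent.CH

theorem IDX_lt {i j : ℕ} (hi : 1 ≤ i) (hij : i < j) : pj i < pj j :=
  Pool.Agent.Helper20.TwinIndex.pr_strictMono hi hij

theorem IDX_mono {i j : ℕ} (hij : i ≤ j) : pj i ≤ pj j :=
  Pool.Agent.Helper20.TwinIndex.pr_mono hij

theorem IDX_self_lt {j : ℕ} (hj : 1 ≤ j) : j < pj j := Pool.Agent.Helper20.TwinIndex.lt_pr hj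

theorem IDX_pi {j : ℕ} (hj : 1 ≤ j) : Nat.primeCounting (pj j) = j :=
  Pool.Agent.Helper20.TwinIndex.pi_pr hj

theorem IDX_prime (j : ℕ) : (pj j).Prime := Pool.Agent.Helper20.TwinIndex.pr_prime j

theorem IDX_pj_pi {p : ℕ} (hp : p.Prime) :
    1 ≤ Nat.primeCounting p ∧ pj (Nat.primeCounting p) = p := by
  have h1 : Nat.primeCounting p = Nat.primeCounting' p + 1 := by
    rw [Nat.primeCounting_eq_primeCounting'_succ]
    unfold Nat.primeCounting'
    rw [Nat.count_succ, if_pos hp]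
  refine ⟨by omega, ?_⟩
  rw [h1]
  unfold pj
  rw [Nat.add_sub_cancel]
  exact Nat.nth_count hp

/-- the size of the iterated prime -/
theorem IDX_size {n : ℕ} (hn : 2560000 ≤ n) :
    Real.log (pj (pj n)) ≤ 3 * Real.log n ∧
    ((pj (pj n) : ℕ) : ℝ) ≤ 900 * n * Real.log n ^ 2 := by
  have h1 : 1 ≤ n := by omega
  have h2 := IDX_self_lt h1
  have h3 : 1 ≤ pj n := by omega
  have h4 := IDX_self_lt h3
  obtain ⟨g1, g2⟩ := Pool.Agent.Helper20.TwinIndex.growth (x := pj (pj n)) (by omega)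
  rw [IDX_pi h3, IDX_pi h1] at g1 g2
  have hn1 : (2560000 : ℝ) ≤ n := by exact_mod_cast hn
  have hn0 : (0 : ℝ) < n := by linarith
  have hx0 : (0 : ℝ) < (pj (pj n) : ℕ) := by exact_mod_cast (by omega : 0 < pj (pj n))
  have hlog : Real.log (pj (pj n)) ≤ 3 * Real.log n := by
    have e1 : ((pj (pj n) : ℕ) : ℝ) ≤ (1600 * n) ^ 2 := by
      have := Real.sq_sqrt hx0.le
      nlinarith [Real.sqrt_nonneg ((pj (pj n) : ℕ) : ℝ)]
    have e2 : ((1600 : ℝ) * n) ^ 2 ≤ (n : ℝ) ^ 3 := by nlinarith [sq_nonneg (n : ℝ)]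
    have e3 := Real.log_le_log hx0 (e1.trans e2)
    rwa [Real.log_pow] at e3
  refine ⟨hlog, g1.trans ?_⟩
  have hx1 : 0 ≤ Real.log (pj (pj n)) := Real.log_nonneg (by exact_mod_cast (by omega : 1 ≤ pj (pj n)))
  have e4 : Real.log (pj (pj n)) ^ 2 ≤ (3 * Real.log n) ^ 2 := pow_le_pow_left₀ hx1 hlog 2
  nlinarith

/-- the number of good `k` -/
theorem IDX_good {n : ℕ} (hn : 2 ≤ n) :
    chen (pj (n - 1)) ≤ ((Icc 1 (n - 1)).filter (fun k =>
      ArithmeticFunction.cardFactors (pj k + 2) ≤ 2)).card := by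
  unfold chen
  apply Finset.card_le_card_of_injOn Nat.primeCounting
  · intro p hp
    simp only [coe_filter, mem_range, Set.mem_ofPred_eq, mem_Icc] at hp ⊢
    obtain ⟨h1, h2, h3⟩ := hp
    obtain ⟨h4, h5⟩ := IDX_pj_pi h2
    refine ⟨⟨h4, ?_⟩, ?_⟩
    · have h6 : Nat.primeCounting p ≤ Nat.primeCounting (pj (n - 1)) :=
        Nat.monotone_primeCounting (by omega)
      rwa [IDX_pi (by omega)] at h6
    · rw [h5]
      exact h3
  · intro p hp q hq hpq
    simp only [coe_filter, mem_range, Set.mem_ofPred_eq] at hp hq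
    rw [← (IDX_pj_pi hp.2.1).2, ← (IDX_pj_pi hq.2.1).2, hpq]

theorem IDX_inj {i j : ℕ} (hi : 1 ≤ i) (hj : 1 ≤ j) (h : pj i = pj j) : i = j := by
  rw [← IDX_pi hi, ← IDX_pi hj, h]

open Classical in
/-- the bad `m` with many prime factors -/
theorem IDX_bad1 {n : ℕ} (hn : 2 ≤ n) (T U : ℝ) (hTU : U ≤ T) :
    ((Icc 1 (n - 1)).filter (fun k =>
      ¬ ((ArithmeticFunction.cardFactors (pj (pj (n - k)) + 2) : ℝ) ≤ T))).card ≤
    ((Icc 1 (pj (pj n))).filter (fun p => p.Prime ∧ U <
      ArithmeticFunction.cardFactors (p + 2))).card := by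
  apply Finset.card_le_card_of_injOn (fun k => pj (pj (n - k)))
  · intro k hk
    simp only [coe_filter, Set.mem_ofPred_eq, mem_Icc, not_le] at hk ⊢
    obtain ⟨⟨h1, h2⟩, h3⟩ := hk
    refine ⟨⟨?_, ?_⟩, IDX_prime _, lt_of_le_of_lt hTU h3⟩
    · exact (IDX_prime _).one_lt.le
    · exact IDX_mono (IDX_mono (by omega))
  · intro k hk l hl h
    simp only [coe_filter, Set.mem_ofPred_eq, mem_Icc] at hk hl
    have h1 : pj (n - k) = pj (n - l) :=
      IDX_inj (IDX_prime _).one_lt.le (IDX_prime _).one_lt.le h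
    have h2 := IDX_inj (by omega) (by omega) h1
    omega

open Classical in
/-- the bad `m` with a large gap -/
theorem IDX_bad2 {n : ℕ} (hn : 2 ≤ n) (T : ℝ) (_hT : 0 ≤ T) :
    (((Icc 1 (n - 1)).filter (fun k =>
      ¬ ((pj (pj (n - k) + 1) : ℝ) ≤ pj (pj (n - k)) + T))).card : ℝ) * T ≤ pj (pj n) := by
  set B := (Icc 1 (n - 1)).filter (fun k =>
      ¬ ((pj (pj (n - k) + 1) : ℝ) ≤ pj (pj (n - k)) + T)) with hB
  have h1 : (B.card : ℝ) * T ≤ ∑ k ∈ B, ((pj (pj (n - k) + 1) : ℝ) - pj (pj (n - k))) := by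
    rw [← nsmul_eq_mul]
    apply Finset.card_nsmul_le_sum
    intro k hk
    rw [hB, mem_filter, not_le] at hk
    linarith [hk.2]
  have h2 : ∑ k ∈ B, ((pj (pj (n - k) + 1) : ℝ) - pj (pj (n - k))) =
      ∑ q ∈ B.image (fun k => pj (n - k)), ((pj (q + 1) : ℝ) - pj q) := by
    rw [Finset.sum_image]
    intro k hk l hl h
    rw [hB] at hk hl
    simp only [coe_filter, Set.mem_ofPred_eq, mem_Icc] at hk hl
    have h2 := IDX_inj (by omega) (by omega) h
    omega
  have h3 : ∑ q ∈ B.image (fun k => pj (n - k)), ((pj (q + 1) : ℝ) - pj q) ≤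
      ∑ q ∈ range (pj n), ((pj (q + 1) : ℝ) - pj q) := by
    apply Finset.sum_le_sum_of_subset_of_nonneg
    · intro q hq
      rw [mem_image] at hq
      obtain ⟨k, hk, rfl⟩ := hq
      rw [hB, mem_filter, mem_Icc] at hk
      rw [mem_range]
      exact IDX_lt (by omega) (by omega)
    · intro q _ _
      have : (pj q : ℝ) ≤ pj (q + 1) := by exact_mod_cast IDX_mono (Nat.le_succ q)
      linarith
  rw [Finset.sum_range_sub (fun q => (pj q : ℝ))] at h3
  have h4 : (0 : ℝ) ≤ pj 0 := Nat.cast_nonneg _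
  linarith

theorem thm_IDX (h1 : St_TChen) (h2 : St_LD) : St_T1 := by
  classical
  intro K hK
  obtain ⟨K', hK', hKK⟩ := exists_between hK
  obtain ⟨c0, hc0, h1⟩ := h1
  obtain ⟨δ, hδ, h2⟩ := h2 K' hK'
  have tN : Tendsto (fun n : ℕ => pj (n - 1)) atTop atTop := by
    refine tendsto_atTop_mono' atTop ?_ tendsto_id
    filter_upwards [eventually_ge_atTop 2] with n hn
    have := IDX_self_lt (j := n - 1) (by omega)
    change n ≤ pj (n - 1)
    omega
  have tx : Tendsto (fun n : ℕ => pj (pj n)) atTop atTop := by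
    refine tendsto_atTop_mono' atTop ?_ tendsto_id
    filter_upwards [eventually_ge_atTop 2] with n hn
    have h3 := IDX_self_lt (j := n) (by omega)
    have h4 := IDX_self_lt (j := pj n) (by omega)
    change n ≤ pj (pj n)
    omega
  have tl : Tendsto (fun n : ℕ => Real.log n) atTop atTop :=
    Real.tendsto_log_atTop.comp tendsto_natCast_atTop_atTop
  refine ⟨c0 / 108, 200000 / c0, by positivity, by positivity, ?_⟩
  have e1 := tN.eventually h1
  have e2 := tx.eventually h2
  have e3 := tN.eventually (tendsto_natCast_atTop_atTop.eventually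
    (Chebyshev.eventually_primeCounting_le one_pos))
  have e4 : ∀ᶠ n : ℕ in atTop, K' * Real.log 3 / (K - K') ≤ Real.log (Real.log n) :=
    (Real.tendsto_log_atTop.comp tl).eventually_ge_atTop _
  have e5 : ∀ᶠ n : ℕ in atTop, 900 * (216 / c0) ≤ Real.log n ^ δ :=
    ((tendsto_rpow_atTop hδ).comp tl).eventually_ge_atTop _
  filter_upwards [e1, e2, e3, e4, e5, eventually_ge_atTop 2560000] with n g1 g2 g3 g4 g5 hn
  obtain ⟨s1, s2⟩ := IDX_size hn
  have hn1 : (2560000 : ℝ) ≤ n := by exact_mod_cast hn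
  have hn0 : (0 : ℝ) < n := by linarith
  have hlog3 : Real.log 3 < 1.1 := by
    have := Real.log_three_lt_d9
    linarith
  have hL1 : (1 : ℝ) ≤ Real.log n := by
    rw [Real.le_log_iff_exp_le hn0]
    have := Real.exp_one_lt_d9
    linarith
  have hL0 : (0 : ℝ) < Real.log n := by linarith
  set L := Real.log n with hLdef
  set N := pj (n - 1) with hN
  set x := pj (pj n) with hx
  have hNn : n ≤ N := by
    have := IDX_self_lt (j := n - 1) (by omega)
    omega
  have hNx : N ≤ x := IDX_mono ((Nat.sub_le n 1).trans (IDX_self_lt (by omega)).le)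
  have hNn' : (n : ℝ) ≤ N := by exact_mod_cast hNn
  have hNx' : (N : ℝ) ≤ x := by exact_mod_cast hNx
  have hN0 : (0 : ℝ) < N := by linarith
  have hx0 : (0 : ℝ) < x := by linarith
  have hLN : L ≤ Real.log N := Real.log_le_log hn0 hNn'
  have hLNx : Real.log N ≤ Real.log x := Real.log_le_log hN0 hNx'
  have hLN3 : Real.log N ≤ 3 * L := hLNx.trans s1
  have hLN0 : 0 < Real.log N := by linarith
  have hLx : L ≤ Real.log x := hLN.trans hLNx
  have hLx0 : 0 < Real.log x := by linarith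
  -- the lower bound for `N`
  have hlog4 : Real.log 4 < 1.4 := by
    have h3 : Real.log 4 = 2 * Real.log 2 := by
      rw [show (4 : ℝ) = 2 ^ 2 by norm_num, Real.log_pow]
      norm_num
    have := Real.log_two_lt_d9
    linarith
  have k1 : (n : ℝ) * L / 6 ≤ N := by
    rw [Nat.floor_natCast, hN, IDX_pi (by omega), ← hN, Nat.cast_sub (by omega),
      Nat.cast_one, le_div_iff₀ hLN0] at g3
    have h3 : (n : ℝ) / 2 * L ≤ ((n : ℝ) - 1) * Real.log N := by
      apply mul_le_mul _ hLN hL0.le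
      · linarith
      · linarith
    nlinarith
  -- good `k`
  have k2 : c0 / 54 * (n / L) ≤ chen N := by
    refine le_trans ?_ g1
    rw [le_div_iff₀ (by positivity)]
    have h3 : Real.log N ^ 2 ≤ (3 * L) ^ 2 := pow_le_pow_left₀ hLN0.le hLN3 2
    have h4 : c0 / 54 * (n / L) * Real.log N ^ 2 ≤ c0 / 54 * (n / L) * (3 * L) ^ 2 :=
      mul_le_mul_of_nonneg_left h3 (by positivity)
    have h5 : c0 / 54 * (n / L) * (3 * L) ^ 2 = c0 * (n * L / 6) := by
      field_simp
      ring
    rw [h5] at h4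
    exact h4.trans (mul_le_mul_of_nonneg_left k1 hc0.le)
  have k3 := IDX_good (n := n) (by omega)
  rw [← hN] at k3
  -- bad `m`, prime factors
  have hTU : K' * Real.log (Real.log x) ≤ K * Real.log (Real.log n) := by
    have hK0 : 0 < K' := lt_trans (by positivity) hK'
    have h3 : Real.log (Real.log x) ≤ Real.log 3 + Real.log L := by
      rw [← Real.log_mul (by norm_num) hL0.ne']
      exact Real.log_le_log hLx0 s1
    have h4 : K' * Real.log 3 ≤ (K - K') * Real.log L := by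
      rw [div_le_iff₀ (by linarith)] at g4
      linarith
    have h5 := mul_le_mul_of_nonneg_left h3 hK0.le
    nlinarith
  have k4 := IDX_bad1 (n := n) (by omega) _ _ hTU
  rw [← hx] at k4
  have k5 : (x : ℝ) / Real.log x ^ (3 + δ) ≤ c0 / 216 * (n / L) := by
    have h3 : L ^ (3 + δ) ≤ Real.log x ^ (3 + δ) :=
      Real.rpow_le_rpow hL0.le hLx (by linarith)
    have h4 : (x : ℝ) / Real.log x ^ (3 + δ) ≤ (900 * n * L ^ 2) / L ^ (3 + δ) := by
      apply div_le_div₀ (by positivity) s2 (by positivity) h3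
    refine h4.trans ?_
    rw [div_le_iff₀ (by positivity), Real.rpow_add hL0]
    have h5 : L ^ (3 : ℝ) = L ^ (3 : ℕ) := by
      rw [← Real.rpow_natCast]
      norm_num
    rw [h5]
    have h6 : c0 / 216 * (n / L) * (L ^ 3 * L ^ δ) = (n * L ^ 2) * (c0 / 216 * L ^ δ) := by
      field_simp
    rw [h6]
    have h7 : (900 : ℝ) ≤ c0 / 216 * L ^ δ := by
      have h8 := mul_le_mul_of_nonneg_left g5 (by positivity : (0 : ℝ) ≤ c0 / 216)
      have h9 : c0 / 216 * (900 * (216 / c0)) = 900 := by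
        field_simp
      linarith
    have h10 : 900 * (n : ℝ) * L ^ 2 = (n * L ^ 2) * 900 := by ring
    rw [h10]
    exact mul_le_mul_of_nonneg_left h7 (by positivity)
  -- bad `m`, gaps
  have k6 := IDX_bad2 (n := n) (by omega) (200000 / c0 * L ^ 3) (by positivity)
  rw [← hx] at k6
  set G := (Icc 1 (n - 1)).filter (fun k => ArithmeticFunction.cardFactors (pj k + 2) ≤ 2)
    with hG
  set B1 := (Icc 1 (n - 1)).filter (fun k =>
      ¬ ((ArithmeticFunction.cardFactors (pj (pj (n - k)) + 2) : ℝ) ≤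
        K * Real.log (Real.log n))) with hB1
  set B2 := (Icc 1 (n - 1)).filter (fun k =>
      ¬ ((pj (pj (n - k) + 1) : ℝ) ≤ pj (pj (n - k)) + 200000 / c0 * L ^ 3)) with hB2
  have k7 : (B2.card : ℝ) ≤ c0 / 216 * (n / L) := by
    have h3 : (B2.card : ℝ) * (200000 / c0 * L ^ 3) ≤ 900 * n * L ^ 2 := k6.trans s2
    rw [← le_div_iff₀ (by positivity)] at h3
    refine h3.trans ?_
    rw [div_le_iff₀ (by positivity)]
    have h4 : c0 / 216 * (n / L) * (200000 / c0 * L ^ 3) = (n * L ^ 2) * (200000 / 216) := by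
      field_simp
    rw [h4]
    nlinarith [mul_pos hn0 (pow_pos hL0 2)]
  have k8 : (B1.card : ℝ) ≤ c0 / 216 * (n / L) := by
    refine le_trans ?_ (g2.trans k5)
    exact_mod_cast k4
  have k9 : G ⊆ good K (200000 / c0) n ∪ (B1 ∪ B2) := by
    intro k hk
    rw [hG, mem_filter] at hk
    rw [mem_union, mem_union]
    by_cases h3 : ((ArithmeticFunction.cardFactors (pj (pj (n - k)) + 2) : ℝ) ≤
        K * Real.log (Real.log n))
    · by_cases h4 : ((pj (pj (n - k) + 1) : ℝ) ≤ pj (pj (n - k)) + 200000 / c0 * L ^ 3)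
      · left
        unfold good
        rw [mem_filter]
        exact ⟨hk.1, hk.2, h3, h4⟩
      · right
        right
        rw [hB2, mem_filter]
        exact ⟨hk.1, h4⟩
    · right
      left
      rw [hB1, mem_filter]
      exact ⟨hk.1, h3⟩
  have k10 : G.card ≤ (good K (200000 / c0) n).card + (B1.card + B2.card) :=
    (Finset.card_le_card k9).trans ((Finset.card_union_le _ _).trans
      (Nat.add_le_add_left (Finset.card_union_le _ _) _))
  have k11 : (G.card : ℝ) ≤ (good K (200000 / c0) n).card + (B1.card + B2.card) := by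
    exact_mod_cast k10
  have k12 : (chen N : ℝ) ≤ G.card := by exact_mod_cast k3
  have k13 : c0 / 108 * n / L = c0 / 54 * (n / L) - c0 / 216 * (n / L) - c0 / 216 * (n / L) := by
    ring
  rw [k13]
  linarith

end Pool.Agent.TCH
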