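import Pool.Agent.TCH.Stmts
import Pool.Agent.GBQ.RhoLow
import Pool.Agent.CH.MR
import Mathlib.NumberTheory.EulerProduct.Basic

set_option autoImplicit false

/-!
# TCH / LDA

Integers with a large smooth part are rare (method of Rankin).
-/

namespace Pool.Agent.TCH

open Finset Filter Pool.Agent.MT Pool.Agent.CH

/-! ### the smooth part -/

private lemma LDA_pos (y n : ℕ) : 0 < smp y n := by
  unfold smp
  refine Finset.prod_pos fun p hp => ?_
  exact pow_pos (Nat.prime_of_mem_primeFactors (Finset.mem_filter.mp hp).1).pos _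

private lemma LDA_dvd (y n : ℕ) (hn : n ≠ 0) : smp y n ∣ n := by
  have h1 : ∏ p ∈ n.primeFactors, p ^ n.factorization p = n := Nat.prod_factorization_pow_eq_self hn
  have h2 : smp y n ∣ ∏ p ∈ n.primeFactors, p ^ n.factorization p :=
    Finset.prod_dvd_prod_of_subset _ _ _ (Finset.filter_subset _ _)
  rwa [h1] at h2

private lemma LDA_mono (y z n : ℕ) (h : y ≤ z) : smp y n ≤ smp z n := by
  unfold smp
  refine Finset.prod_le_prod_of_subset_of_one_le' ?_ fun p hp _ => ?_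
  · intro p hp
    rw [Finset.mem_filter] at hp ⊢
    exact ⟨hp.1, hp.2.trans h⟩
  · exact Nat.one_le_pow _ _ (Nat.prime_of_mem_primeFactors (Finset.mem_filter.mp hp).1).pos

private lemma LDA_smooth (y n : ℕ) : smp y n ∈ Nat.smoothNumbers (y + 1) := by
  rw [Nat.mem_smoothNumbers']
  intro q hq hqd
  obtain ⟨p, hp, hpd⟩ := (hq.prime.dvd_finsetProd_iff _).mp hqd
  rw [Finset.mem_filter] at hp
  have h1 : q ∣ p := hq.dvd_of_dvd_pow hpd
  have h2 : q = p := (Nat.prime_dvd_prime_iff_eq hq (Nat.prime_of_mem_primeFactors hp.1)).mp h1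
  omega

/-! ### the Euler product -/

/-- `n ↦ n ^ (β - 1)` -/
private noncomputable def LDA_f (β : ℝ) : ℕ →* ℝ where
  toFun n := (n : ℝ) ^ (β - 1)
  map_one' := by rw [Nat.cast_one, Real.one_rpow]
  map_mul' m n := by
    rw [Nat.cast_mul, Real.mul_rpow (Nat.cast_nonneg _) (Nat.cast_nonneg _)]

private lemma LDA_euler (β : ℝ) (hβ : β < 1) (Y : ℕ) (S : Finset ℕ)
    (hS : ∀ a ∈ S, a ∈ Nat.smoothNumbers (Y + 1)) :
    ∑ a ∈ S, (a : ℝ) ^ (β - 1) ≤ ∏ p ∈ pr Y, (1 - (p : ℝ) ^ (β - 1))⁻¹ := by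
  classical
  have h1 : ∀ p : ℕ, p.Prime → ‖LDA_f β p‖ < 1 := by
    intro p hp
    show ‖(p : ℝ) ^ (β - 1)‖ < 1
    rw [Real.norm_of_nonneg (by positivity)]
    exact Real.rpow_lt_one_of_one_lt_of_neg (by exact_mod_cast hp.one_lt) (by linarith)
  obtain ⟨h2, h3⟩ := EulerProduct.summable_and_hasSum_smoothNumbers_prod_primesBelow_geometric
    (f := LDA_f β) (fun {p} hp => h1 p hp) (Y + 1)
  have h4 : ∑ a ∈ S, (a : ℝ) ^ (β - 1) =
      ∑ a ∈ S.subtype (· ∈ Nat.smoothNumbers (Y + 1)), LDA_f β a := by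
    rw [Finset.sum_subtype_eq_sum_filter (f := fun a => LDA_f β a),
      Finset.filter_true_of_mem hS]
    rfl
  rw [h4]
  exact sum_le_hasSum _ (fun a _ => by
    show (0 : ℝ) ≤ ((a : ℕ) : ℝ) ^ (β - 1)
    positivity) h3

/-- the number of integers with a large smooth part -/
private lemma LDA_count (β : ℝ) (hβ0 : 0 ≤ β) (hβ : β < 1) (Y x : ℕ) (hx : 1 ≤ x) :
    (((Icc 1 x).filter (fun n => Real.sqrt x < smp Y n)).card : ℝ) ≤
      x * (x : ℝ) ^ (-(β / 2)) * ∏ p ∈ pr Y, (1 - (p : ℝ) ^ (β - 1))⁻¹ := by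
  classical
  have hx0 : (0 : ℝ) < x := by exact_mod_cast hx
  set S := (Icc 1 x).filter (fun a => a ∈ Nat.smoothNumbers (Y + 1) ∧ Real.sqrt x < a) with hS
  have h1 : (Icc 1 x).filter (fun n => Real.sqrt x < smp Y n) ⊆
      S.biUnion fun a => (Icc 1 x).filter (fun n => a ∣ n) := by
    intro n hn
    rw [Finset.mem_filter, Finset.mem_Icc] at hn
    rw [Finset.mem_biUnion]
    have hd := LDA_dvd Y n (by omega)
    refine ⟨smp Y n, ?_, ?_⟩
    · rw [hS, Finset.mem_filter, Finset.mem_Icc]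
      exact ⟨⟨LDA_pos Y n, (Nat.le_of_dvd (by omega) hd).trans hn.1.2⟩, LDA_smooth Y n, hn.2⟩
    · rw [Finset.mem_filter, Finset.mem_Icc]
      exact ⟨hn.1, hd⟩
  have h2 : (((Icc 1 x).filter (fun n => Real.sqrt x < smp Y n)).card : ℝ) ≤
      ∑ a ∈ S, (((Icc 1 x).filter (fun n => a ∣ n)).card : ℝ) := by
    have := (Finset.card_le_card h1).trans Finset.card_biUnion_le
    exact_mod_cast this
  refine h2.trans ?_
  have h3 : ∀ a ∈ S, (((Icc 1 x).filter (fun n => a ∣ n)).card : ℝ) ≤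
      x * (x : ℝ) ^ (-(β / 2)) * (a : ℝ) ^ (β - 1) := by
    intro a ha
    rw [hS, Finset.mem_filter, Finset.mem_Icc] at ha
    have ha0 : (0 : ℝ) < a := by exact_mod_cast ha.1.1
    have e1 : ((Icc 1 x).filter (fun n => a ∣ n)).card = x / a := by
      have : Icc 1 x = Ioc 0 x := by
        ext n
        simp only [Finset.mem_Icc, Finset.mem_Ioc]
        omega
      rw [this]
      exact Nat.Ioc_filter_dvd_card_eq_div x a
    rw [e1]
    refine Nat.cast_div_le.trans ?_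
    have e2 : (1 : ℝ) ≤ (a / Real.sqrt x) ^ β := by
      refine Real.one_le_rpow ?_ hβ0
      rw [one_le_div (Real.sqrt_pos.mpr hx0)]
      exact ha.2.2.le
    have e3 : (a / Real.sqrt x) ^ β = (a : ℝ) ^ β * (x : ℝ) ^ (-(β / 2)) := by
      rw [Real.div_rpow ha0.le (Real.sqrt_nonneg _), Real.sqrt_eq_rpow, ← Real.rpow_mul hx0.le,
        Real.rpow_neg hx0.le, div_eq_mul_inv]
      congr 3
      ring
    have e4 : (a : ℝ) ^ (β - 1) = (a : ℝ) ^ β / a := by
      rw [Real.rpow_sub ha0, Real.rpow_one]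
    rw [e4]
    have e5 : (x : ℝ) / a * 1 ≤ x / a * ((a : ℝ) ^ β * (x : ℝ) ^ (-(β / 2))) :=
      mul_le_mul_of_nonneg_left (e3 ▸ e2) (by positivity)
    calc (x : ℝ) / a = x / a * 1 := by ring
      _ ≤ _ := e5
      _ = _ := by ring
  refine (Finset.sum_le_sum h3).trans ?_
  rw [← Finset.mul_sum]
  refine mul_le_mul_of_nonneg_left (LDA_euler β hβ Y S fun a ha => ?_) (by positivity)
  exact (Finset.mem_filter.mp ha).2.1

/-! ### the bound for the product -/

private lemma LDA_pr (Y : ℕ) : pr Y = (Ioc 0 Y).filter Nat.Prime := by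
  ext p
  unfold pr
  rw [Finset.mem_filter, Finset.mem_filter, Finset.mem_range, Finset.mem_Ioc]
  constructor
  · rintro ⟨h1, h2⟩
    exact ⟨⟨h2.pos, by omega⟩, h2⟩
  · rintro ⟨⟨h1, h2⟩, h3⟩
    exact ⟨by omega, h3⟩

private lemma LDA_recip (Y : ℕ) (hY : 3 ≤ Y) :
    ∑ p ∈ pr Y, 1 / (p : ℝ) ≤ Real.log (Real.log Y) + 8 := by
  have h1 := Pool.Agent.GBQ.rhl_recip Y hY
  have h2 : pr Y = insert 2 ((Ioc 2 Y).filter Nat.Prime) := by
    ext p
    rw [LDA_pr, Finset.mem_filter, Finset.mem_insert, Finset.mem_filter, Finset.mem_Ioc,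
      Finset.mem_Ioc]
    constructor
    · rintro ⟨⟨h1, h2⟩, h3⟩
      by_cases h4 : p = 2
      · exact Or.inl h4
      · have := h3.two_le
        exact Or.inr ⟨⟨by omega, h2⟩, h3⟩
    · rintro (rfl | ⟨⟨h1, h2⟩, h3⟩)
      · exact ⟨⟨by norm_num, by omega⟩, Nat.prime_two⟩
      · exact ⟨⟨by omega, h2⟩, h3⟩
  rw [h2, Finset.sum_insert (by simp), Finset.sum_filter]
  push_cast
  linarith

/-- one factor -/
private lemma LDA_fac (β : ℝ) (hβ : β ≤ 1 / 4) (p : ℕ) (hp : 2 ≤ p) :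
    (1 - (p : ℝ) ^ (β - 1))⁻¹ ≤ Real.exp ((p : ℝ) ^ (β - 1) + 3 * (1 / (p : ℝ) ^ (3 / 2 : ℝ))) := by
  have hp1 : (2 : ℝ) ≤ p := by exact_mod_cast hp
  have hp0 : (0 : ℝ) < p := by linarith
  set t := (p : ℝ) ^ (β - 1) with ht
  have ht0 : 0 < t := Real.rpow_pos_of_pos hp0 _
  have ht1 : t ≤ 2 / 3 := by
    have e1 : t ≤ (p : ℝ) ^ (-(3 / 4) : ℝ) :=
      Real.rpow_le_rpow_of_exponent_le (by linarith) (by linarith)
    have e2 : (p : ℝ) ^ (-(3 / 4) : ℝ) ≤ (2 : ℝ) ^ (-(3 / 4) : ℝ) :=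
      Real.rpow_le_rpow_of_nonpos (by norm_num) hp1 (by norm_num)
    have e3 : (2 : ℝ) ^ (-(3 / 4) : ℝ) ≤ 2 / 3 := by
      have e4 : ((2 : ℝ) ^ (-(3 / 4) : ℝ)) ^ 4 = 1 / 8 := by
        rw [← Real.rpow_natCast, ← Real.rpow_mul (by norm_num)]
        norm_num
      by_contra hc
      push Not at hc
      have : (2 / 3 : ℝ) ^ 4 < ((2 : ℝ) ^ (-(3 / 4) : ℝ)) ^ 4 :=
        pow_lt_pow_left₀ hc (by norm_num) (by norm_num)
      rw [e4] at this
      norm_num at this
    linarith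
  have ht2 : t ^ 2 ≤ 1 / (p : ℝ) ^ (3 / 2 : ℝ) := by
    rw [one_div, ← Real.rpow_neg hp0.le, ht, ← Real.rpow_natCast, ← Real.rpow_mul hp0.le]
    refine Real.rpow_le_rpow_of_exponent_le (by linarith) ?_
    push_cast
    linarith
  have h1 : 0 < 1 - t := by linarith
  have h2 : (1 - t)⁻¹ = 1 + t / (1 - t) := by
    field_simp
    ring
  have h3 : t / (1 - t) ≤ t + 3 * t ^ 2 := by
    rw [div_le_iff₀ h1]
    nlinarith [mul_nonneg ht0.le ht0.le]
  calc (1 - t)⁻¹ = t / (1 - t) + 1 := by rw [h2]; ring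
    _ ≤ Real.exp (t / (1 - t)) := Real.add_one_le_exp _
    _ ≤ _ := Real.exp_le_exp.mpr (by linarith)

private lemma LDA_one (β B : ℝ) (hβ0 : 0 ≤ β) (p : ℕ) (hp : 1 ≤ p) (hB : β * Real.log p ≤ B) :
    (p : ℝ) ^ (β - 1) ≤ 1 / p + β * Real.exp B * (Real.log p / p) := by
  have hp0 : (0 : ℝ) < p := by exact_mod_cast hp
  have hl : 0 ≤ Real.log p := Real.log_nonneg (by exact_mod_cast hp)
  have h1 : (p : ℝ) ^ β = Real.exp (β * Real.log p) := by
    rw [Real.rpow_def_of_pos hp0, mul_comm]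
  set s := β * Real.log p with hs
  have hs0 : 0 ≤ s := mul_nonneg hβ0 hl
  have h2 : Real.exp s ≤ 1 + s * Real.exp B := by
    have e1 : 1 - s ≤ Real.exp (-s) := by linarith [Real.add_one_le_exp (-s)]
    have e2 : Real.exp s * (1 - s) ≤ 1 := by
      have := mul_le_mul_of_nonneg_left e1 (Real.exp_pos s).le
      rwa [← Real.exp_add, add_neg_cancel, Real.exp_zero] at this
    have e3 : s * Real.exp s ≤ s * Real.exp B :=
      mul_le_mul_of_nonneg_left (Real.exp_le_exp.mpr hB) hs0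
    linarith
  rw [Real.rpow_sub hp0, Real.rpow_one, h1]
  calc Real.exp s / p ≤ (1 + s * Real.exp B) / p := div_le_div_of_nonneg_right h2 hp0.le
    _ = _ := by rw [hs]; ring

private lemma LDA_prod (B : ℝ) : ∃ C : ℝ, 0 < C ∧ ∀ (β : ℝ) (Y : ℕ), 0 ≤ β →
    β ≤ 1 / 4 → 3 ≤ Y → β * Real.log Y ≤ B →
    ∏ p ∈ pr Y, (1 - (p : ℝ) ^ (β - 1))⁻¹ ≤ C * Real.log Y := by
  obtain ⟨C1, hC1, hM⟩ := mr_T
  have hsum : Summable fun n : ℕ => 1 / (n : ℝ) ^ (3 / 2 : ℝ) :=
    Real.summable_one_div_nat_rpow.mpr (by norm_num)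
  set C2 := ∑' n : ℕ, 1 / (n : ℝ) ^ (3 / 2 : ℝ) with hC2
  refine ⟨Real.exp (8 + Real.exp B * (B + C1) + 3 * C2), Real.exp_pos _, ?_⟩
  intro β Y hβ0 hβ hY hβB
  have hY3 : (3 : ℝ) ≤ Y := by exact_mod_cast hY
  have hlY : 1 < Real.log Y := by
    rw [Real.lt_log_iff_exp_lt (by linarith)]
    have := Real.exp_one_lt_d9
    linarith
  have h1 : ∏ p ∈ pr Y, (1 - (p : ℝ) ^ (β - 1))⁻¹ ≤
      ∏ p ∈ pr Y, Real.exp ((p : ℝ) ^ (β - 1) + 3 * (1 / (p : ℝ) ^ (3 / 2 : ℝ))) := by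
    refine Finset.prod_le_prod (fun p hp => ?_) fun p hp => ?_
    · have hpp : p.Prime := (Finset.mem_filter.mp hp).2
      refine inv_nonneg.mpr ?_
      have := Real.rpow_lt_one_of_one_lt_of_neg (x := (p : ℝ)) (z := β - 1)
        (by exact_mod_cast hpp.one_lt) (by linarith)
      linarith
    · exact LDA_fac β hβ p (Finset.mem_filter.mp hp).2.two_le
  refine h1.trans ?_
  rw [← Real.exp_sum, Finset.sum_add_distrib, ← Finset.mul_sum]
  have h2 : ∑ p ∈ pr Y, 1 / (p : ℝ) ^ (3 / 2 : ℝ) ≤ C2 :=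
    hsum.sum_le_tsum _ fun n _ => by positivity
  have h3 : ∑ p ∈ pr Y, (p : ℝ) ^ (β - 1) ≤ (Real.log (Real.log Y) + 8) +
      Real.exp B * (B + C1) := by
    have e1 : ∑ p ∈ pr Y, (p : ℝ) ^ (β - 1) ≤
        ∑ p ∈ pr Y, (1 / (p : ℝ) + β * Real.exp B * (Real.log p / p)) := by
      refine Finset.sum_le_sum fun p hp => ?_
      have hp' := Finset.mem_filter.mp hp
      have hpY : p ≤ Y := by
        have := Finset.mem_range.mp hp'.1
        omega
      refine LDA_one β B hβ0 p hp'.2.pos ((mul_le_mul_of_nonneg_left ?_ hβ0).trans hβB)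
      exact Real.log_le_log (by exact_mod_cast hp'.2.pos) (by exact_mod_cast hpY)
    rw [Finset.sum_add_distrib, ← Finset.mul_sum] at e1
    have e2 := LDA_recip Y hY
    have e3 : ∑ p ∈ pr Y, Real.log p / p ≤ Real.log Y + C1 := by
      have := (abs_le.mp (hM Y (by omega))).2
      rw [LDA_pr]
      linarith
    have e4 : β * Real.exp B * ∑ p ∈ pr Y, Real.log p / p ≤ Real.exp B * (B + C1) := by
      calc β * Real.exp B * ∑ p ∈ pr Y, Real.log p / p ≤ β * Real.exp B * (Real.log Y + C1) :=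
            mul_le_mul_of_nonneg_left e3 (by positivity)
        _ = Real.exp B * (β * Real.log Y + β * C1) := by ring
        _ ≤ Real.exp B * (B + C1) := by
            refine mul_le_mul_of_nonneg_left ?_ (Real.exp_pos B).le
            have : β * C1 ≤ 1 * C1 := mul_le_mul_of_nonneg_right (by linarith) hC1
            linarith
    linarith
  have h4 : Real.exp (8 + Real.exp B * (B + C1) + 3 * C2) * Real.log Y =
      Real.exp (8 + Real.exp B * (B + C1) + 3 * C2 + Real.log (Real.log Y)) := by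
    rw [Real.exp_add _ (Real.log (Real.log Y)), Real.exp_log (by linarith)]
  rw [h4]
  refine Real.exp_le_exp.mpr ?_
  linarith

/-- integers with a large smooth part are rare -/
theorem thm_LDA : St_LDA := by
  intro ε hε A
  obtain ⟨C, hC, hP⟩ := LDA_prod (4 * (A + 2) / ε)
  have t1 : Tendsto (fun x : ℕ => Real.log x) atTop atTop :=
    Real.tendsto_log_atTop.comp tendsto_natCast_atTop_atTop
  have t2 : Tendsto (fun x : ℕ => Real.log (Real.log x)) atTop atTop :=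
    Real.tendsto_log_atTop.comp t1
  have t3 : ∀ c : ℝ, 0 < c → ∀ᶠ x : ℕ in atTop, c * Real.log (Real.log x) ≤ Real.log x := by
    intro c hc
    have h := (Real.isLittleO_log_id_atTop.bound (by positivity : (0 : ℝ) < 1 / c))
    have h' := (t1.eventually h)
    filter_upwards [h', t1.eventually_ge_atTop 1] with x hx hx1
    have h0 : 0 ≤ Real.log (Real.log x) := Real.log_nonneg hx1
    rw [Real.norm_of_nonneg h0, id, Real.norm_of_nonneg (by linarith)] at hx
    rw [div_mul_eq_mul_div, one_mul, le_div_iff₀ hc] at hx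
    linarith
  filter_upwards [t2.eventually_ge_atTop 1, t2.eventually_ge_atTop (1 / ε),
    t1.eventually_ge_atTop C, t1.eventually_ge_atTop 1, t3 (16 * (A + 2)) (by positivity),
    t3 (2 * ε) (by positivity), eventually_ge_atTop 1] with x e1 e2 e3 e4 e5 e6 e7
  intro y hy
  have hx0 : (0 : ℝ) < x := by exact_mod_cast e7
  set L := Real.log x with hL
  set l := Real.log L with hl
  have hL0 : 0 < L := by linarith
  have hl0 : 0 < l := by linarith
  have hεl : 1 ≤ ε * l := by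
    rw [div_le_iff₀ hε] at e2
    linarith
  set z := (x : ℝ) ^ (1 / (ε * l)) with hz
  have hz0 : 0 < z := Real.rpow_pos_of_pos hx0 _
  have hlz : Real.log z = L / (ε * l) := by
    rw [hz, Real.log_rpow hx0]
    ring
  have hz2 : 2 ≤ Real.log z := by
    rw [hlz, le_div_iff₀ (by positivity)]
    linarith
  have hz3 : 3 ≤ z := by
    have h1 : Real.exp 2 ≤ z := by
      rw [← Real.exp_log hz0]
      exact Real.exp_le_exp.mpr hz2
    have h2 : (2 : ℝ) + 1 ≤ Real.exp 2 := Real.add_one_le_exp 2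
    linarith
  set Y := ⌊z⌋₊ with hY
  have hY3 : 3 ≤ Y := Nat.le_floor (by exact_mod_cast hz3)
  have hyY : y ≤ Y := Nat.le_floor hy
  have hYz : (Y : ℝ) ≤ z := Nat.floor_le hz0.le
  have hY0 : (0 : ℝ) < Y := by exact_mod_cast (by omega : 0 < Y)
  have hlY : Real.log Y ≤ Real.log z := Real.log_le_log hY0 hYz
  set β := 4 * ((A : ℝ) + 2) * l / L with hβ
  have hβ0 : 0 ≤ β := by positivity
  have hβ4 : β ≤ 1 / 4 := by
    rw [hβ, div_le_iff₀ hL0]
    linarith
  have hβY : β * Real.log Y ≤ 4 * (A + 2) / ε := by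
    refine (mul_le_mul_of_nonneg_left hlY hβ0).trans (le_of_eq ?_)
    rw [hlz, hβ]
    field_simp
  have h1 := LDA_count β hβ0 (by linarith) Y x e7
  have h2 := hP β Y hβ0 hβ4 hY3 hβY
  have h3 : (((Icc 1 x).filter (fun n => Real.sqrt x < smp y n)).card : ℝ) ≤
      (((Icc 1 x).filter (fun n => Real.sqrt x < smp Y n)).card : ℝ) := by
    have : (Icc 1 x).filter (fun n => Real.sqrt x < smp y n) ⊆
        (Icc 1 x).filter (fun n => Real.sqrt x < smp Y n) := by
      intro n hn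
      rw [Finset.mem_filter] at hn ⊢
      refine ⟨hn.1, hn.2.trans_le ?_⟩
      exact_mod_cast LDA_mono y Y n hyY
    exact_mod_cast Finset.card_le_card this
  refine h3.trans (h1.trans ?_)
  have h4 : (x : ℝ) ^ (-(β / 2)) = (L ^ (2 * (A + 2)))⁻¹ := by
    rw [Real.rpow_def_of_pos hx0, ← hL]
    have : L * -(β / 2) = -(((2 * (A + 2) : ℕ) : ℝ) * l) := by
      rw [hβ]
      push_cast
      field_simp
      ring
    rw [this, Real.exp_neg, mul_comm, Real.exp_mul, hl, Real.exp_log hL0, Real.rpow_natCast]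
  have h5 : Real.log Y ≤ L := by
    refine hlY.trans ?_
    rw [hlz]
    exact div_le_self hL0.le hεl
  rw [h4]
  have h6 : (x : ℝ) * (L ^ (2 * (A + 2)))⁻¹ * ∏ p ∈ pr Y, (1 - (p : ℝ) ^ (β - 1))⁻¹ ≤
      x * (L ^ (2 * (A + 2)))⁻¹ * (L * L) := by
    refine mul_le_mul_of_nonneg_left (h2.trans ?_) (by positivity)
    exact mul_le_mul e3 h5 (by linarith [Real.log_nonneg (show (1 : ℝ) ≤ Y by
      exact_mod_cast (by omega : 1 ≤ Y))]) hL0.le
  refine h6.trans ?_
  have h7 : L ^ (2 * (A + 2)) = L ^ A * (L ^ (A + 2) * (L * L)) := by ring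
  rw [h7, div_eq_mul_inv, mul_inv, mul_assoc, mul_assoc]
  refine mul_le_mul_of_nonneg_left ?_ hx0.le
  refine mul_le_of_le_one_right (by positivity) ?_
  rw [mul_inv, mul_assoc, inv_mul_cancel₀ (by positivity), mul_one]
  exact inv_le_one_of_one_le₀ (one_le_pow₀ e4)

end Pool.Agent.TCH
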