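import Pool.Agent.TCH.Stmts
import Pool.Agent.PC.Sieve

set_option autoImplicit false

/-!
# TCH, module LDB: upper bound sieve for `b` and `a b - 2`
-/

namespace Pool.Agent.TCH

open Finset Filter Pool.Agent.MT Pool.Agent.CH
open Pool.Agent.Helper90.Straus (g Sys surv mem_surv sieve_upper)
open Pool.Agent.PC.BlockB

private theorem LDB_class (a p : ℕ) : ∃ r : ℕ, p.Prime → ¬ p ∣ 2 * a →
    r < p ∧ r ≠ 0 ∧ a * r % p = 2 % p := by
  by_cases hp : p.Prime
  · by_cases h : p ∣ 2 * a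
    · exact ⟨0, fun _ h' => absurd h h'⟩
    · have h2 : ¬ p ∣ 2 := fun h' => h (h'.mul_right a)
      have ha : ¬ p ∣ a := fun h' => h (h'.mul_left 2)
      have hcop : Nat.Coprime a p := (Nat.Coprime.symm ((Nat.Prime.coprime_iff_not_dvd hp).2 ha))
      obtain ⟨s, -, hs⟩ := Nat.exists_mul_mod_eq_one_of_coprime hcop hp.one_lt
      refine ⟨(2 * s) % p, fun _ _ => ⟨Nat.mod_lt _ hp.pos, ?_, ?_⟩⟩
      · intro h0
        have h3 : p ∣ 2 * s := Nat.dvd_of_mod_eq_zero h0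
        rcases (Nat.Prime.dvd_mul hp).1 h3 with h4 | h4
        · exact h2 h4
        · have h5 : a * s % p = 0 := Nat.mod_eq_zero_of_dvd (h4.mul_left a)
          omega
      · have h3 : a * ((2 * s) % p) % p = (a * (2 * s)) % p := by
          rw [Nat.mul_mod, Nat.mod_mod, ← Nat.mul_mod]
        have h4 : a * (2 * s) = 2 * (a * s) := by ring
        rw [h3, h4, Nat.mul_mod, hs, mul_one, Nat.mod_mod]
  · exact ⟨0, fun h => absurd h hp⟩

private noncomputable def LDBr (a p : ℕ) : ℕ := (LDB_class a p).choose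

private theorem LDBr_spec {a p : ℕ} (hp : p.Prime) (h : ¬ p ∣ 2 * a) :
    LDBr a p < p ∧ LDBr a p ≠ 0 ∧ a * LDBr a p % p = 2 % p :=
  (LDB_class a p).choose_spec hp h

open Classical in
private noncomputable def LDBO (a p : ℕ) : Finset ℕ := if p ∣ 2 * a then {0} else {0, LDBr a p}

private theorem LDBO_card {a p : ℕ} (hp : p.Prime) :
    ((LDBO a p).card : ℝ) = if p ∣ 2 * a then 1 else 2 := by
  unfold LDBO
  split_ifs with hd
  · simp
  · rw [Finset.card_pair (Ne.symm (LDBr_spec hp hd).2.1)]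
    norm_num

private theorem LDBO_sys (a : ℕ) : Sys 2 (LDBO a) := by
  intro p hp
  unfold LDBO
  split_ifs with hd
  · refine ⟨?_, ?_, ?_⟩
    · intro x hx
      rw [Finset.mem_singleton] at hx
      rw [Finset.mem_range, hx]
      exact hp.pos
    · simp
    · rw [Finset.card_singleton]
      exact hp.one_lt
  · obtain ⟨h1, h2, -⟩ := LDBr_spec hp hd
    refine ⟨?_, ?_, ?_⟩
    · intro x hx
      rw [Finset.mem_insert, Finset.mem_singleton] at hx
      rw [Finset.mem_range]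
      rcases hx with rfl | rfl
      · exact hp.pos
      · exact h1
    · exact Finset.card_le_two
    · have h3 : p ≠ 2 := fun h => hd (h ▸ dvd_mul_right 2 a)
      have h4 : 2 < p := lt_of_le_of_ne hp.two_le (Ne.symm h3)
      exact lt_of_le_of_lt Finset.card_le_two h4

private theorem LDB_V {a : ℕ} (ha : 1 ≤ a) (N : ℕ) :
    ∏ p ∈ Pool.Agent.Helper90.Straus.pr 2 N, (1 - g (LDBO a) p) ≤
      (∏ p ∈ Pool.Agent.Helper90.Straus.pr 2 N, (1 - 1 / (p : ℝ))) ^ 2 *
        (((2 * a : ℕ) : ℝ) / Nat.totient (2 * a)) := by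
  have h1 : ∏ p ∈ Pool.Agent.Helper90.Straus.pr 2 N, (1 - g (LDBO a) p) =
      ∏ p ∈ Pool.Agent.Helper90.Straus.pr 2 N, (1 - g (Om2 (2 * a)) p) := by
    refine Finset.prod_congr rfl fun p hp => ?_
    have hpp := (Pool.Agent.Helper90.Straus.mem_pr.1 hp).2
    unfold g
    rw [LDBO_card hpp, card_Om2 hpp]
  rw [h1]
  exact V_le (by omega) N

private theorem LDB_subset {X a y z : ℕ} (hz : z ≤ y + 1) :
    (Icc 1 X).filter (fun b => (∀ p ∈ pr y, ¬ p ∣ b) ∧ (∀ p ∈ pr y, ¬ p ∣ a * b - 2)) ⊆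
      surv (LDBO a) z 1 X := by
  intro b hb
  rw [Finset.mem_filter, Finset.mem_Icc] at hb
  obtain ⟨⟨h1, h2⟩, h3, h4⟩ := hb
  rw [mem_surv]
  refine ⟨⟨h1, by omega⟩, fun p hp hpz hmem => ?_⟩
  have hpy : p ∈ pr y := by
    unfold Pool.Agent.CH.pr
    rw [Finset.mem_filter, Finset.mem_range]
    exact ⟨by omega, hp⟩
  have h0 : b % p ≠ 0 := fun h => h3 p hpy (Nat.dvd_of_mod_eq_zero h)
  unfold LDBO at hmem
  split_ifs at hmem with hd
  · rw [Finset.mem_singleton] at hmem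
    exact h0 hmem
  · rw [Finset.mem_insert, Finset.mem_singleton] at hmem
    rcases hmem with h5 | h5
    · exact h0 h5
    · obtain ⟨-, -, h6⟩ := LDBr_spec hp hd
      have h7 : a * b % p = 2 % p := by
        rw [← h6, ← h5, Nat.mul_mod a (b % p) p, Nat.mod_mod, ← Nat.mul_mod]
      apply h4 p hpy
      by_cases h8 : 2 ≤ a * b
      · exact (Nat.modEq_iff_dvd' h8).1 (Nat.ModEq.symm h7)
      · have h9 : a * b - 2 = 0 := by omega
        rw [h9]
        exact dvd_zero p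

private theorem LDB_R {y : ℕ} (hy : 2 ≤ y) : ∃ R, 2 ^ 2 ^ R ≤ y ∧ y < 2 ^ 2 ^ (R + 1) := by
  have hex : ∃ i, y < 2 ^ 2 ^ i := by
    refine ⟨y, ?_⟩
    calc y < 2 ^ y := Nat.lt_two_pow_self
      _ ≤ 2 ^ 2 ^ y := Nat.pow_le_pow_right (by norm_num) Nat.lt_two_pow_self.le
  classical
  obtain ⟨i, hi⟩ : ∃ i, i = Nat.find hex := ⟨_, rfl⟩
  have hi1 : y < 2 ^ 2 ^ i := by
    rw [hi]
    exact Nat.find_spec hex
  have hi0 : i ≠ 0 := by
    intro h0
    rw [h0] at hi1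
    norm_num at hi1
    omega
  have hi2 : ¬ y < 2 ^ 2 ^ (i - 1) := Nat.find_min hex (by omega)
  refine ⟨i - 1, not_lt.1 hi2, ?_⟩
  have h5 : i - 1 + 1 = i := by omega
  rw [h5]
  exact hi1

theorem thm_LDB : St_LDB := by
  obtain ⟨c, R₀, hc2, hs⟩ := sieve_upper (κ := 2) (by norm_num)
  obtain ⟨L₀, hL₀⟩ : ∃ L₀ : ℕ, L₀ = 2 ^ 2 ^ R₀ := ⟨_, rfl⟩
  refine ⟨32 + Real.log L₀ ^ 2, c, by positivity, fun X a y hy hyX ha => ?_⟩
  have hlogy : 0 < Real.log y := Real.log_pos (by exact_mod_cast (show 1 < y by omega))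
  have hratio := ratio_ge_one (h := a) (by omega)
  obtain ⟨ρ, hρ⟩ : ∃ ρ : ℝ, ρ = (a : ℝ) / Nat.totient a := ⟨_, rfl⟩
  rw [← hρ] at hratio ⊢
  have hX0 : (0 : ℝ) ≤ X := Nat.cast_nonneg X
  have hρ2 : 1 ≤ ρ ^ 2 := one_le_pow₀ hratio
  -- a constant times `ρ ^ 2 X / log ^ 2 y` suffices
  have key : ∀ K : ℝ, K ≤ 32 + Real.log L₀ ^ 2 →
      K * ρ ^ 2 * X / Real.log y ^ 2 ≤
        (32 + Real.log L₀ ^ 2) * ρ ^ 2 * X / Real.log y ^ 2 := by
    intro K hK
    apply div_le_div_of_nonneg_right _ (by positivity)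
    apply mul_le_mul_of_nonneg_right _ hX0
    apply mul_le_mul_of_nonneg_right hK (by positivity)
  by_cases hev : 2 ∣ a
  · -- even `a`: no elements
    have h1 : (Icc 1 X).filter (fun b => (∀ p ∈ pr y, ¬ p ∣ b) ∧
        (∀ p ∈ pr y, ¬ p ∣ a * b - 2)) = ∅ := by
      rw [Finset.filter_eq_empty_iff]
      rintro b hb ⟨-, h4⟩
      have h2y : 2 ∈ pr y := by
        unfold Pool.Agent.CH.pr
        rw [Finset.mem_filter, Finset.mem_range]
        exact ⟨by omega, Nat.prime_two⟩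
      exact h4 2 h2y (Nat.dvd_sub (hev.mul_right b) (dvd_refl 2))
    rw [h1, Finset.card_empty, Nat.cast_zero]
    positivity
  have htot : Nat.totient (2 * a) = Nat.totient a := by
    have hcop : Nat.Coprime 2 a := (Nat.Prime.coprime_iff_not_dvd Nat.prime_two).2 hev
    rw [Nat.totient_mul hcop, Nat.totient_two, one_mul]
  obtain ⟨R, hR1, hR2⟩ := LDB_R hy
  have htriv : (((Icc 1 X).filter (fun b => (∀ p ∈ pr y, ¬ p ∣ b) ∧
      (∀ p ∈ pr y, ¬ p ∣ a * b - 2))).card : ℝ) ≤ X := by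
    have h2 := Finset.card_filter_le (Icc 1 X) (fun b => (∀ p ∈ pr y, ¬ p ∣ b) ∧
      (∀ p ∈ pr y, ¬ p ∣ a * b - 2))
    rw [Nat.card_Icc, Nat.add_sub_cancel] at h2
    exact_mod_cast h2
  by_cases hR : R₀ ≤ R
  · obtain ⟨z, hz⟩ : ∃ z : ℕ, z = 2 ^ 2 ^ R := ⟨_, rfl⟩
    have hzz : 2 ^ 2 ^ (R + 1) = z ^ 2 := by
      rw [hz, ← pow_mul]
      congr 1
    have hz2 : 2 ≤ z := by
      rw [hz]
      calc 2 = 2 ^ 1 := rfl
        _ ≤ 2 ^ 2 ^ R := Nat.pow_le_pow_right (by norm_num) Nat.one_le_two_pow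
    have hzX : (2 ^ 2 ^ R) ^ c ≤ X := (Nat.pow_le_pow_left hR1 c).trans hyX
    have hmain := hs R hR (LDBO a) (LDBO_sys a) 1 X hzX
    rw [hzz] at hR2
    have hzc : (2 : ℝ) ^ 2 ^ R = z := by
      rw [hz]
      push_cast
      rfl
    rw [← hz] at hmain hR1
    rw [hzc] at hmain
    have hV := (LDB_V ha z).trans (mul_le_mul_of_nonneg_right (P_sq_le hz2)
      (by positivity))
    have hρ' : (((2 * a : ℕ) : ℝ) / Nat.totient (2 * a)) = 2 * ρ := by
      rw [htot, hρ]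
      push_cast
      ring
    rw [hρ'] at hV
    have hlogz : 0 < Real.log z := Real.log_pos (by exact_mod_cast (show 1 < z by omega))
    have hz0 : (0 : ℝ) < z := by exact_mod_cast (show 0 < z by omega)
    have hcard : (((Icc 1 X).filter (fun b => (∀ p ∈ pr y, ¬ p ∣ b) ∧
        (∀ p ∈ pr y, ¬ p ∣ a * b - 2))).card : ℝ) ≤ ((surv (LDBO a) z 1 X).card : ℝ) := by
      exact_mod_cast Finset.card_le_card (LDB_subset (X := X) (a := a) (by omega))
    have hinv : 1 / (z : ℝ) ≤ 4 * (1 / Real.log z ^ 2) := by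
      rw [mul_one_div, div_le_div_iff₀ hz0 (by positivity)]
      have := log_sq_le (x := z) (by exact_mod_cast (show 1 ≤ z by omega))
      linarith
    have hcount : (((Icc 1 X).filter (fun b => (∀ p ∈ pr y, ¬ p ∣ b) ∧
        (∀ p ∈ pr y, ¬ p ∣ a * b - 2))).card : ℝ) ≤ 8 * ρ ^ 2 * X * (1 / Real.log z ^ 2) := by
      have h1 : (X : ℝ) * (2 * ∏ p ∈ Pool.Agent.Helper90.Straus.pr 2 z, (1 - g (LDBO a) p)) ≤
          X * (2 * (1 / Real.log z ^ 2 * (2 * ρ))) :=
        mul_le_mul_of_nonneg_left (mul_le_mul_of_nonneg_left hV (by norm_num)) hX0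
      have h2 : (X : ℝ) / z ≤ 4 * X * (1 / Real.log z ^ 2) := by
        calc (X : ℝ) / z = X * (1 / z) := by ring
          _ ≤ X * (4 * (1 / Real.log z ^ 2)) := mul_le_mul_of_nonneg_left hinv hX0
          _ = _ := by ring
      have hq : 0 ≤ (X : ℝ) * (1 / Real.log z ^ 2) := by positivity
      have h3 : 4 * (X : ℝ) * (1 / Real.log z ^ 2) ≤ 4 * ρ ^ 2 * (X * (1 / Real.log z ^ 2)) := by
        nlinarith
      have h4 : (X : ℝ) * (2 * (1 / Real.log z ^ 2 * (2 * ρ))) ≤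
          4 * ρ ^ 2 * (X * (1 / Real.log z ^ 2)) := by
        have h5 : (X : ℝ) * (2 * (1 / Real.log z ^ 2 * (2 * ρ))) =
          4 * ρ * (X * (1 / Real.log z ^ 2)) := by ring
        rw [h5]
        apply mul_le_mul_of_nonneg_right _ hq
        nlinarith
      linarith
    refine hcount.trans ((le_trans ?_ (key 32 (by
      have : 0 ≤ Real.log L₀ ^ 2 := by positivity
      linarith))))
    have hlogyz : Real.log y ≤ 2 * Real.log z := by
      have h1 : (y : ℝ) ≤ (z : ℝ) ^ 2 := by exact_mod_cast hR2.le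
      calc Real.log y ≤ Real.log ((z : ℝ) ^ 2) := Real.log_le_log (by
            exact_mod_cast (show 0 < y by omega)) h1
        _ = 2 * Real.log z := by
          rw [Real.log_pow]
          push_cast
          ring
    have hfrac : 1 / Real.log z ^ 2 ≤ 4 / Real.log y ^ 2 := by
      rw [div_le_div_iff₀ (by positivity) (by positivity)]
      have h1 : Real.log y ^ 2 ≤ (2 * Real.log z) ^ 2 := pow_le_pow_left₀ hlogy.le hlogyz 2
      nlinarith
    calc 8 * ρ ^ 2 * X * (1 / Real.log z ^ 2) ≤ 8 * ρ ^ 2 * X * (4 / Real.log y ^ 2) :=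
          mul_le_mul_of_nonneg_left hfrac (by positivity)
      _ = 32 * ρ ^ 2 * X / Real.log y ^ 2 := by ring
  · -- small `y`
    have hyL : y < L₀ := by
      refine lt_of_lt_of_le hR2 ?_
      rw [hL₀]
      apply Nat.pow_le_pow_right (by norm_num)
      apply Nat.pow_le_pow_right (by norm_num)
      omega
    refine htriv.trans (le_trans ?_ (key (Real.log L₀ ^ 2) (by linarith)))
    rw [le_div_iff₀ (by positivity)]
    have h2 : Real.log y ≤ Real.log L₀ :=
      Real.log_le_log (by exact_mod_cast (show 0 < y by omega)) (by exact_mod_cast hyL.le)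
    have h3 : Real.log y ^ 2 ≤ Real.log L₀ ^ 2 := pow_le_pow_left₀ hlogy.le h2 2
    have h4 : Real.log y ^ 2 * 1 ≤ Real.log L₀ ^ 2 * ρ ^ 2 :=
      mul_le_mul h3 hρ2 (by norm_num) (by positivity)
    calc (X : ℝ) * Real.log y ^ 2 = (Real.log y ^ 2 * 1) * X := by ring
      _ ≤ (Real.log L₀ ^ 2 * ρ ^ 2) * X := mul_le_mul_of_nonneg_right h4 hX0

end Pool.Agent.TCH
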