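import Pool.Agent.TCH.Stmts

set_option autoImplicit false

/-!
# TCH, module LDF: large deviations of `Ω(p + 2)` from LDA and LDM (helper65)
-/

namespace Pool.Agent.TCH

open Finset Filter Pool.Agent.MT Pool.Agent.CH

/-- the choice of `z` -/
theorem LDF_z (K : ℝ) (hK : 4 / Real.log 3 < K) :
    ∃ z : ℝ, 1 ≤ z ∧ z < 3 ∧ 0 < K * Real.log z - z - 1 := by
  have hlog3 : 0 < Real.log 3 := Real.log_pos (by norm_num)
  rw [div_lt_iff₀ hlog3] at hK
  have hc : ContinuousAt (fun z : ℝ => K * Real.log z - z - 1) 3 := by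
    have h1 : ContinuousAt Real.log 3 := Real.continuousAt_log (by norm_num)
    exact ((continuousAt_const.mul h1).sub continuousAt_id).sub continuousAt_const
  have h2 : ∀ᶠ z in nhds (3 : ℝ), 0 < K * Real.log z - z - 1 := by
    apply hc.eventually_const_lt
    linarith
  have h3 : ∀ᶠ z in nhdsWithin (3 : ℝ) (Set.Iio 3), 0 < K * Real.log z - z - 1 :=
    h2.filter_mono nhdsWithin_le_nhds
  have h4 : ∀ᶠ z in nhdsWithin (3 : ℝ) (Set.Iio 3), (1 : ℝ) ≤ z := by
    have h5 : ∀ᶠ z in nhds (3 : ℝ), (1 : ℝ) < z := eventually_gt_nhds (by norm_num)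
    filter_upwards [h5.filter_mono nhdsWithin_le_nhds] with z hz
    exact hz.le
  obtain ⟨z, hz1, hz2, hz3⟩ := (h3.and (h4.and self_mem_nhdsWithin)).exists
  exact ⟨z, hz2, hz3, hz1⟩

/-- comparison of the levels -/
theorem LDF_lev (ε₀ : ℝ) (hε : 0 < ε₀) (x : ℝ) (hx : Real.exp 2 ≤ x) :
    x ^ (1 / (ε₀ * Real.log (Real.log x))) ≤
      (x + 2) ^ (1 / (ε₀ / 2 * Real.log (Real.log (x + 2)))) := by
  have he2 : (3 : ℝ) ≤ Real.exp 2 := by
    have := Real.add_one_le_exp (2 : ℝ)
    linarith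
  have hx3 : 3 ≤ x := he2.trans hx
  have hl : 2 ≤ Real.log x := by
    rw [Real.le_log_iff_exp_le (by linarith)]
    exact hx
  have hl2 : Real.log x ≤ Real.log (x + 2) := Real.log_le_log (by linarith) (by linarith)
  have hL : Real.log 2 ≤ Real.log (Real.log x) := Real.log_le_log (by norm_num) hl
  have hlog2 : 0 < Real.log 2 := Real.log_pos (by norm_num)
  have hL1 : 0 < Real.log (Real.log x) := hlog2.trans_le hL
  have hL2 : Real.log (Real.log x) ≤ Real.log (Real.log (x + 2)) :=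
    Real.log_le_log (by linarith) hl2
  have hL3 : Real.log (Real.log (x + 2)) ≤ 2 * Real.log (Real.log x) := by
    have h1 : Real.log (x + 2) ≤ 2 * Real.log x := by
      rw [← Nat.cast_ofNat (R := ℝ) (n := 2), ← Real.log_pow]
      refine Real.log_le_log (by positivity) ?_
      push_cast
      nlinarith
    have h2 : Real.log (Real.log (x + 2)) ≤ Real.log (2 * Real.log x) :=
      Real.log_le_log (by linarith) h1
    rw [Real.log_mul (by norm_num) (by linarith)] at h2
    linarith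
  have hexp : 1 / (ε₀ * Real.log (Real.log x)) ≤
      1 / (ε₀ / 2 * Real.log (Real.log (x + 2))) := by
    have hL4 : 0 < Real.log (Real.log (x + 2)) := by linarith
    refine one_div_le_one_div_of_le (by positivity) ?_
    nlinarith
  calc x ^ (1 / (ε₀ * Real.log (Real.log x)))
      ≤ x ^ (1 / (ε₀ / 2 * Real.log (Real.log (x + 2)))) :=
        Real.rpow_le_rpow_of_exponent_le (by linarith) hexp
    _ ≤ _ := Real.rpow_le_rpow (by linarith) (by linarith) (by
        have : 0 < Real.log (Real.log (x + 2)) := by linarith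
        positivity)

/-- Rankin: the lower bound for the weight -/
theorem LDF_rk (z K l : ℝ) (hz : 1 ≤ z) (hl : 0 < l) (n : ℕ) (h : K * Real.log l < n) :
    l ^ (K * Real.log z) ≤ z ^ n := by
  have hz0 : 0 < z := by linarith
  have h1 : 0 ≤ Real.log z := Real.log_nonneg hz
  rw [← Real.rpow_natCast, Real.rpow_def_of_pos hl, Real.rpow_def_of_pos hz0]
  apply Real.exp_le_exp.mpr
  nlinarith

theorem thm_LDF (h1 : St_LDA) (h2 : St_LDM) : St_LD := by
  intro K hK
  obtain ⟨z, hz1, hz3, hz⟩ := LDF_z K hK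
  obtain ⟨η, hη⟩ : ∃ η : ℝ, η = K * Real.log z - z - 1 := ⟨_, rfl⟩
  have hη0 : 0 < η := by
    rw [hη]
    exact hz
  obtain ⟨ε₀, hε₀, hM⟩ := h2 z hz1 hz3 (η / 4) (by positivity)
  have hA := (tendsto_add_atTop_nat 2).eventually (h1 (ε₀ / 2) (by positivity) 4)
  obtain ⟨δ, hδ⟩ : ∃ δ : ℝ, δ = min (η / 2) (1 / 2) := ⟨_, rfl⟩
  have hδ0 : 0 < δ := by
    rw [hδ]
    exact lt_min (by positivity) (by norm_num)
  have hδ1 : δ ≤ η / 2 := by
    rw [hδ]
    exact min_le_left _ _
  have hδ2 : δ ≤ 1 / 2 := by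
    rw [hδ]
    exact min_le_right _ _
  refine ⟨δ, hδ0, ?_⟩
  have hlog : Tendsto (fun x : ℕ => Real.log (x : ℝ)) atTop atTop :=
    Real.tendsto_log_atTop.comp tendsto_natCast_atTop_atTop
  have e1 : ∀ᶠ x : ℕ in atTop, (2 : ℝ) ≤ Real.log x ^ (η / 4) :=
    ((tendsto_rpow_atTop (by positivity : 0 < η / 4)).comp hlog).eventually_ge_atTop 2
  have e2 : ∀ᶠ x : ℕ in atTop, (4 : ℝ) ≤ Real.log x ^ (1 / 2 : ℝ) :=
    ((tendsto_rpow_atTop (by norm_num : (0 : ℝ) < 1 / 2)).comp hlog).eventually_ge_atTop 4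
  have e3 : ∀ᶠ x : ℕ in atTop, Real.exp 2 ≤ (x : ℝ) :=
    tendsto_natCast_atTop_atTop.eventually_ge_atTop _
  filter_upwards [hM, hA, e1, e2, e3] with x hMx hAx hx1 hx2 hx3
  have he2 : (3 : ℝ) ≤ Real.exp 2 := by
    have := Real.add_one_le_exp (2 : ℝ)
    linarith
  have hx3' : (3 : ℝ) ≤ x := he2.trans hx3
  have hl : 2 ≤ Real.log x := by
    rw [Real.le_log_iff_exp_le (by linarith)]
    exact hx3
  have hl0 : 0 < Real.log x := by linarith
  obtain ⟨y, hy⟩ : ∃ y : ℕ, y = ⌊(x : ℝ) ^ (1 / (ε₀ * Real.log (Real.log x)))⌋₊ := ⟨_, rfl⟩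
  have hM1 := hMx y hy
  have hA1 := hAx y (by
    rw [hy]
    refine (Nat.floor_le (by positivity)).trans ?_
    have h3 := LDF_lev ε₀ hε₀ x hx3
    push_cast
    exact h3)
  -- the two parts
  obtain ⟨S1, hS1⟩ : ∃ S1 : Finset ℕ, S1 = ((Icc 1 x).filter (fun p => p.Prime ∧
    (smp y (p + 2) : ℝ) ≤ Real.sqrt ((x + 2 : ℕ) : ℝ))).filter
      (fun p => K * Real.log (Real.log x) < ArithmeticFunction.cardFactors (p + 2)) := ⟨_, rfl⟩
  have hcov : ((Icc 1 x).filter (fun p => p.Prime ∧ K * Real.log (Real.log x) <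
      ArithmeticFunction.cardFactors (p + 2))).card ≤ S1.card +
      ((Icc 1 (x + 2)).filter (fun n => Real.sqrt ((x + 2 : ℕ) : ℝ) < smp y n)).card := by
    have h3 : (Icc 1 x).filter (fun p => p.Prime ∧ K * Real.log (Real.log x) <
        ArithmeticFunction.cardFactors (p + 2)) ⊆
        S1 ∪ (Icc 1 x).filter (fun p => Real.sqrt ((x + 2 : ℕ) : ℝ) < smp y (p + 2)) := by
      intro p hp
      rw [mem_filter] at hp
      rw [mem_union, hS1, mem_filter, mem_filter, mem_filter]
      rcases le_or_gt (smp y (p + 2) : ℝ) (Real.sqrt ((x + 2 : ℕ) : ℝ)) with h4 | h4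
      · exact Or.inl ⟨⟨hp.1, hp.2.1, h4⟩, hp.2.2⟩
      · exact Or.inr ⟨hp.1, h4⟩
    refine (card_le_card h3).trans ((card_union_le _ _).trans (Nat.add_le_add_left ?_ _))
    refine card_le_card_of_injOn (fun p => p + 2) ?_ ?_
    · intro p hp
      rw [mem_coe, mem_filter, mem_Icc] at hp
      rw [mem_coe, mem_filter, mem_Icc]
      exact ⟨⟨Nat.le_add_left 1 (p + 1), Nat.add_le_add_right hp.1.2 2⟩, hp.2⟩
    · intro p _ q _ hpq
      exact Nat.add_right_cancel hpq
  have hS1c : (S1.card : ℝ) ≤ x * Real.log x ^ (-3 - 3 * η / 4) := by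
    have h3 : (S1.card : ℝ) * Real.log x ^ (K * Real.log z) ≤
        x * Real.log x ^ (z - 2 + η / 4) := by
      refine le_trans ?_ hM1
      have h4 : ∑ p ∈ S1, z ^ ArithmeticFunction.cardFactors (p + 2) ≤
          ∑ p ∈ (Icc 1 x).filter (fun p => p.Prime ∧
            (smp y (p + 2) : ℝ) ≤ Real.sqrt ((x + 2 : ℕ) : ℝ)),
            z ^ ArithmeticFunction.cardFactors (p + 2) := by
        rw [hS1]
        exact sum_le_sum_of_subset_of_nonneg (filter_subset _ _) fun p _ _ => by positivity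
      refine le_trans ?_ h4
      rw [← nsmul_eq_mul]
      refine card_nsmul_le_sum _ _ _ fun p hp => ?_
      rw [hS1, mem_filter] at hp
      exact LDF_rk z K (Real.log x) hz1 hl0 _ hp.2
    have h5 : 0 < Real.log x ^ (K * Real.log z) := Real.rpow_pos_of_pos hl0 _
    have h6 : x * Real.log x ^ (z - 2 + η / 4) =
        (x * Real.log x ^ (-3 - 3 * η / 4)) * Real.log x ^ (K * Real.log z) := by
      rw [mul_assoc, ← Real.rpow_add hl0]
      congr 2
      have : K * Real.log z = η + z + 1 := by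
        rw [hη]
        ring
      rw [this]
      ring
    rw [h6] at h3
    exact le_of_mul_le_mul_right h3 h5
  have h7 : (((Icc 1 x).filter (fun p => p.Prime ∧ K * Real.log (Real.log x) <
      ArithmeticFunction.cardFactors (p + 2))).card : ℝ) ≤
      x * Real.log x ^ (-3 - 3 * η / 4) + 2 * x / Real.log x ^ (4 : ℕ) := by
    have h8 : (((Icc 1 x).filter (fun p => p.Prime ∧ K * Real.log (Real.log x) <
        ArithmeticFunction.cardFactors (p + 2))).card : ℝ) ≤ (S1.card : ℝ) +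
        (((Icc 1 (x + 2)).filter (fun n => Real.sqrt ((x + 2 : ℕ) : ℝ) < smp y n)).card : ℝ) := by
      exact_mod_cast hcov
    have h9 : (((x + 2 : ℕ) : ℝ)) / Real.log ((x + 2 : ℕ) : ℝ) ^ (4 : ℕ) ≤
        2 * x / Real.log x ^ (4 : ℕ) := by
      have h10 : Real.log x ≤ Real.log ((x + 2 : ℕ) : ℝ) := by
        refine Real.log_le_log (by linarith) ?_
        push_cast
        linarith
      refine div_le_div₀ (by positivity) ?_ (by positivity)
        (pow_le_pow_left₀ hl0.le h10 4)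
      push_cast
      linarith
    linarith
  refine h7.trans ?_
  have hp3 : 0 < Real.log x ^ (3 + δ) := Real.rpow_pos_of_pos hl0 _
  rw [le_div_iff₀ hp3, add_mul]
  have h8 : x * Real.log x ^ (-3 - 3 * η / 4) * Real.log x ^ (3 + δ) ≤ x * (1 / 2) := by
    rw [mul_assoc, ← Real.rpow_add hl0]
    refine mul_le_mul_of_nonneg_left ?_ (by positivity)
    have h9 : Real.log x ^ (-3 - 3 * η / 4 + (3 + δ)) ≤ Real.log x ^ (-(η / 4)) :=
      Real.rpow_le_rpow_of_exponent_le (by linarith) (by linarith)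
    refine h9.trans ?_
    rw [Real.rpow_neg hl0.le, ← one_div]
    exact one_div_le_one_div_of_le (by norm_num) hx1
  have h9 : 2 * x / Real.log x ^ (4 : ℕ) * Real.log x ^ (3 + δ) ≤ x * (1 / 2) := by
    have h10 : Real.log x ^ (3 + δ) * 4 ≤ Real.log x ^ (4 : ℕ) := by
      have h11 : Real.log x ^ (4 : ℕ) = Real.log x ^ (3 + δ) * Real.log x ^ (1 - δ) := by
        rw [← Real.rpow_natCast, ← Real.rpow_add hl0]
        congr 1
        push_cast
        ring
      rw [h11]
      refine mul_le_mul_of_nonneg_left (hx2.trans ?_) hp3.le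
      exact Real.rpow_le_rpow_of_exponent_le (by linarith) (by linarith)
    rw [div_mul_eq_mul_div, div_le_iff₀ (by positivity)]
    have hx0 : (0 : ℝ) ≤ x := Nat.cast_nonneg _
    nlinarith
  linarith

end Pool.Agent.TCH
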