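import Pool.Agent.TCH.Stmts

set_option autoImplicit false

/-!
# TCH, LDM: the moment of `z ^ Ω(p + 2)` over the primes with small smooth part
-/

namespace Pool.Agent.TCH

open Finset Filter Pool.Agent.MT Pool.Agent.CH

/-- the part without small prime factors -/
def LDM_rgh (y n : ℕ) : ℕ :=
  ∏ p ∈ n.primeFactors.filter (fun p => ¬ p ≤ y), p ^ n.factorization p

lemma LDM_mul (y n : ℕ) (hn : n ≠ 0) : smp y n * LDM_rgh y n = n := by
  unfold smp LDM_rgh
  rw [Finset.prod_filter_mul_prod_filter_not]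
  exact Nat.prod_factorization_pow_eq_self hn

lemma LDM_smp_le (y n q : ℕ) (hq : q.Prime) (h : q ∣ smp y n) : q ≤ y := by
  unfold smp at h
  obtain ⟨p, hp, hd⟩ := (Prime.dvd_finsetProd_iff hq.prime _).1 h
  rw [Finset.mem_filter] at hp
  have h1 := hq.dvd_of_dvd_pow hd
  have h2 := (Nat.prime_dvd_prime_iff_eq hq (Nat.prime_of_mem_primeFactors hp.1)).1 h1
  omega

lemma LDM_rgh_gt (y n q : ℕ) (hq : q.Prime) (h : q ∣ LDM_rgh y n) : y < q := by
  unfold LDM_rgh at h
  obtain ⟨p, hp, hd⟩ := (Prime.dvd_finsetProd_iff hq.prime _).1 h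
  rw [Finset.mem_filter] at hp
  have h1 := hq.dvd_of_dvd_pow hd
  have h2 := (Nat.prime_dvd_prime_iff_eq hq (Nat.prime_of_mem_primeFactors hp.1)).1 h1
  omega

lemma LDM_pow_le (y b : ℕ) (hb : b ≠ 0) (h : ∀ q : ℕ, q.Prime → q ∣ b → y ≤ q) :
    y ^ ArithmeticFunction.cardFactors b ≤ b := by
  rw [ArithmeticFunction.cardFactors_apply]
  have h1 := List.pow_card_le_prod (b.primeFactorsList) y
    (fun q hq => h q (Nat.prime_of_mem_primeFactorsList hq) (Nat.dvd_of_mem_primeFactorsList hq))
  rwa [Nat.prod_primeFactorsList hb] at h1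

lemma LDM_sq (z : ℝ) (h1 : 1 ≤ z) (h3 : z < 3) (n : ℕ) (hn : n ≠ 0) :
    z ^ ArithmeticFunction.cardFactors n ≤ (n : ℝ) ^ 2 := by
  have h2 : 2 ^ ArithmeticFunction.cardFactors n ≤ n :=
    LDM_pow_le 2 n hn (fun q hq _ => hq.two_le)
  have h2' : (2 : ℝ) ^ ArithmeticFunction.cardFactors n ≤ n := by exact_mod_cast h2
  calc z ^ ArithmeticFunction.cardFactors n ≤ (4 : ℝ) ^ ArithmeticFunction.cardFactors n :=
        pow_le_pow_left₀ (by linarith) (by linarith) _
    _ = ((2 : ℝ) ^ ArithmeticFunction.cardFactors n) ^ 2 := by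
        rw [← pow_mul, mul_comm, pow_mul]; norm_num
    _ ≤ (n : ℝ) ^ 2 := pow_le_pow_left₀ (by positivity) h2' 2

lemma LDM_core (C : ℝ) (c : ℕ)
    (hB : ∀ X a y : ℕ, 2 ≤ y → y ^ c ≤ X → 1 ≤ a →
      (((Icc 1 X).filter (fun b => (∀ p ∈ pr y, ¬ p ∣ b) ∧
        (∀ p ∈ pr y, ¬ p ∣ a * b - 2))).card : ℝ) ≤
      C * ((a : ℝ) / a.totient) ^ 2 * X / Real.log y ^ 2)
    (x y a : ℕ) (hy : 2 ≤ y) (ha : 1 ≤ a) (hX : y ^ c ≤ (x + 2) / a) :
    (((Icc 1 x).filter (fun p => p.Prime ∧ y < p ∧ smp y (p + 2) = a)).card : ℝ) ≤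
      C * ((a : ℝ) / a.totient) ^ 2 * (((x + 2) / a : ℕ) : ℝ) / Real.log y ^ 2 := by
  refine le_trans ?_ (hB ((x + 2) / a) a y hy hX ha)
  norm_cast
  apply Finset.card_le_card_of_injOn (fun p => LDM_rgh y (p + 2))
  · intro p hp
    have hp' := Finset.mem_filter.1 (Finset.mem_coe.1 hp)
    obtain ⟨hp1, hp2, hp3, hp4⟩ := hp'
    rw [Finset.mem_Icc] at hp1
    have hm := LDM_mul y (p + 2) (by omega)
    rw [hp4] at hm
    refine Finset.mem_coe.2 (Finset.mem_filter.2 ⟨Finset.mem_Icc.2 ⟨?_, ?_⟩, ?_, ?_⟩)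
    · rcases Nat.eq_zero_or_pos (LDM_rgh y (p + 2)) with h0 | h0
      · rw [h0] at hm
        omega
      · exact h0
    · show LDM_rgh y (p + 2) ≤ (x + 2) / a
      rw [Nat.le_div_iff_mul_le (by omega)]
      rw [mul_comm, hm]
      omega
    · intro q hq hd
      unfold pr at hq
      rw [Finset.mem_filter, Finset.mem_range] at hq
      have := LDM_rgh_gt y (p + 2) q hq.2 hd
      omega
    · intro q hq hd
      unfold pr at hq
      rw [Finset.mem_filter, Finset.mem_range] at hq
      have he : a * LDM_rgh y (p + 2) - 2 = p := by rw [hm]; omega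
      rw [he] at hd
      have h2 := (Nat.prime_dvd_prime_iff_eq hq.2 hp2).1 hd
      omega
  · intro p hp q hq he
    have hp' := Finset.mem_filter.1 (Finset.mem_coe.1 hp)
    have hq' := Finset.mem_filter.1 (Finset.mem_coe.1 hq)
    have he' : LDM_rgh y (p + 2) = LDM_rgh y (q + 2) := he
    have hm := LDM_mul y (p + 2) (by omega)
    have hm' := LDM_mul y (q + 2) (by omega)
    rw [hp'.2.2.2] at hm
    rw [hq'.2.2.2] at hm'
    rw [he'] at hm
    omega

/-- the deterministic part -/
lemma LDM_det (C : ℝ) (c : ℕ) (hC : 0 < C)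
    (hB : ∀ X a y : ℕ, 2 ≤ y → y ^ c ≤ X → 1 ≤ a →
      (((Icc 1 X).filter (fun b => (∀ p ∈ pr y, ¬ p ∣ b) ∧
        (∀ p ∈ pr y, ¬ p ∣ a * b - 2))).card : ℝ) ≤
      C * ((a : ℝ) / a.totient) ^ 2 * X / Real.log y ^ 2)
    (z : ℝ) (h1 : 1 ≤ z) (h3 : z < 3) (C' : ℝ)
    (hS : ∀ y M : ℕ, 2 ≤ y →
      ∑ a ∈ (Icc 1 M).filter (fun a => Odd a ∧ ∀ p ∈ a.primeFactors, p ≤ y),
        z ^ ArithmeticFunction.cardFactors a * ((a : ℝ) / a.totient) ^ 2 / a ≤
        C' * Real.log y ^ z)
    (x y : ℕ) (hy : 2 ≤ y) (hyc : (y ^ c) ^ 2 ≤ x + 2) (T : ℝ) (hT : 0 ≤ T)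
    (hTb : ∀ k : ℕ, (y : ℝ) ^ k ≤ (x : ℝ) + 2 → z ^ k ≤ T) :
    ∑ p ∈ (Icc 1 x).filter
      (fun p => p.Prime ∧ (smp y (p + 2) : ℝ) ≤ Real.sqrt ((x + 2 : ℕ) : ℝ)),
      z ^ ArithmeticFunction.cardFactors (p + 2) ≤
      ((y : ℝ) + 2) ^ 3 + T * (C * (x + 2) / Real.log y ^ 2 * (C' * Real.log y ^ z)) := by
  have hz0 : (0 : ℝ) ≤ z := by linarith
  set S := (Icc 1 x).filter
    (fun p => p.Prime ∧ (smp y (p + 2) : ℝ) ≤ Real.sqrt ((x + 2 : ℕ) : ℝ)) with hSdef
  rw [← Finset.sum_filter_add_sum_filter_not S (fun p => p ≤ y)]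
  refine add_le_add ?_ ?_
  · calc ∑ p ∈ S.filter (fun p => p ≤ y), z ^ ArithmeticFunction.cardFactors (p + 2)
        ≤ ∑ p ∈ S.filter (fun p => p ≤ y), ((y : ℝ) + 2) ^ 2 := by
          apply Finset.sum_le_sum
          intro p hp
          have hp' := (Finset.mem_filter.1 hp).2
          refine le_trans (LDM_sq z h1 h3 (p + 2) (by omega)) ?_
          have : ((p + 2 : ℕ) : ℝ) ≤ (y : ℝ) + 2 := by
            push_cast
            have : (p : ℝ) ≤ y := by exact_mod_cast hp'
            linarith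
          exact pow_le_pow_left₀ (by positivity) this 2
      _ = ((S.filter (fun p => p ≤ y)).card : ℝ) * ((y : ℝ) + 2) ^ 2 := by
          rw [Finset.sum_const, nsmul_eq_mul]
      _ ≤ (y : ℝ) * ((y : ℝ) + 2) ^ 2 := by
          apply mul_le_mul_of_nonneg_right _ (by positivity)
          have hsub : S.filter (fun p => p ≤ y) ⊆ Icc 1 y := by
            intro p hp
            have hp' := Finset.mem_filter.1 hp
            have hp'' := Finset.mem_Icc.1 (Finset.mem_filter.1 hp'.1).1
            exact Finset.mem_Icc.2 ⟨hp''.1, hp'.2⟩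
          have := Finset.card_le_card hsub
          rw [Nat.card_Icc] at this
          have h' : (S.filter (fun p => p ≤ y)).card ≤ y := by omega
          exact_mod_cast h'
      _ ≤ ((y : ℝ) + 2) ^ 3 := by
          have : (0 : ℝ) ≤ y := Nat.cast_nonneg y
          nlinarith [sq_nonneg ((y : ℝ) + 2)]
  · set S2 := S.filter (fun p => ¬ p ≤ y) with hS2
    set A := (Icc 1 (Nat.sqrt (x + 2))).filter
      (fun a => Odd a ∧ ∀ p ∈ a.primeFactors, p ≤ y) with hA
    have hmaps : ∀ p ∈ S2, smp y (p + 2) ∈ A := by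
      intro p hp
      obtain ⟨hpS, hpy⟩ := Finset.mem_filter.1 hp
      obtain ⟨hpI, hpp, hps⟩ := Finset.mem_filter.1 hpS
      have hm := LDM_mul y (p + 2) (by omega)
      have ha0 : smp y (p + 2) ≠ 0 := by
        intro h0
        rw [h0, zero_mul] at hm
        omega
      refine Finset.mem_filter.2 ⟨Finset.mem_Icc.2 ⟨Nat.one_le_iff_ne_zero.2 ha0, ?_⟩, ?_, ?_⟩
      · rw [Nat.le_sqrt']
        have h5 := Real.le_sqrt' (x := (smp y (p + 2) : ℝ)) (y := ((x + 2 : ℕ) : ℝ))
          (by exact_mod_cast Nat.pos_of_ne_zero ha0)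
        have h6 := h5.1 hps
        exact_mod_cast h6
      · have hodd : Odd (p + 2) := by
          have hpo : Odd p := hpp.odd_of_ne_two (by omega)
          exact hpo.add_even even_two
        exact Odd.of_dvd_nat hodd ⟨_, hm.symm⟩
      · intro q hq
        exact LDM_smp_le y (p + 2) q (Nat.prime_of_mem_primeFactors hq)
          (Nat.dvd_of_mem_primeFactors hq)
    have hstep1 : ∀ p ∈ S2, z ^ ArithmeticFunction.cardFactors (p + 2) ≤
        T * z ^ ArithmeticFunction.cardFactors (smp y (p + 2)) := by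
      intro p hp
      obtain ⟨hpS, hpy⟩ := Finset.mem_filter.1 hp
      obtain ⟨hpI, hpp, hps⟩ := Finset.mem_filter.1 hpS
      rw [Finset.mem_Icc] at hpI
      have hm := LDM_mul y (p + 2) (by omega)
      have ha0 : smp y (p + 2) ≠ 0 := by
        intro h0
        rw [h0, zero_mul] at hm
        omega
      have hb0 : LDM_rgh y (p + 2) ≠ 0 := by
        intro h0
        rw [h0, mul_zero] at hm
        omega
      have hΩ : ArithmeticFunction.cardFactors (p + 2) =
          ArithmeticFunction.cardFactors (smp y (p + 2)) +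
          ArithmeticFunction.cardFactors (LDM_rgh y (p + 2)) := by
        rw [← ArithmeticFunction.cardFactors_mul ha0 hb0, hm]
      rw [hΩ, pow_add, mul_comm]
      apply mul_le_mul_of_nonneg_right _ (by positivity)
      apply hTb
      have h7 : y ^ ArithmeticFunction.cardFactors (LDM_rgh y (p + 2)) ≤ LDM_rgh y (p + 2) :=
        LDM_pow_le y _ hb0 (fun q hq hd => (LDM_rgh_gt y (p + 2) q hq hd).le)
      have h8 : LDM_rgh y (p + 2) ≤ x + 2 := by
        have : LDM_rgh y (p + 2) ≤ p + 2 := Nat.le_of_dvd (by omega) ⟨_, by rw [mul_comm]; exact hm.symm⟩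
        omega
      have h9 : y ^ ArithmeticFunction.cardFactors (LDM_rgh y (p + 2)) ≤ x + 2 := le_trans h7 h8
      exact_mod_cast h9
    calc ∑ p ∈ S2, z ^ ArithmeticFunction.cardFactors (p + 2)
        ≤ ∑ p ∈ S2, T * z ^ ArithmeticFunction.cardFactors (smp y (p + 2)) :=
          Finset.sum_le_sum hstep1
      _ = T * ∑ p ∈ S2, z ^ ArithmeticFunction.cardFactors (smp y (p + 2)) := by
          rw [Finset.mul_sum]
      _ ≤ T * (C * (x + 2) / Real.log y ^ 2 * (C' * Real.log y ^ z)) := by
          apply mul_le_mul_of_nonneg_left _ hT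
          rw [← Finset.sum_fiberwise_of_maps_to hmaps]
          calc ∑ a ∈ A, ∑ p ∈ S2.filter (fun p => smp y (p + 2) = a),
                z ^ ArithmeticFunction.cardFactors (smp y (p + 2))
              ≤ ∑ a ∈ A, C * (x + 2) / Real.log y ^ 2 *
                (z ^ ArithmeticFunction.cardFactors a * ((a : ℝ) / a.totient) ^ 2 / a) := by
                apply Finset.sum_le_sum
                intro a ha
                obtain ⟨haI, hao, has⟩ := Finset.mem_filter.1 ha
                rw [Finset.mem_Icc] at haI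
                have ha1 : (1 : ℝ) ≤ a := by exact_mod_cast haI.1
                have hXa : y ^ c ≤ (x + 2) / a := by
                  rw [Nat.le_div_iff_mul_le (by omega)]
                  have h10 : y ^ c ≤ Nat.sqrt (x + 2) := Nat.le_sqrt'.2 hyc
                  calc y ^ c * a ≤ Nat.sqrt (x + 2) * Nat.sqrt (x + 2) :=
                        Nat.mul_le_mul h10 haI.2
                    _ ≤ x + 2 := Nat.sqrt_le (x + 2)
                have hcore := LDM_core C c hB x y a hy haI.1 hXa
                have hinner : ∑ p ∈ S2.filter (fun p => smp y (p + 2) = a),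
                    z ^ ArithmeticFunction.cardFactors (smp y (p + 2)) =
                    ((S2.filter (fun p => smp y (p + 2) = a)).card : ℝ) *
                      z ^ ArithmeticFunction.cardFactors a := by
                  rw [← nsmul_eq_mul, ← Finset.sum_const]
                  apply Finset.sum_congr rfl
                  intro p hp
                  rw [(Finset.mem_filter.1 hp).2]
                rw [hinner]
                have hsub : S2.filter (fun p => smp y (p + 2) = a) ⊆
                    (Icc 1 x).filter (fun p => p.Prime ∧ y < p ∧ smp y (p + 2) = a) := by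
                  intro p hp
                  obtain ⟨hp2, hpa⟩ := Finset.mem_filter.1 hp
                  obtain ⟨hpS, hpy⟩ := Finset.mem_filter.1 hp2
                  obtain ⟨hpI, hpp, hps⟩ := Finset.mem_filter.1 hpS
                  exact Finset.mem_filter.2 ⟨hpI, hpp, by omega, hpa⟩
                have hcard : ((S2.filter (fun p => smp y (p + 2) = a)).card : ℝ) ≤
                    C * ((a : ℝ) / a.totient) ^ 2 * (((x + 2) / a : ℕ) : ℝ) / Real.log y ^ 2 := by
                  refine le_trans ?_ hcore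
                  exact_mod_cast Finset.card_le_card hsub
                have hdiv : (((x + 2) / a : ℕ) : ℝ) ≤ ((x : ℝ) + 2) / a := by
                  have := Nat.cast_div_le (α := ℝ) (m := x + 2) (n := a)
                  push_cast at this ⊢
                  exact this
                have hzpos : 0 ≤ z ^ ArithmeticFunction.cardFactors a := by positivity
                calc ((S2.filter (fun p => smp y (p + 2) = a)).card : ℝ) *
                      z ^ ArithmeticFunction.cardFactors a
                    ≤ (C * ((a : ℝ) / a.totient) ^ 2 * (((x : ℝ) + 2) / a) / Real.log y ^ 2) *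
                      z ^ ArithmeticFunction.cardFactors a := by
                      apply mul_le_mul_of_nonneg_right _ hzpos
                      refine le_trans hcard ?_
                      apply div_le_div_of_nonneg_right _ (by positivity)
                      apply mul_le_mul_of_nonneg_left hdiv (by positivity)
                  _ = C * (x + 2) / Real.log y ^ 2 *
                      (z ^ ArithmeticFunction.cardFactors a * ((a : ℝ) / a.totient) ^ 2 / a) := by
                      ring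
            _ = C * (x + 2) / Real.log y ^ 2 * ∑ a ∈ A,
                z ^ ArithmeticFunction.cardFactors a * ((a : ℝ) / a.totient) ^ 2 / a := by
                rw [Finset.mul_sum]
            _ ≤ C * (x + 2) / Real.log y ^ 2 * (C' * Real.log y ^ z) := by
                apply mul_le_mul_of_nonneg_left (hS y (Nat.sqrt (x + 2)) hy) (by positivity)

theorem thm_LDM (h1 : St_LDB) (h2 : St_LDS) : St_LDM := by
  intro z hz1 hz3 ε hε
  obtain ⟨C, c, hC, hB⟩ := h1
  obtain ⟨C', hC', hS⟩ := h2 z hz1 hz3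
  refine ⟨ε / 32, by positivity, ?_⟩
  set e : ℝ := ε / 32 with he
  have he0 : 0 < e := by positivity
  have hx : Tendsto (fun x : ℕ => (x : ℝ)) atTop atTop := tendsto_natCast_atTop_atTop
  have hL : Tendsto (fun x : ℕ => Real.log x) atTop atTop := Real.tendsto_log_atTop.comp hx
  have hLL : Tendsto (fun x : ℕ => Real.log (Real.log x)) atTop atTop :=
    Real.tendsto_log_atTop.comp hL
  have F1 : ∀ᶠ u : ℝ in atTop, (2 * e) * Real.log u ≤ u ^ (ε / 4) := by
    have := (isLittleO_log_rpow_atTop (show 0 < ε / 4 by positivity)).def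
      (show (0 : ℝ) < 1 / (2 * e) by positivity)
    filter_upwards [this, eventually_ge_atTop 1] with u hu hu1
    have hlog : 0 ≤ Real.log u := Real.log_nonneg hu1
    rw [Real.norm_of_nonneg hlog, Real.norm_of_nonneg (by positivity)] at hu
    rw [one_div, inv_mul_eq_div, le_div_iff₀ (by positivity)] at hu
    linarith
  have F2 : ∀ᶠ u : ℝ in atTop, (2 * e) * Real.log u ≤ u := by
    have := (isLittleO_log_rpow_atTop (show (0 : ℝ) < 1 by norm_num)).def
      (show (0 : ℝ) < 1 / (2 * e) by positivity)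
    filter_upwards [this, eventually_ge_atTop 1] with u hu hu1
    have hlog : 0 ≤ Real.log u := Real.log_nonneg hu1
    rw [Real.norm_of_nonneg hlog, Real.norm_of_nonneg (by positivity), Real.rpow_one] at hu
    rw [one_div, inv_mul_eq_div, le_div_iff₀ (by positivity)] at hu
    linarith
  have F3 : ∀ᶠ u : ℝ in atTop, 16 * Real.log u ≤ Real.sqrt u := by
    have := (isLittleO_log_rpow_atTop (show (0 : ℝ) < 1 / 2 by norm_num)).def
      (show (0 : ℝ) < 1 / 16 by positivity)
    filter_upwards [this, eventually_ge_atTop 1] with u hu hu1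
    have hlog : 0 ≤ Real.log u := Real.log_nonneg hu1
    rw [Real.norm_of_nonneg hlog, Real.norm_of_nonneg (by positivity), ← Real.sqrt_eq_rpow] at hu
    linarith
  have F4 : ∀ᶠ u : ℝ in atTop, 4 * (C * C') ≤ u ^ (ε / 2) :=
    (tendsto_rpow_atTop (show 0 < ε / 2 by positivity)).eventually_ge_atTop _
  filter_upwards [hL.eventually F1, hL.eventually F2, hx.eventually F3, hL.eventually F4,
    hL.eventually_ge_atTop 1, hLL.eventually_ge_atTop 1, hLL.eventually_ge_atTop (6 / e),
    hLL.eventually_ge_atTop (2 * c / e), hx.eventually_ge_atTop 3]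
    with x f1 f2 f3 f4 g1 g2 g3 g4 g5
  intro y hy
  set L := Real.log (x : ℝ) with hLdef
  set LL := Real.log L with hLLdef
  have hx0 : (0 : ℝ) < x := by linarith
  have hL0 : 0 < L := by linarith
  have hLL0 : 0 < LL := by linarith
  have heLL : 0 < e * LL := by positivity
  have g3' : 6 ≤ e * LL := by
    rw [div_le_iff₀ he0] at g3
    linarith
  have g4' : 2 * (c : ℝ) ≤ e * LL := by
    rw [div_le_iff₀ he0] at g4
    linarith
  set f := (x : ℝ) ^ (1 / (e * LL)) with hf
  have hf0 : 0 < f := by positivity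
  have hlogf : Real.log f = L / (e * LL) := by
    rw [hf, Real.log_rpow hx0, one_div, inv_mul_eq_div]
  have hlogf2 : 2 ≤ Real.log f := by
    rw [hlogf, le_div_iff₀ heLL]
    linarith
  have hf4 : 4 ≤ f := by
    have h5 : Real.exp 2 ≤ f := by
      rw [← Real.exp_log hf0]
      exact Real.exp_le_exp.2 hlogf2
    have h6 : (4 : ℝ) ≤ Real.exp 2 := by
      have h7 := Real.exp_one_gt_d9
      have h8 : Real.exp 2 = Real.exp 1 * Real.exp 1 := by
        rw [← Real.exp_add]; norm_num
      rw [h8]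
      nlinarith
    linarith
  have hyf : (y : ℝ) ≤ f := by
    rw [hy]
    exact Nat.floor_le hf0.le
  have hfy : f / 2 ≤ y := by
    have := Nat.lt_floor_add_one f
    rw [← hy] at this
    linarith
  have hy2r : (2 : ℝ) ≤ y := by linarith
  have hy2 : 2 ≤ y := by exact_mod_cast hy2r
  have hy0 : (0 : ℝ) < y := by linarith
  have hlogy : L / (2 * (e * LL)) ≤ Real.log y := by
    have h5 : Real.log (f / 2) ≤ Real.log y := Real.log_le_log (by positivity) hfy
    rw [Real.log_div hf0.ne' (by norm_num)] at h5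
    have h6 : Real.log 2 ≤ 1 := by
      have := Real.log_two_lt_d9
      linarith
    have h7 : L / (2 * (e * LL)) = Real.log f / 2 := by
      rw [hlogf]; field_simp
    rw [h7]
    linarith
  have hlogy0 : 0 < Real.log y := lt_of_lt_of_le (by positivity) hlogy
  have hpow : ∀ k : ℕ, (k : ℝ) ≤ e * LL → (y : ℝ) ^ k ≤ x := by
    intro k hk
    calc (y : ℝ) ^ k ≤ f ^ k := pow_le_pow_left₀ hy0.le hyf k
      _ = Real.exp (k * Real.log f) := by
          rw [mul_comm, Real.exp_mul, Real.exp_log hf0, Real.rpow_natCast]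
      _ ≤ Real.exp L := by
          apply Real.exp_le_exp.2
          rw [hlogf, mul_div_assoc', div_le_iff₀ heLL]
          nlinarith
      _ = x := Real.exp_log hx0
  have hy6 : (y : ℝ) ^ 6 ≤ x := hpow 6 (by norm_num; exact g3')
  have hy1 : (y : ℝ) ^ 1 ≤ x := hpow 1 (by norm_num; linarith)
  have hlogyL : Real.log y ≤ L := Real.log_le_log hy0 (by linarith)
  have hyc : (y ^ c) ^ 2 ≤ x + 2 := by
    have h5 := hpow (c * 2) (by push_cast; linarith)
    rw [← pow_mul]
    have h6 : y ^ (c * 2) ≤ x := by exact_mod_cast h5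
    omega
  have hTb : ∀ k : ℕ, (y : ℝ) ^ k ≤ (x : ℝ) + 2 → z ^ k ≤ L ^ (ε / 4) := by
    intro k hk
    have h5 : (k : ℝ) * Real.log y ≤ 2 * L := by
      have h6 : Real.log ((y : ℝ) ^ k) ≤ Real.log ((x : ℝ) ^ 2) := by
        apply Real.log_le_log (by positivity)
        nlinarith
      rw [Real.log_pow, Real.log_pow] at h6
      push_cast at h6
      exact h6
    have h7 : (k : ℝ) ≤ 4 * (e * LL) := by
      have h8 : (k : ℝ) * (L / (2 * (e * LL))) ≤ 2 * L :=
        le_trans (mul_le_mul_of_nonneg_left hlogy (Nat.cast_nonneg k)) h5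
      rw [mul_div_assoc', div_le_iff₀ (by positivity)] at h8
      have h9 : (k : ℝ) * L ≤ (4 * (e * LL)) * L := by linarith
      exact le_of_mul_le_mul_right h9 hL0
    have hz0 : 0 < z := by linarith
    have hlz : Real.log z ≤ 2 := by
      have := Real.log_le_sub_one_of_pos hz0
      linarith
    have hlz0 : 0 ≤ Real.log z := Real.log_nonneg hz1
    calc z ^ k = Real.exp (k * Real.log z) := by
          rw [mul_comm, Real.exp_mul, Real.exp_log hz0, Real.rpow_natCast]
      _ ≤ Real.exp (LL * (ε / 4)) := by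
          apply Real.exp_le_exp.2
          calc (k : ℝ) * Real.log z ≤ (4 * (e * LL)) * 2 :=
                mul_le_mul h7 hlz hlz0 (by positivity)
            _ = LL * (ε / 4) := by rw [he]; ring
      _ = L ^ (ε / 4) := by rw [Real.rpow_def_of_pos hL0]
  refine le_trans (LDM_det C c hC hB z hz1 hz3 C' hS x y hy2 hyc (L ^ (ε / 4)) (by positivity)
    hTb) ?_
  have hhalf1 : ((y : ℝ) + 2) ^ 3 ≤ 1 / 2 * (x * L ^ (z - 2 + ε)) := by
    have h5 : ((y : ℝ) + 2) ^ 3 ≤ (2 * (y : ℝ)) ^ 3 :=
      pow_le_pow_left₀ (by positivity) (by linarith) 3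
    have h6 : (y : ℝ) ^ 3 ≤ Real.sqrt x := by
      apply Real.le_sqrt_of_sq_le
      rw [← pow_mul]
      exact hy6
    have h7 : L ^ (-1 : ℝ) ≤ L ^ (z - 2 + ε) :=
      Real.rpow_le_rpow_of_exponent_le g1 (by linarith)
    rw [Real.rpow_neg_one] at h7
    have h8 : Real.sqrt x * Real.sqrt x = x := Real.mul_self_sqrt hx0.le
    have hs0 : 0 ≤ Real.sqrt (x : ℝ) := Real.sqrt_nonneg _
    have h9 : 8 * Real.sqrt x ≤ 1 / 2 * (x * L⁻¹) := by
      have h10 : 16 * Real.sqrt x * L ≤ x := by
        calc 16 * Real.sqrt x * L = Real.sqrt x * (16 * L) := by ring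
          _ ≤ Real.sqrt x * Real.sqrt x := mul_le_mul_of_nonneg_left f3 hs0
          _ = x := h8
      have h11 : 16 * Real.sqrt x ≤ x * L⁻¹ := by
        rw [← div_eq_mul_inv, le_div_iff₀ hL0]
        exact h10
      linarith
    have h12 : x * L⁻¹ ≤ x * L ^ (z - 2 + ε) := mul_le_mul_of_nonneg_left h7 hx0.le
    calc ((y : ℝ) + 2) ^ 3 ≤ (2 * (y : ℝ)) ^ 3 := h5
      _ = 8 * (y : ℝ) ^ 3 := by ring
      _ ≤ 8 * Real.sqrt x := by linarith
      _ ≤ 1 / 2 * (x * L ^ (z - 2 + ε)) := by linarith
  have hlz : Real.log y ^ (z - 2) ≤ L ^ (z - 2 + ε / 4) := by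
    rcases le_or_gt 2 z with h5 | h5
    · calc Real.log y ^ (z - 2) ≤ L ^ (z - 2) :=
            Real.rpow_le_rpow hlogy0.le hlogyL (by linarith)
        _ ≤ L ^ (z - 2 + ε / 4) := Real.rpow_le_rpow_of_exponent_le g1 (by linarith)
    · have h6 : L ^ (1 - ε / 4) ≤ Real.log y := by
        refine le_trans ?_ hlogy
        rw [le_div_iff₀ (by positivity), Real.rpow_sub hL0, Real.rpow_one]
        rw [div_mul_eq_mul_div, div_le_iff₀ (by positivity)]
        apply mul_le_mul_of_nonneg_left _ hL0.le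
        linarith
      calc Real.log y ^ (z - 2) ≤ (L ^ (1 - ε / 4)) ^ (z - 2) :=
            Real.rpow_le_rpow_of_nonpos (by positivity) h6 (by linarith)
        _ = L ^ ((1 - ε / 4) * (z - 2)) := by rw [← Real.rpow_mul hL0.le]
        _ ≤ L ^ (z - 2 + ε / 4) := by
            apply Real.rpow_le_rpow_of_exponent_le g1
            nlinarith
  have hhalf2 : L ^ (ε / 4) * (C * (x + 2) / Real.log y ^ 2 * (C' * Real.log y ^ z)) ≤
      1 / 2 * (x * L ^ (z - 2 + ε)) := by
    have h5 : Real.log y ^ z / Real.log y ^ 2 = Real.log y ^ (z - 2) := by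
      rw [Real.rpow_sub hlogy0, Real.rpow_two]
    calc L ^ (ε / 4) * (C * (x + 2) / Real.log y ^ 2 * (C' * Real.log y ^ z))
        = (L ^ (ε / 4) * (C * C') * (x + 2)) * (Real.log y ^ z / Real.log y ^ 2) := by ring
      _ = (L ^ (ε / 4) * (C * C') * (x + 2)) * Real.log y ^ (z - 2) := by rw [h5]
      _ ≤ (L ^ (ε / 4) * (C * C') * (2 * x)) * L ^ (z - 2 + ε / 4) := by
          apply mul_le_mul _ hlz (by positivity) (by positivity)
          apply mul_le_mul_of_nonneg_left _ (by positivity)
          linarith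
      _ = 1 / 2 * (x * ((4 * (C * C')) * (L ^ (ε / 4) * L ^ (z - 2 + ε / 4)))) := by ring
      _ ≤ 1 / 2 * (x * (L ^ (ε / 2) * (L ^ (ε / 4) * L ^ (z - 2 + ε / 4)))) := by
          apply mul_le_mul_of_nonneg_left _ (by norm_num)
          apply mul_le_mul_of_nonneg_left _ hx0.le
          apply mul_le_mul_of_nonneg_right f4 (by positivity)
      _ = 1 / 2 * (x * L ^ (z - 2 + ε)) := by
          rw [← Real.rpow_add hL0, ← Real.rpow_add hL0]
          ring_nf
  linarith

end Pool.Agent.TCH
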