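import Pool.Agent.TCH.Stmts
import Pool.Agent.GBQ.RhoLow

set_option autoImplicit false

/-!
# TCH, module LDS: sums over odd smooth numbers (helper65)
-/

namespace Pool.Agent.TCH

open Finset Filter Pool.Agent.MT Pool.Agent.CH

/-- the summand, supported on the odd numbers -/
noncomputable def LDS_f (z : ℝ) (a : ℕ) : ℝ :=
  if Odd a then z ^ ArithmeticFunction.cardFactors a * ((a : ℝ) / a.totient) ^ 2 / a else 0

theorem LDS_nonneg (z : ℝ) (hz : 0 ≤ z) (a : ℕ) : 0 ≤ LDS_f z a := by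
  unfold LDS_f
  split_ifs
  · positivity
  · exact le_rfl

theorem LDS_one (z : ℝ) : LDS_f z 1 = 1 := by
  unfold LDS_f
  rw [if_pos odd_one, ArithmeticFunction.cardFactors_one, Nat.totient_one]
  norm_num

theorem LDS_mul (z : ℝ) {m n : ℕ} (h : Nat.Coprime m n) :
    LDS_f z (m * n) = LDS_f z m * LDS_f z n := by
  unfold LDS_f
  by_cases hm : Odd m
  · by_cases hn : Odd n
    · have hm0 : m ≠ 0 := by
        rintro rfl
        exact absurd hm (by decide)
      have hn0 : n ≠ 0 := by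
        rintro rfl
        exact absurd hn (by decide)
      rw [if_pos hm, if_pos hn, if_pos (hm.mul hn), ArithmeticFunction.cardFactors_mul hm0 hn0,
        Nat.totient_mul h, pow_add]
      push_cast
      have h1 : (m : ℝ) ≠ 0 := by exact_mod_cast hm0
      have h2 : (n : ℝ) ≠ 0 := by exact_mod_cast hn0
      have h3 : (m.totient : ℝ) ≠ 0 := by
        have := Nat.totient_pos.mpr (Nat.pos_of_ne_zero hm0)
        exact_mod_cast this.ne'
      have h4 : (n.totient : ℝ) ≠ 0 := by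
        have := Nat.totient_pos.mpr (Nat.pos_of_ne_zero hn0)
        exact_mod_cast this.ne'
      field_simp
    · rw [if_neg (fun h => hn (Nat.odd_mul.mp h).2), if_neg hn, mul_zero]
  · rw [if_neg (fun h => hm (Nat.odd_mul.mp h).1), if_neg hm, zero_mul]

theorem LDS_pow (z : ℝ) (p : ℕ) (hp : p.Prime) (hp2 : 2 < p) (n : ℕ) :
    LDS_f z (p ^ (n + 1)) = ((p : ℝ) / (p - 1)) ^ 2 * (z / p) * (z / p) ^ n := by
  have hodd : Odd p := hp.odd_of_ne_two (by omega)
  unfold LDS_f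
  rw [if_pos hodd.pow, ArithmeticFunction.cardFactors_apply_prime_pow hp,
    Nat.totient_prime_pow_succ hp]
  have h1 : ((p ^ n * (p - 1) : ℕ) : ℝ) = (p : ℝ) ^ n * ((p : ℝ) - 1) := by
    rw [Nat.cast_mul, Nat.cast_pow, Nat.cast_sub (by omega), Nat.cast_one]
  rw [h1, Nat.cast_pow]
  have h2 : (p : ℝ) ≠ 0 := by
    have := hp.pos
    exact_mod_cast this.ne'
  have h3 : (p : ℝ) - 1 ≠ 0 := by
    have : (2 : ℝ) < p := by exact_mod_cast hp2
    linarith
  rw [pow_succ, pow_succ, div_pow z]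
  field_simp
  ring

theorem LDS_pow2 (z : ℝ) (n : ℕ) : LDS_f z (2 ^ (n + 1)) = 0 := by
  unfold LDS_f
  rw [if_neg]
  rw [Nat.not_odd_iff_even]
  exact Even.pow_of_ne_zero even_two (Nat.succ_ne_zero n)

theorem LDS_hasSum (z : ℝ) (hz : 1 ≤ z) (hz3 : z < 3) (p : ℕ) (hp : p.Prime) (hp2 : 2 < p) :
    HasSum (fun n => LDS_f z (p ^ n))
      (1 + ((p : ℝ) / (p - 1)) ^ 2 * (z / p) * (1 - z / p)⁻¹) := by
  have hp3 : (3 : ℝ) ≤ p := by exact_mod_cast hp2
  have h1 : z / p < 1 := by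
    rw [div_lt_one (by linarith)]
    linarith
  have h0 : 0 ≤ z / p := by positivity
  have h2 := (hasSum_geometric_of_lt_one h0 h1).mul_left (((p : ℝ) / (p - 1)) ^ 2 * (z / p))
  have h3 : HasSum (fun n => LDS_f z (p ^ (n + 1)))
      (((p : ℝ) / (p - 1)) ^ 2 * (z / p) * (1 - z / p)⁻¹) := by
    have h4 : (fun n => LDS_f z (p ^ (n + 1))) =
        fun n => ((p : ℝ) / (p - 1)) ^ 2 * (z / p) * (z / p) ^ n := by
      funext n
      exact LDS_pow z p hp hp2 n
    rw [h4]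
    exact h2
  have h5 : HasSum (fun n => LDS_f z (p ^ (n + 1)))
      (1 + ((p : ℝ) / (p - 1)) ^ 2 * (z / p) * (1 - z / p)⁻¹ -
        ∑ i ∈ range 1, LDS_f z (p ^ i)) := by
    rw [sum_range_one, pow_zero, LDS_one, add_sub_cancel_left]
    exact h3
  exact (hasSum_nat_add_iff' (f := fun n => LDS_f z (p ^ n)) 1).mp h5

theorem LDS_summable (z : ℝ) (hz : 1 ≤ z) (hz3 : z < 3) {p : ℕ} (hp : p.Prime) :
    Summable (fun n : ℕ => ‖LDS_f z (p ^ n)‖) := by
  have h1 : (fun n : ℕ => ‖LDS_f z (p ^ n)‖) = fun n => LDS_f z (p ^ n) := by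
    funext n
    exact Real.norm_of_nonneg (LDS_nonneg z (by linarith) _)
  rw [h1]
  rcases hp.eq_two_or_odd with h2 | h2
  · subst h2
    rw [← summable_nat_add_iff 1]
    have h3 : (fun n => LDS_f z (2 ^ (n + 1))) = fun _ => 0 := funext fun n => LDS_pow2 z n
    rw [h3]
    exact summable_zero
  · have hp2 := hp.two_le
    exact (LDS_hasSum z hz hz3 p hp (by omega)).summable

/-- the local factor -/
theorem LDS_fac (z : ℝ) (hz : 1 ≤ z) (hz3 : z < 3) (p : ℕ) (hp : p.Prime) (hp2 : 2 < p) :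
    ∑' n, LDS_f z (p ^ n) ≤ Real.exp (z * (1 / p) +
      z * (9 / 2 + z) / (1 - z / 3) * (1 / ((p : ℝ) * (p - 1)))) := by
  rw [(LDS_hasSum z hz hz3 p hp hp2).tsum_eq]
  have hp3 : (3 : ℝ) ≤ p := by exact_mod_cast hp2
  obtain ⟨q, hq⟩ : ∃ q : ℝ, q = 1 / p := ⟨_, rfl⟩
  have hq0 : 0 < q := by
    rw [hq]
    positivity
  have hq3 : q ≤ 1 / 3 := by
    rw [hq]
    exact one_div_le_one_div_of_le (by norm_num) hp3
  have e1 : (p : ℝ) / (p - 1) = 1 / (1 - q) := by
    have h1 : (p : ℝ) - 1 ≠ 0 := by linarith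
    have h2 : (p : ℝ) ≠ 0 := by linarith
    rw [hq]
    field_simp
  have e2 : z / p = z * q := by
    rw [hq]
    ring
  rw [e1, e2, ← hq]
  have hz1 : 0 < 1 - z / 3 := by linarith
  have hzq : 0 < 1 - z * q := by nlinarith
  have hzq2 : 1 - z / 3 ≤ 1 - z * q := by nlinarith
  have h1 : (1 / (1 - q)) ^ 2 ≤ 1 + 9 / 2 * q := by
    rw [div_pow, one_pow, div_le_iff₀ (by nlinarith)]
    nlinarith [mul_nonneg hq0.le (sq_nonneg q), mul_nonneg hq0.le (by linarith : 0 ≤ 1 / 3 - q)]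
  have h2 : (1 / (1 - q)) ^ 2 * (1 - z * q)⁻¹ ≤ 1 + (9 / 2 + z) / (1 - z / 3) * q := by
    rw [← div_eq_mul_inv, div_le_iff₀ hzq]
    have h3 : (9 / 2 + z) * q ≤ (9 / 2 + z) / (1 - z / 3) * q * (1 - z * q) := by
      have h4 : (9 / 2 + z) / (1 - z / 3) * q * (1 - z / 3) = (9 / 2 + z) * q := by
        rw [div_mul_eq_mul_div, div_mul_cancel₀ _ hz1.ne']
      rw [← h4]
      exact mul_le_mul_of_nonneg_left hzq2 (by positivity)
    nlinarith
  have h3 : (1 / (1 - q)) ^ 2 * (z * q) * (1 - z * q)⁻¹ ≤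
      z * q + z * (9 / 2 + z) / (1 - z / 3) * q ^ 2 := by
    calc (1 / (1 - q)) ^ 2 * (z * q) * (1 - z * q)⁻¹
        = (z * q) * ((1 / (1 - q)) ^ 2 * (1 - z * q)⁻¹) := by ring
      _ ≤ (z * q) * (1 + (9 / 2 + z) / (1 - z / 3) * q) :=
          mul_le_mul_of_nonneg_left h2 (by positivity)
      _ = _ := by ring
  have h4 : q ^ 2 ≤ 1 / ((p : ℝ) * (p - 1)) := by
    rw [hq, div_pow, one_pow, sq]
    refine one_div_le_one_div_of_le ?_ ?_
    · have : (0 : ℝ) < p - 1 := by linarith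
      positivity
    · nlinarith
  have h5 : z * (9 / 2 + z) / (1 - z / 3) * q ^ 2 ≤
      z * (9 / 2 + z) / (1 - z / 3) * (1 / ((p : ℝ) * (p - 1))) :=
    mul_le_mul_of_nonneg_left h4 (by positivity)
  have h6 := Real.add_one_le_exp (z * q + z * (9 / 2 + z) / (1 - z / 3) *
    (1 / ((p : ℝ) * (p - 1))))
  linarith

theorem thm_LDS : St_LDS := by
  intro z hz hz3
  have hz1 : 0 < 1 - z / 3 := by linarith
  obtain ⟨C1, hC1⟩ : ∃ C1 : ℝ, C1 = z * (9 / 2 + z) / (1 - z / 3) := ⟨_, rfl⟩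
  have hC10 : 0 ≤ C1 := by
    rw [hC1]
    positivity
  have hlog2 : 0 < Real.log 2 := Real.log_pos (by norm_num)
  refine ⟨Real.exp (z * 7 + C1 * (1 / 2)) + (Real.log 2 ^ z)⁻¹, by positivity, ?_⟩
  intro y M hy
  have hlogy : 0 < Real.log y := Real.log_pos (by exact_mod_cast hy)
  -- the sum is bounded by the Euler product
  have h1 := (EulerProduct.summable_and_hasSum_factoredNumbers_prod_filter_prime_tsum
    (f := LDS_f z) (LDS_one z) (fun h => LDS_mul z h) (fun hp => LDS_summable z hz hz3 hp)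
    (Ioc 2 y)).2
  have h2 : HasSum ((Nat.factoredNumbers (Ioc 2 y)).indicator (LDS_f z))
      (∏ p ∈ Ioc 2 y with p.Prime, ∑' n : ℕ, LDS_f z (p ^ n)) :=
    hasSum_subtype_iff_indicator.mp h1
  have h3 := sum_le_hasSum ((Icc 1 M).filter (fun a => Odd a ∧ ∀ p ∈ a.primeFactors, p ≤ y))
    (fun a _ => Set.indicator_nonneg (fun a _ => LDS_nonneg z (by linarith) a) a) h2
  have h4 : ∑ a ∈ (Icc 1 M).filter (fun a => Odd a ∧ ∀ p ∈ a.primeFactors, p ≤ y),
      z ^ ArithmeticFunction.cardFactors a * ((a : ℝ) / a.totient) ^ 2 / a =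
      ∑ a ∈ (Icc 1 M).filter (fun a => Odd a ∧ ∀ p ∈ a.primeFactors, p ≤ y),
        (Nat.factoredNumbers (Ioc 2 y)).indicator (LDS_f z) a := by
    refine sum_congr rfl fun a ha => ?_
    rw [mem_filter, mem_Icc] at ha
    obtain ⟨⟨ha1, -⟩, ha2, ha3⟩ := ha
    rw [Set.indicator_of_mem]
    · unfold LDS_f
      rw [if_pos ha2]
    · rw [Nat.mem_factoredNumbers']
      intro p hp hpa
      rw [mem_Ioc]
      refine ⟨?_, ha3 p (Nat.mem_primeFactors.mpr ⟨hp, hpa, by omega⟩)⟩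
      have h5 := hp.two_le
      rcases Nat.lt_or_ge 2 p with h6 | h6
      · exact h6
      · exfalso
        have h7 : p = 2 := by omega
        rw [h7] at hpa
        rw [← Nat.not_even_iff_odd] at ha2
        exact ha2 (even_iff_two_dvd.mpr hpa)
  rw [h4]
  refine h3.trans ?_
  have hyz : 0 < Real.log y ^ z := Real.rpow_pos_of_pos hlogy z
  rcases Nat.lt_or_ge y 3 with hy3 | hy3
  · have hy2 : y = 2 := by omega
    subst hy2
    rw [Finset.Ioc_self, Finset.filter_empty, Finset.prod_empty, add_mul]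
    have h5 : (Real.log 2 ^ z)⁻¹ * Real.log ((2 : ℕ) : ℝ) ^ z = 1 := by
      rw [Nat.cast_ofNat]
      exact inv_mul_cancel₀ (Real.rpow_pos_of_pos hlog2 z).ne'
    rw [h5]
    have h6 : 0 ≤ Real.exp (z * 7 + C1 * (1 / 2)) * Real.log ((2 : ℕ) : ℝ) ^ z := by positivity
    linarith
  · have h5 : (∏ p ∈ Ioc 2 y with p.Prime, ∑' n : ℕ, LDS_f z (p ^ n)) ≤
        ∏ p ∈ Ioc 2 y with p.Prime, Real.exp (z * (1 / p) +
          C1 * (1 / ((p : ℝ) * (p - 1)))) := by
      refine prod_le_prod (fun p _ => tsum_nonneg fun n => LDS_nonneg z (by linarith) _)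
        fun p hp => ?_
      rw [mem_filter, mem_Ioc] at hp
      rw [hC1]
      exact LDS_fac z hz hz3 p hp.2 hp.1.1
    refine h5.trans ?_
    rw [← Real.exp_sum, sum_add_distrib, ← mul_sum, ← mul_sum]
    have h6 : ∑ p ∈ Ioc 2 y with p.Prime, 1 / (p : ℝ) ≤ Real.log (Real.log y) + 7 := by
      rw [sum_filter]
      exact Pool.Agent.GBQ.rhl_recip y hy3
    have h7 : ∑ p ∈ Ioc 2 y with p.Prime, 1 / ((p : ℝ) * (p - 1)) ≤ 1 / 2 := by
      refine (sum_le_sum_of_subset_of_nonneg (filter_subset _ _) fun i hi _ => ?_).trans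
        ((Pool.Agent.GBQ.rhl_tel y (by omega)).trans ?_)
      · rw [mem_Ioc] at hi
        have : (2 : ℝ) ≤ i := by exact_mod_cast hi.1.le
        have h6 : 0 < (i : ℝ) - 1 := by linarith
        positivity
      · have h7 : (0 : ℝ) ≤ 1 / y := by positivity
        linarith
    have h8 : Real.exp (z * (∑ p ∈ Ioc 2 y with p.Prime, 1 / (p : ℝ)) +
        C1 * ∑ p ∈ Ioc 2 y with p.Prime, 1 / ((p : ℝ) * (p - 1))) ≤
        Real.exp (z * 7 + C1 * (1 / 2)) * Real.log y ^ z := by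
      rw [Real.rpow_def_of_pos hlogy, ← Real.exp_add]
      apply Real.exp_le_exp.mpr
      have h9 := mul_le_mul_of_nonneg_left h6 (by linarith : 0 ≤ z)
      have h10 := mul_le_mul_of_nonneg_left h7 hC10
      nlinarith
    refine h8.trans ?_
    rw [add_mul]
    have h9 : 0 ≤ (Real.log 2 ^ z)⁻¹ * Real.log y ^ z := by positivity
    linarith

end Pool.Agent.TCH
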