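import Mathlib
import Pool.Agent.CH.Stmts
import Pool.Agent.Helper20.TwinIndex

set_option autoImplicit false

/-!
# TCH: Chen's theorem for `p + 2`, large deviations of `Ω(p + 2)` and the indices of the primes
(MP_04e9b2_nt)

Part I is the twin version of `Pool/Agent/CH`: `q = p + 2`, `x = q - 2` is the prime, `m = 1`,
`n' = 2`, `w = 1`.  The classes `OmA 1 1 2 l` and `OmB 1 1 2 l` are `{0}` and `{2}` modulo `l > 2`
and empty for `l = 2`; `gA 1 1 2 l = gB 1 1 2 l = 1/(l-1)` for `l > 2` and `0` for `l = 2`.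
-/

namespace Pool.Agent.TCH

open Finset Filter Pool.Agent.MT Pool.Agent.CH

/-! ### Part I -/

/-- `∑ Λ(q - 2) η(q/N)` over `q = c mod d` -/
noncomputable def T2AP (η : ℝ → ℝ) (N d c : ℕ) : ℝ :=
  ∑ q ∈ (range (N + 1)).filter (fun q => q % d = c % d), lam (q - 2) * η ((q : ℝ) / N)

/-- the unit of measure of all main terms -/
noncomputable def U2 (η : ℝ → ℝ) (N : ℕ) : ℝ :=
  (∫ t in (0 : ℝ)..1, η t) * N * VV (gB 1 1 2) (zN N)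

/-- Bombieri-Vinogradov for `x = q - 2` prime, in terms of `q` -/
def St_TBV : Prop := ∀ η : ℝ → ℝ, IsWt η → ∀ θ : ℝ, 0 < θ → θ < 1 / 2 → ∀ A K : ℕ,
  ∀ᶠ N : ℕ in atTop, ∃ E : ℕ → ℝ, (∀ d, 0 ≤ E d) ∧
    (∀ d c : ℕ, 1 ≤ d → (d : ℝ) ≤ (N : ℝ) ^ θ → c < d →
      (∀ l ∈ d.primeFactors, c % l ≠ 2 % l) →
      |T2AP η N d c - psi0 η N / (d.totient : ℝ)| ≤ E d) ∧
    ∑ d ∈ (Icc 1 N).filter (fun d : ℕ => (d : ℝ) ≤ (N : ℝ) ^ θ),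
      (K : ℝ) ^ d.primeFactors.card * E d ≤ N / Real.log N ^ A

/-- `q - 2` prime, `q` without odd prime factors up to `z = N^{1/8}` -/
def St_TSA (A0 : ℝ) : Prop := ∀ η : ℝ → ℝ, IsWt η → ∀ ε : ℝ, 0 < ε → ∀ᶠ N : ℕ in atTop,
  (A0 * (Real.log 3 / 4) - ε) * U2 η N ≤
    ∑ q ∈ (range (N + 1)).filter (fun q => ∀ l ∈ pr (zN N), q % l ∉ OmA 1 1 2 l),
      lam (q - 2) * η ((q : ℝ) / N)

/-- the same with `p₁ ∣ q` -/
def St_TSP (A0 : ℝ) : Prop := ∀ η : ℝ → ℝ, IsWt η → ∀ ε : ℝ, 0 < ε → ∀ᶠ N : ℕ in atTop,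
  ∑ p ∈ (pr (yN N)).filter (fun p => zN N < p),
    ∑ q ∈ (range (N + 1)).filter
      (fun q => (∀ l ∈ pr (zN N), q % l ∉ OmA 1 1 2 l) ∧ p ∣ q),
      lam (q - 2) * η ((q : ℝ) / N) ≤ (A0 * (Real.log 6 / 4) + ε) * U2 η N

/-- the switched sum -/
def St_TSB (A0 : ℝ) : Prop := ∀ η : ℝ → ℝ, IsWt η → ∀ ε : ℝ, 0 < ε → ∀ᶠ N : ℕ in atTop,
  ∑ q ∈ (range (N + 1)).filter (fun q => ∀ l ∈ pr (yN N), q % l ∉ OmB 1 1 2 l),
      bt (zN N) (yN N) q * η ((q : ℝ) / N) ≤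
    (A0 * (cB / 4) + ε) * U2 η N / Real.log N

/-- Mertens, lower bound for the product -/
def St_TVL : Prop := ∃ c : ℝ, 0 < c ∧ ∀ z : ℕ, 2 ≤ z → c / Real.log z ≤ VV (gB 1 1 2) z

/-- the number of primes `p ≤ N` such that `p + 2` has at most two prime factors -/
noncomputable def chen (N : ℕ) : ℕ :=
  ((range (N + 1)).filter (fun p => p.Prime ∧ ArithmeticFunction.cardFactors (p + 2) ≤ 2)).card

/-- Chen's theorem with the right order of magnitude -/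
def St_TChen : Prop := ∃ c : ℝ, 0 < c ∧ ∀ᶠ N : ℕ in atTop,
  c * N / Real.log N ^ 2 ≤ chen N

/-! ### Part II: large deviations -/

/-- the `y`-smooth part -/
def smp (y n : ℕ) : ℕ := ∏ p ∈ n.primeFactors.filter (fun p => p ≤ y), p ^ n.factorization p

/-- integers with a large smooth part are rare -/
def St_LDA : Prop := ∀ ε : ℝ, 0 < ε → ∀ A : ℕ, ∀ᶠ x : ℕ in atTop, ∀ y : ℕ,
  (y : ℝ) ≤ (x : ℝ) ^ (1 / (ε * Real.log (Real.log x))) →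
  (((Icc 1 x).filter (fun n => Real.sqrt x < smp y n)).card : ℝ) ≤ x / Real.log x ^ A

/-- upper bound sieve for `b` and `a b - 2` -/
def St_LDB : Prop := ∃ (C : ℝ) (c : ℕ), 0 < C ∧ ∀ X a y : ℕ, 2 ≤ y → y ^ c ≤ X → 1 ≤ a →
  (((Icc 1 X).filter (fun b => (∀ p ∈ pr y, ¬ p ∣ b) ∧
    (∀ p ∈ pr y, ¬ p ∣ a * b - 2))).card : ℝ) ≤
    C * ((a : ℝ) / a.totient) ^ 2 * X / Real.log y ^ 2

/-- sums over odd smooth numbers -/
def St_LDS : Prop := ∀ z : ℝ, 1 ≤ z → z < 3 → ∃ C : ℝ, 0 < C ∧ ∀ y M : ℕ, 2 ≤ y →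
  ∑ a ∈ (Icc 1 M).filter (fun a => Odd a ∧ ∀ p ∈ a.primeFactors, p ≤ y),
    z ^ ArithmeticFunction.cardFactors a * ((a : ℝ) / a.totient) ^ 2 / a ≤
    C * Real.log y ^ z

/-- the moment of `z ^ Ω(p + 2)` over the primes with small smooth part -/
def St_LDM : Prop := ∀ z : ℝ, 1 ≤ z → z < 3 → ∀ ε : ℝ, 0 < ε → ∃ ε₀ : ℝ, 0 < ε₀ ∧
  ∀ᶠ x : ℕ in atTop, ∀ y : ℕ, y = ⌊(x : ℝ) ^ (1 / (ε₀ * Real.log (Real.log x)))⌋₊ →
  ∑ p ∈ (Icc 1 x).filter (fun p => p.Prime ∧ (smp y (p + 2) : ℝ) ≤ Real.sqrt ((x + 2 : ℕ) : ℝ)),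
    z ^ ArithmeticFunction.cardFactors (p + 2) ≤ x * Real.log x ^ (z - 2 + ε)

/-- large deviations of `Ω(p + 2)` -/
def St_LD : Prop := ∀ K : ℝ, 4 / Real.log 3 < K → ∃ δ : ℝ, 0 < δ ∧ ∀ᶠ x : ℕ in atTop,
  (((Icc 1 x).filter (fun p => p.Prime ∧ K * Real.log (Real.log x) <
    ArithmeticFunction.cardFactors (p + 2))).card : ℝ) ≤ x / Real.log x ^ (3 + δ)

/-! ### Part III: indices -/

/-- the `j`-th prime, `pj 1 = 2` -/
noncomputable def pj (j : ℕ) : ℕ := Nat.nth Nat.Prime (j - 1)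

theorem pj_eq (j : ℕ) : pj j = Pool.Agent.Helper20.TwinIndex.pr j := rfl

open Classical in
/-- the `k` for which `n = k + m` is a good decomposition -/
noncomputable def good (K C : ℝ) (n : ℕ) : Finset ℕ :=
  (Icc 1 (n - 1)).filter (fun k =>
    ArithmeticFunction.cardFactors (pj k + 2) ≤ 2 ∧
    (ArithmeticFunction.cardFactors (pj (pj (n - k)) + 2) : ℝ) ≤ K * Real.log (Real.log n) ∧
    (pj (pj (n - k) + 1) : ℝ) ≤ pj (pj (n - k)) + C * Real.log n ^ 3)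

/-- the final theorem -/
def St_T1 : Prop := ∀ K : ℝ, 4 / Real.log 3 < K → ∃ c C : ℝ, 0 < c ∧ 0 < C ∧
  ∀ᶠ n : ℕ in atTop, c * n / Real.log n ≤ (good K C n).card

end Pool.Agent.TCH
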