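import Mathlib
import Pool.Agent.TCH.Stmts
import Pool.Agent.CH.Fin

set_option autoImplicit false

/-!
# TCH / TFin

The number of primes `p ≤ N` with `p + 2` a product of at most two primes.
-/

namespace Pool.Agent.TCH

open Finset Filter Pool.Agent.MT Pool.Agent.CH

/-- number of `q ≤ N` such that `q - 2` is a proper prime power -/
theorem tfin_card_pp {N : ℕ} (hN : 1 ≤ N) :
    (((range (N + 1)).filter (fun q => lam (q - 2) ≠ 0 ∧ ¬ (q - 2).Prime)).card : ℝ) ≤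
      3 * (Real.sqrt N * Real.log N) := by
  refine le_trans ?_ (GBQ.bad_card_pp hN)
  norm_cast
  have h0 : ∀ q : ℕ, lam (q - 2) ≠ 0 → 2 < q := by
    intro q hq
    by_contra hcon
    apply hq
    have h : q - 2 = 0 := by omega
    rw [h]
    simp only [lam, ArithmeticFunction.map_zero]
  apply card_le_card_of_injOn (fun q => q - 2)
  · intro q hq
    obtain ⟨hq1, hq2, hq3⟩ := mem_filter.1 hq
    have h1 := h0 q hq2
    rw [mem_range] at hq1
    unfold GBQ.badPP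
    rw [mem_coe, mem_filter, mem_Ioc]
    have e1 : 0 < q - 2 := by omega
    have e2 : q - 2 ≤ N := by omega
    exact ⟨⟨e1, e2⟩, hq3, hq2⟩
  · intro a ha b hb hab
    have h1 := h0 a (mem_filter.1 ha).2.1
    have h2 := h0 b (mem_filter.1 hb).2.1
    have h3 : a - 2 = b - 2 := hab
    omega

theorem tfin_ndvd {q l : ℕ} (hx : (q - 2).Prime) (hl : l.Prime) (hlx : l < q - 2) :
    (1 * (q % l)) % l ≠ 2 % l := by
  intro h
  rw [one_mul, Nat.mod_mod] at h
  have h2 : 2 ≤ q := by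
    have := hx.two_le
    omega
  have hd : l ∣ q - 2 := (Nat.modEq_iff_dvd' h2).1 h.symm
  rcases (Nat.dvd_prime hx).1 hd with h3 | h3
  · exact hl.one_lt.ne' h3
  · omega

theorem tfin_OmB {y q : ℕ} (hx : (q - 2).Prime) (hyx : y < q - 2) :
    ∀ l ∈ pr y, q % l ∉ OmB 1 1 2 l := by
  intro l hl hc
  obtain ⟨hl1, hl2⟩ := fin_mem_pr.1 hl
  unfold OmB at hc
  rw [mem_filter] at hc
  obtain ⟨hc1, hc2, hc3⟩ := hc
  rcases hc3 with ⟨h3, h4⟩ | h3
  · have := hl2.two_le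
    omega
  · exact tfin_ndvd hx hl2 (by omega) h3

theorem tfin_rough {z q : ℕ} (hx : (q - 2).Prime) (hzx : z < q - 2)
    (hA : ∀ l ∈ pr z, q % l ∉ OmA 1 1 2 l) : ∀ l ∈ pr z, ¬ l ∣ q := by
  intro l hl hd
  obtain ⟨hl1, hl2⟩ := fin_mem_pr.1 hl
  apply hA l hl
  unfold OmA
  rw [mem_filter, mem_range]
  exact ⟨Nat.mod_lt _ hl2.pos, Or.inl (Nat.mod_eq_zero_of_dvd hd), tfin_ndvd hx hl2 (by omega)⟩

open Classical in
/-- the good `q` -/
noncomputable def tfinG (N : ℕ) : Finset ℕ :=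
  (range (N + 1)).filter (fun q => (q - 2).Prime ∧ Nat.IsAtMostAlmostPrime 2 q)

/-- the inequality between the three sums -/
theorem tfin_ineq {η : ℝ → ℝ} (hη : IsWt η) {N z y : ℕ} (hz : 1 ≤ z) (hzy : z ≤ y)
    (hy : 8 * (y + 2) < N)
    (hno : ∀ q ∈ range (N + 1), (∀ l ∈ pr z, q % l ∉ OmA 1 1 2 l) → η ((q : ℝ) / N) ≠ 0 →
      (q - 2).Prime → (∀ p ∈ (pr y).filter (fun p => z < p), ¬ p ^ 2 ∣ q) → q ∉ tfinG N →
      1 - (1 / 2) * ((((pr y).filter (fun p => z < p)).filter (fun p => p ∣ q)).card : ℝ) -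
        (1 / 2) * bt z y q ≤ 0) :
    ∑ q ∈ (range (N + 1)).filter (fun q => ∀ l ∈ pr z, q % l ∉ OmA 1 1 2 l),
        lam (q - 2) * η ((q : ℝ) / N) -
      (1 / 2) * ∑ p ∈ (pr y).filter (fun p => z < p), ∑ q ∈ (range (N + 1)).filter
        (fun q => (∀ l ∈ pr z, q % l ∉ OmA 1 1 2 l) ∧ p ∣ q),
          lam (q - 2) * η ((q : ℝ) / N) ≤
      (1 / 2) * (Real.log N * ∑ q ∈ (range (N + 1)).filter
        (fun q => ∀ l ∈ pr y, q % l ∉ OmB 1 1 2 l), bt z y q * η ((q : ℝ) / N)) +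
      (3 / 2) * (Real.log N * ((N : ℝ) / z + 3 * (Real.sqrt N * Real.log N)) +
        (2 / 3) * (Real.log N * (tfinG N).card)) := by
  classical
  have hN0 : 0 < N := by omega
  have hn1 : 1 ≤ N := hN0
  have hL : 0 ≤ Real.log N := Real.log_natCast_nonneg N
  set Q := (range (N + 1)).filter (fun q => ∀ l ∈ pr z, q % l ∉ OmA 1 1 2 l) with hQ
  set f : ℕ → ℝ := fun q => lam (q - 2) * η ((q : ℝ) / N) with hf
  set P := (pr y).filter (fun p => z < p) with hP
  set SQ := (Ioc 0 N).filter (fun q => ∃ p ∈ P, p ^ 2 ∣ q) with hSQ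
  set PP := (range (N + 1)).filter (fun q => lam (q - 2) ≠ 0 ∧ ¬ (q - 2).Prime) with hPP
  set G := tfinG N with hG
  rw [fin_double (fun q => ∀ l ∈ pr z, q % l ∉ OmA 1 1 2 l) P f, ← hQ]
  have hf0 : ∀ q, 0 ≤ f q := fun q => mul_nonneg (fin_lam_nonneg _) (hη.nonneg _)
  have hfL : ∀ q ∈ range (N + 1), f q ≤ Real.log N := fun q hq => by
    have h0 : q - 2 ≤ N := by
      rw [mem_range] at hq
      omega
    have h1 := fin_lam_le h0
    have h2 := hη.le_one ((q : ℝ) / N)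
    have h3 := hη.nonneg ((q : ℝ) / N)
    have h4 := fin_lam_nonneg (q - 2)
    calc f q = lam (q - 2) * η ((q : ℝ) / N) := rfl
      _ ≤ Real.log N * 1 := mul_le_mul h1 h2 h3 hL
      _ = Real.log N := mul_one _
  have hbig : ∀ q ∈ range (N + 1), η ((q : ℝ) / N) ≠ 0 → y < q - 2 := by
    intro q hq hq2
    have h1 := (hη.supp _ hq2).1
    have hNr : (0 : ℝ) < N := by exact_mod_cast hN0
    rw [lt_div_iff₀ hNr] at h1
    have h2 : N < 8 * q := by
      have : (N : ℝ) < 8 * q := by linarith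
      exact_mod_cast this
    omega
  -- the weights
  have hW : ∀ q ∈ Q, f q * (1 - (1 / 2) * ((P.filter (fun p => p ∣ q)).card : ℝ) -
      (1 / 2) * bt z y q) ≤ Real.log N * ((if q ∈ SQ then (1 : ℝ) else 0) +
        (if q ∈ PP then (1 : ℝ) else 0) + (if q ∈ G then (1 : ℝ) else 0)) := by
    intro q hq
    obtain ⟨hq1, hq2⟩ := mem_filter.1 hq
    have i1 : (0 : ℝ) ≤ (if q ∈ SQ then (1 : ℝ) else 0) := by split_ifs <;> norm_num
    have i2 : (0 : ℝ) ≤ (if q ∈ PP then (1 : ℝ) else 0) := by split_ifs <;> norm_num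
    have i3 : (0 : ℝ) ≤ (if q ∈ G then (1 : ℝ) else 0) := by split_ifs <;> norm_num
    have hrhs : 0 ≤ Real.log N * ((if q ∈ SQ then (1 : ℝ) else 0) +
        (if q ∈ PP then (1 : ℝ) else 0) + (if q ∈ G then (1 : ℝ) else 0)) :=
      mul_nonneg hL (by linarith)
    have hW1 : (1 - (1 / 2) * ((P.filter (fun p => p ∣ q)).card : ℝ) -
      (1 / 2) * bt z y q) ≤ 1 := by
      have := fin_bt_nonneg z y q
      have h2 : (0 : ℝ) ≤ ((P.filter (fun p => p ∣ q)).card : ℝ) := Nat.cast_nonneg _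
      linarith
    have hfull : f q * (1 - (1 / 2) * ((P.filter (fun p => p ∣ q)).card : ℝ) -
      (1 / 2) * bt z y q) ≤ Real.log N := by
      calc f q * (1 - (1 / 2) * ((P.filter (fun p => p ∣ q)).card : ℝ) - (1 / 2) * bt z y q)
          ≤ f q * 1 := mul_le_mul_of_nonneg_left hW1 (hf0 q)
        _ ≤ Real.log N := by rw [mul_one]; exact hfL q hq1
    by_cases h0 : f q = 0
    · rw [h0, zero_mul]
      exact hrhs
    have hη0 : η ((q : ℝ) / N) ≠ 0 := by
      intro h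
      apply h0
      simp only [hf, h, mul_zero]
    have hlam0 : lam (q - 2) ≠ 0 := by
      intro h
      apply h0
      simp only [hf, h, zero_mul]
    by_cases h1 : q ∈ SQ
    · refine hfull.trans ?_
      rw [if_pos h1]
      have h2 : 0 ≤ Real.log N * ((if q ∈ PP then (1 : ℝ) else 0) +
        (if q ∈ G then (1 : ℝ) else 0)) := mul_nonneg hL (by linarith)
      nlinarith
    by_cases h2 : q ∈ PP
    · refine hfull.trans ?_
      rw [if_pos h2, if_neg h1]
      have h3 : 0 ≤ Real.log N * (if q ∈ G then (1 : ℝ) else 0) := mul_nonneg hL i3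
      nlinarith
    by_cases h3 : q ∈ G
    · refine hfull.trans ?_
      rw [if_pos h3, if_neg h1, if_neg h2]
      linarith
    have hpr : (q - 2).Prime := by
      by_contra hcon
      exact h2 (mem_filter.2 ⟨hq1, hlam0, hcon⟩)
    have hqpos : 0 < q := by
      rcases Nat.eq_zero_or_pos q with h | h
      · exfalso
        apply hη0
        rw [h]
        apply wt_zero_of_small η hη
        norm_num
      · exact h
    have hsq : ∀ p ∈ P, ¬ p ^ 2 ∣ q := by
      intro p hp hd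
      apply h1
      rw [hSQ, mem_filter, mem_Ioc]
      exact ⟨⟨hqpos, Nat.lt_succ_iff.1 (mem_range.1 hq1)⟩, p, hp, hd⟩
    have h4 := hno q hq1 hq2 hη0 hpr hsq h3
    exact (mul_nonpos_of_nonneg_of_nonpos (hf0 q) h4).trans hrhs
  -- the switched part
  have hB : ∀ q ∈ Q, f q * bt z y q ≤ Real.log N *
      (if ∀ l ∈ pr y, q % l ∉ OmB 1 1 2 l then bt z y q * η ((q : ℝ) / N) else 0) +
      Real.log N * (if q ∈ PP then (1 : ℝ) else 0) := by
    intro q hq
    obtain ⟨hq1, hq2⟩ := mem_filter.1 hq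
    have hb0 := fin_bt_nonneg z y q
    have hη1 := hη.nonneg ((q : ℝ) / N)
    have hr1 : 0 ≤ Real.log N *
      (if ∀ l ∈ pr y, q % l ∉ OmB 1 1 2 l then bt z y q * η ((q : ℝ) / N) else 0) := by
      apply mul_nonneg hL
      split_ifs
      · exact mul_nonneg hb0 hη1
      · exact le_refl 0
    have hr2 : 0 ≤ Real.log N * (if q ∈ PP then (1 : ℝ) else 0) := by
      apply mul_nonneg hL
      split_ifs <;> norm_num
    by_cases h0 : f q = 0
    · rw [h0, zero_mul]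
      linarith
    have hη0 : η ((q : ℝ) / N) ≠ 0 := by
      intro h
      apply h0
      simp only [hf, h, mul_zero]
    have hlam0 : lam (q - 2) ≠ 0 := by
      intro h
      apply h0
      simp only [hf, h, zero_mul]
    by_cases h2 : q ∈ PP
    · rw [if_pos h2, mul_one]
      have h3 : f q * bt z y q ≤ Real.log N * 1 :=
        mul_le_mul (hfL q hq1) (fin_bt_le_one z y q) hb0 hL
      linarith
    have hpr : (q - 2).Prime := by
      by_contra hcon
      exact h2 (mem_filter.2 ⟨hq1, hlam0, hcon⟩)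
    have hyx := hbig q hq1 hη0
    rw [if_pos (tfin_OmB hpr hyx)]
    have h3 : f q * bt z y q ≤ Real.log N * (bt z y q * η ((q : ℝ) / N)) := by
      have h5 : q - 2 ≤ N := by
        rw [mem_range] at hq1
        omega
      have h4 := fin_lam_le h5
      calc f q * bt z y q = lam (q - 2) * (bt z y q * η ((q : ℝ) / N)) := by
            simp only [hf]
            ring
        _ ≤ Real.log N * (bt z y q * η ((q : ℝ) / N)) :=
            mul_le_mul_of_nonneg_right h4 (mul_nonneg hb0 hη1)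
    linarith
  have hsumSQ : ∑ q ∈ Q, (if q ∈ SQ then (1 : ℝ) else 0) ≤ (N : ℝ) / z := by
    refine le_trans ?_ (fin_card_sq (N := N) (z := z) (y := y) hz)
    rw [← sum_filter, sum_const, nsmul_eq_mul, mul_one]
    exact_mod_cast card_le_card (fun q hq => (mem_filter.1 hq).2)
  have hsumPP : ∑ q ∈ Q, (if q ∈ PP then (1 : ℝ) else 0) ≤
      3 * (Real.sqrt N * Real.log N) := by
    refine le_trans ?_ (tfin_card_pp hn1)
    rw [← sum_filter, sum_const, nsmul_eq_mul, mul_one]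
    exact_mod_cast card_le_card (fun q hq => (mem_filter.1 hq).2)
  have hsumG : ∑ q ∈ Q, (if q ∈ G then (1 : ℝ) else 0) ≤ (G.card : ℝ) := by
    rw [← sum_filter, sum_const, nsmul_eq_mul, mul_one]
    exact_mod_cast card_le_card (fun q hq => (mem_filter.1 hq).2)
  have hBsum : ∑ q ∈ Q, (if ∀ l ∈ pr y, q % l ∉ OmB 1 1 2 l then bt z y q * η ((q : ℝ) / N)
      else 0) ≤ ∑ q ∈ (range (N + 1)).filter (fun q => ∀ l ∈ pr y, q % l ∉ OmB 1 1 2 l),
        bt z y q * η ((q : ℝ) / N) := by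
    rw [← sum_filter]
    apply sum_le_sum_of_subset_of_nonneg
    · intro q hq
      obtain ⟨hq1, hq2⟩ := mem_filter.1 hq
      exact mem_filter.2 ⟨(mem_filter.1 hq1).1, hq2⟩
    · intro q _ _
      exact mul_nonneg (fin_bt_nonneg z y q) (hη.nonneg _)
  have hS1 := sum_le_sum hW
  have hS2 := sum_le_sum hB
  rw [← mul_sum, sum_add_distrib, sum_add_distrib] at hS1
  rw [sum_add_distrib, ← mul_sum, ← mul_sum] at hS2
  have hS3 : ∑ q ∈ Q, f q * (1 - (1 / 2) * ((P.filter (fun p => p ∣ q)).card : ℝ) -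
      (1 / 2) * bt z y q) = ∑ q ∈ Q, f q -
        (1 / 2) * ∑ q ∈ Q, f q * ((P.filter (fun p => p ∣ q)).card : ℝ) -
        (1 / 2) * ∑ q ∈ Q, f q * bt z y q := by
    rw [mul_sum, mul_sum, ← sum_sub_distrib, ← sum_sub_distrib]
    apply sum_congr rfl
    intro q _
    ring
  rw [hS3] at hS1
  have hm1 := mul_le_mul_of_nonneg_left hsumSQ hL
  have hm2 := mul_le_mul_of_nonneg_left hsumPP hL
  have hm3 := mul_le_mul_of_nonneg_left hBsum hL
  have hm4 := mul_le_mul_of_nonneg_left hsumG hL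
  have hnn : 0 ≤ Real.log N * ((N : ℝ) / z) := by positivity
  nlinarith [hS1, hS2, hm1, hm2, hm3, hm4, hnn]

/-- a `q` of positive weight is good -/
theorem tfin_good (h2 : St_Wt) {η : ℝ → ℝ} (hη : IsWt η) {N z y : ℕ}
    (hN100 : 100 ≤ N) (hzy : z ≤ y) (hy8 : 8 * (y + 2) < N) (hy3 : N ≤ y ^ 3) :
    ∀ q ∈ range (N + 1), (∀ l ∈ pr z, q % l ∉ OmA 1 1 2 l) →
      η ((q : ℝ) / N) ≠ 0 → (q - 2).Prime →
      (∀ p ∈ (pr y).filter (fun p => z < p), ¬ p ^ 2 ∣ q) → q ∉ tfinG N →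
      1 - (1 / 2) * ((((pr y).filter (fun p => z < p)).filter
        (fun p => p ∣ q)).card : ℝ) - (1 / 2) * bt z y q ≤ 0 := by
  classical
  intro q hq hA hη0 hpr hsq hG
  by_contra hW
  have hN0 : (0 : ℝ) < N := by exact_mod_cast (by omega : 0 < N)
  have hq1 : q ≤ N := Nat.lt_succ_iff.1 (mem_range.1 hq)
  obtain ⟨hs1, hs2⟩ := hη.supp _ hη0
  rw [lt_div_iff₀ hN0] at hs1
  rw [div_lt_iff₀ hN0] at hs2
  have hq2 : 8 * q < 7 * N := by
    have : (8 : ℝ) * q < 7 * N := by linarith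
    exact_mod_cast this
  have hq3 : N < 8 * q := by
    have : (N : ℝ) < 8 * q := by linarith
    exact_mod_cast this
  have hx : y < q - 2 := by omega
  have hzx : z < q - 2 := by omega
  have hr := tfin_rough hpr hzx hA
  have hpz : ∀ p : ℕ, p.Prime → p ∣ q → z < p := by
    intro p hp hd
    by_contra h5
    exact hr p (fin_mem_pr.2 ⟨by omega, hp⟩) hd
  have hfe : ((pr y).filter (fun p => z < p)).filter (fun p => p ∣ q) =
      (pr y).filter (fun p => p ∣ q) := by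
    rw [filter_filter]
    apply filter_congr
    intro p hp
    constructor
    · rintro ⟨-, h5⟩
      exact h5
    · intro h5
      exact ⟨hpz p (fin_mem_pr.1 hp).2 h5, h5⟩
  rw [hfe, not_le] at hW
  have hO := h2 z y q (by omega) (by omega) hpz ?_ hW
  · apply hG
    unfold tfinG
    rw [mem_filter]
    exact ⟨hq, hpr, hO⟩
  · intro p hp hpy hd
    exact hsq p (mem_filter.2 ⟨fin_mem_pr.2 ⟨hpy, hp⟩, hpz p hp ((dvd_pow_self p
      (by norm_num)).trans hd)⟩) hd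

theorem tfin_chen (N : ℕ) : (tfinG N).card ≤ chen N := by
  classical
  unfold tfinG chen
  apply card_le_card_of_injOn (fun q => q - 2)
  · intro q hq
    obtain ⟨hq1, hq2, hq3⟩ := mem_filter.1 hq
    have h0 := hq2.two_le
    rw [mem_range] at hq1
    rw [mem_coe, mem_filter, mem_range]
    have h1 : q - 2 + 2 = q := by omega
    have e1 : q - 2 < N + 1 := by omega
    refine ⟨e1, hq2, ?_⟩
    have e2 : ArithmeticFunction.cardFactors (q - 2 + 2) ≤ 2 := by
      rw [h1]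
      exact hq3.2
    exact e2
  · intro a ha b hb hab
    have h1 := (mem_filter.1 ha).2.1.two_le
    have h2 := (mem_filter.1 hb).2.1.two_le
    have h3 : a - 2 = b - 2 := hab
    omega

/-- the numerical end -/
theorem tfin_num {κ c N L U sq z T G : ℝ} (hκ : 0 < κ) (hc : 0 < c) (hN : 0 < N)
    (hL : 1 ≤ L) (hT : 0 < T) (hTz : T ≤ 2 * z) (hTN : T * sq = N)
    (hU : (1 / 2) * N * (c / L) ≤ U) {sn : ℝ} (hsn0 : 0 ≤ sn)
    (hsn : sn ≤ sq) (hfin : 96 / (κ * c) * L ^ 3 < T)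
    (h : κ / 2 * U ≤ (3 / 2) * (L * (N / z + 3 * (sn * L)) + (2 / 3) * (L * G))) :
    κ * c / 8 * N / L ^ 2 ≤ G := by
  have hz : 0 < z := by linarith
  have hL0 : 0 < L := by linarith
  have hsq : 0 < sq := by
    by_contra hcon
    have : T * sq ≤ 0 := mul_nonpos_of_nonneg_of_nonpos hT.le (not_lt.1 hcon)
    linarith
  have hNz : N / z ≤ 2 * sq := by
    rw [div_le_iff₀ hz, ← hTN]
    nlinarith
  have h1 : sn * L ≤ sq * L := mul_le_mul_of_nonneg_right hsn hL0.le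
  have h2 : N / z + 3 * (sn * L) ≤ 5 * (sq * L) := by nlinarith
  have h3 : L * (N / z + 3 * (sn * L)) ≤ L * (5 * (sq * L)) :=
    mul_le_mul_of_nonneg_left h2 hL0.le
  have h4 : κ / 2 * ((1 / 2) * N * (c / L)) ≤ κ / 2 * U :=
    mul_le_mul_of_nonneg_left hU (by linarith)
  have h5 : κ / 2 * ((1 / 2) * N * (c / L)) ≤ 8 * sq * L ^ 2 + L * G := by nlinarith
  have hkc : 0 < κ * c := mul_pos hκ hc
  have h6 : 96 * L ^ 3 < κ * c * T := by
    have h10 := mul_lt_mul_of_pos_left hfin hkc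
    have h11 : κ * c * (96 / (κ * c) * L ^ 3) = 96 * L ^ 3 := by
      field_simp
    rw [h11] at h10
    exact h10
  have h7 : 96 * L ^ 3 * sq < κ * c * N := by
    have h10 := mul_lt_mul_of_pos_right h6 hsq
    have h11 : κ * c * T * sq = κ * c * N := by
      rw [← hTN]
      ring
    rw [h11] at h10
    exact h10
  have h8 : κ / 2 * ((1 / 2) * N * (c / L)) = κ * c * N / (4 * L) := by
    field_simp
    ring
  rw [h8, div_le_iff₀ (by positivity)] at h5
  rw [div_le_iff₀ (by positivity)]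
  nlinarith [h5, h7]

/-- keep this signature -/
theorem thm_TFin (h0 : ∃ A0 : ℝ, 0 < A0 ∧ St_TSA A0 ∧ St_TSP A0 ∧ St_TSB A0) (h1 : St_cB)
    (h2 : St_Wt) (h3 : St_TVL) : St_TChen := by
  obtain ⟨A0, hA0, hSA, hSP, hSB⟩ := h0
  obtain ⟨η, hη⟩ := exists_wt
  obtain ⟨κ, hκdef⟩ : ∃ κ : ℝ, κ = A0 * (Real.log 3 / 4) - A0 * (Real.log 6 / 4) / 2 -
    A0 * (cB / 4) / 2 := ⟨_, rfl⟩
  have hκ : 0 < κ := hκdef ▸ fin_kappa hA0 h1
  obtain ⟨ε, hεdef⟩ : ∃ ε : ℝ, ε = min (1 / 10) (κ / (2 * (3 + A0))) := ⟨_, rfl⟩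
  have hε : 0 < ε := hεdef ▸ lt_min (by norm_num) (by positivity)
  have hε1 : ε ≤ 1 / 10 := hεdef ▸ min_le_left _ _
  have hε2 : ε * (3 + A0) ≤ κ / 2 := by
    have h5 : ε ≤ κ / (2 * (3 + A0)) := hεdef ▸ min_le_right _ _
    rw [le_div_iff₀ (by positivity)] at h5
    linarith
  obtain ⟨c, hc, hVL⟩ := h3
  refine ⟨κ * c / 8, by positivity, ?_⟩
  filter_upwards [hSA η hη ε hε, hSP η hη ε hε, hSB η hη ε hε,
    fin_log_pow 2 0 (show (0 : ℝ) < 1 / 8 by norm_num),
    fin_log_pow 32 0 (show (0 : ℝ) < 2 / 3 by norm_num),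
    fin_log_pow (96 / (κ * c)) 3 (show (0 : ℝ) < 1 / 8 by norm_num),
    eventually_ge_atTop 100] with N hSA hSP hSB hE2 hE3 hE4 hN100
  have hNr : (100 : ℝ) ≤ N := by exact_mod_cast hN100
  have hN0 : (0 : ℝ) < N := by linarith
  have hN1 : (1 : ℝ) ≤ N := by linarith
  rw [pow_zero, mul_one] at hE2 hE3
  have hLg : 1 ≤ Real.log N := by
    rw [Real.le_log_iff_exp_le hN0]
    have := Real.exp_one_lt_d9
    linarith
  -- the parameters
  have hz2 : 2 ≤ zN N := by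
    unfold zN
    apply Nat.le_floor
    exact_mod_cast hE2.le
  have hzT : (N : ℝ) ^ (1 / 8 : ℝ) ≤ 2 * (zN N : ℝ) := by
    have h5 : (N : ℝ) ^ (1 / 8 : ℝ) < (zN N : ℝ) + 1 := Nat.lt_floor_add_one _
    have h6 : (2 : ℝ) ≤ zN N := by exact_mod_cast hz2
    linarith
  have hzN : (zN N : ℝ) ≤ (N : ℝ) ^ (1 / 8 : ℝ) := Nat.floor_le (Real.rpow_nonneg hN0.le _)
  have hyge : (N : ℝ) ^ (1 / 3 : ℝ) ≤ yN N := Nat.le_ceil _
  have hylt : (yN N : ℝ) < (N : ℝ) ^ (1 / 3 : ℝ) + 1 :=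
    Nat.ceil_lt_add_one (Real.rpow_nonneg hN0.le _)
  have hT1 : 1 ≤ (N : ℝ) ^ (1 / 3 : ℝ) := Real.one_le_rpow hN1 (by norm_num)
  have hy8 : 8 * (yN N + 2) < N := by
    have h5 : (N : ℝ) ^ (1 / 3 : ℝ) * (N : ℝ) ^ (2 / 3 : ℝ) = N := by
      rw [← Real.rpow_add hN0]
      norm_num
    have h6 : (8 : ℝ) * (yN N + 2) < N := by nlinarith
    exact_mod_cast h6
  have hzy : zN N ≤ yN N := by
    have h5 : (N : ℝ) ^ (1 / 8 : ℝ) ≤ (N : ℝ) ^ (1 / 3 : ℝ) :=
      Real.rpow_le_rpow_of_exponent_le hN1 (by norm_num)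
    have h6 : (zN N : ℝ) ≤ yN N := by linarith
    exact_mod_cast h6
  have hy3 : N ≤ yN N ^ 3 := by
    have h5 : ((N : ℝ) ^ (1 / 3 : ℝ)) ^ 3 = N := by
      rw [← Real.rpow_natCast, ← Real.rpow_mul hN0.le]
      norm_num
    have h6 : ((N : ℝ) ^ (1 / 3 : ℝ)) ^ 3 ≤ (yN N : ℝ) ^ 3 :=
      pow_le_pow_left₀ (by linarith) hyge 3
    rw [h5] at h6
    exact_mod_cast h6
  have hsn : Real.sqrt N ≤ (N : ℝ) ^ (7 / 8 : ℝ) := by
    rw [Real.sqrt_eq_rpow]
    exact Real.rpow_le_rpow_of_exponent_le hN1 (by norm_num)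
  -- the unit
  have hI := fin_int hη
  have hV : c / Real.log N ≤ VV (gB 1 1 2) (zN N) := by
    refine le_trans ?_ (hVL (zN N) hz2)
    have h5 : 0 < Real.log (zN N) := Real.log_pos (by exact_mod_cast hz2)
    have h6 : (zN N : ℝ) ≤ N := hzN.trans (by
      calc (N : ℝ) ^ (1 / 8 : ℝ) ≤ (N : ℝ) ^ (1 : ℝ) :=
            Real.rpow_le_rpow_of_exponent_le hN1 (by norm_num)
        _ = N := Real.rpow_one _)
    have h7 : Real.log (zN N) ≤ Real.log N :=
      Real.log_le_log (by exact_mod_cast (by omega : 0 < zN N)) h6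
    exact div_le_div_of_nonneg_left hc.le h5 h7
  have hcl : 0 ≤ c / Real.log N := by positivity
  have hU : (1 / 2) * N * (c / Real.log N) ≤ U2 η N := by
    unfold U2
    apply mul_le_mul _ hV hcl (by positivity)
    exact mul_le_mul_of_nonneg_right hI hN0.le
  have hU0 : 0 ≤ U2 η N := le_trans (by positivity) hU
  have hno := tfin_good h2 hη hN100 hzy hy8 hy3
  have hmain := tfin_ineq hη (by omega : 1 ≤ zN N) hzy hy8 hno
  have hSB0 : 0 ≤ ∑ q ∈ (range (N + 1)).filter (fun q => ∀ l ∈ pr (yN N), q % l ∉ OmB 1 1 2 l),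
      bt (zN N) (yN N) q * η ((q : ℝ) / N) :=
    sum_nonneg (fun q _ => mul_nonneg (fin_bt_nonneg _ _ q) (hη.nonneg _))
  have hcB : cB ≤ 2 / 5 := h1
  have hLL : Real.log N ≤ (1 + ε) * Real.log N := by nlinarith
  have hkey := fin_alg hA0 hκdef hε hε2 hcB (by linarith : 0 < Real.log N) hLL hU0 hSB0 hSA hSP
    hSB hmain hε1
  have hres := tfin_num (N := N) (T := (N : ℝ) ^ (1 / 8 : ℝ)) (sq := (N : ℝ) ^ (7 / 8 : ℝ))
    hκ hc hN0 hLg (Real.rpow_pos_of_pos hN0 _) hzT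
    (by rw [← Real.rpow_add hN0]; norm_num) hU (Real.sqrt_nonneg _) hsn hE4 hkey
  refine hres.trans ?_
  exact_mod_cast tfin_chen N

end Pool.Agent.TCH
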