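import Mathlib
import Pool.Agent.TCH.Stmts
import Pool.Agent.CH.SA

set_option autoImplicit false

/-!
# TCH / TSA

Lower bound for the number of `q` with `q - 2` prime and `q` without odd prime factors up to `z`,
from the linear sieve (`s = 4`).
-/

namespace Pool.Agent.TCH

open Finset Filter Pool.Agent.MT Pool.Agent.CH

theorem tsa_OmA (l c : ℕ) (h : c ∈ OmA 1 1 2 l) : c % l ≠ 2 % l := by
  unfold OmA at h
  rw [Finset.mem_filter] at h
  have h1 := h.2.2
  rw [one_mul] at h1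
  exact h1

theorem tsa_class (d a : ℕ) (h : ∀ l ∈ d.primeFactors, a % l ∈ OmA 1 1 2 l) :
    ∀ l ∈ d.primeFactors, a % l ≠ 2 % l := by
  intro l hl
  have h1 := tsa_OmA l (a % l) (h l hl)
  rwa [Nat.mod_mod] at h1

/-- the density satisfies the hypotheses of the sieve -/
theorem tsa_dns (h4 : St_Dens) (w z : ℕ) : Dns w z 1 (gA 1 1 2) := by
  classical
  obtain ⟨hD1, hD2, hD3⟩ := h4 1 1 2 le_rfl (Nat.coprime_one_right 2) (by norm_num)
  have hn1 : ∀ l : ℕ, l.Prime → ¬ l ∣ 1 := fun l hl h => hl.one_lt.ne' (Nat.dvd_one.1 h)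
  refine ⟨fun l hl => ⟨(hD1 l hl).2.2.1, (hD1 l hl).2.2.2.1, (hD1 l hl).2.2.2.2.1⟩, ?_, ?_⟩
  · intro l hl hwl _
    have h5 := (hD2 l hl hl.one_lt (hn1 l hl)).2
    by_cases h6 : l ∣ 2
    · exact Or.inl (h5.1 h6)
    · exact Or.inr (h5.2 h6)
  · rw [Finset.card_le_one]
    have key : ∀ l ∈ (pr z).filter (fun l => w < l ∧ gA 1 1 2 l = 0), l = 2 := by
      intro l hl
      rw [Finset.mem_filter] at hl
      have hlp : l.Prime := by
        have := hl.1
        unfold pr at this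
        exact (Finset.mem_filter.1 this).2
      by_contra hcon
      have h6 : ¬ l ∣ 2 := fun h7 => hcon ((Nat.prime_dvd_prime_iff_eq hlp Nat.prime_two).1 h7)
      have h5 := (hD2 l hlp hlp.one_lt (hn1 l hlp)).2.2 h6
      rw [hl.2.2] at h5
      have h7 : (0 : ℝ) < 1 / ((l : ℝ) - 1) := by
        have h8 : (2 : ℝ) ≤ l := by exact_mod_cast hlp.two_le
        apply one_div_pos.2
        linarith
      linarith
    intro a ha b hb
    rw [key a ha, key b hb]

/-- keep this signature -/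
theorem thm_TSA (A0 : ℝ) (hA0 : 0 < A0) (h0 : St_LinL A0) (h1 : St_TBV) (h2 : St_Gen) (h3 : St_VLow) (h4 : St_Dens) (h5 : St_P1) : St_TSA A0 := by
  classical
  intro η hη ε hε
  set τ : ℝ := min (1 / 16) (ε / (16 * (A0 + 1))) with hτdef
  have hA1 : 0 < A0 + 1 := by linarith
  have hτ0 : 0 < τ := lt_min (by norm_num) (by positivity)
  have hτ1 : τ ≤ 1 / 16 := min_le_left _ _
  have hτ2 : τ ≤ ε / (16 * (A0 + 1)) := min_le_right _ _
  set ε' : ℝ := min (τ / 2) (ε / 4) with hε'def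
  have hε'0 : 0 < ε' := lt_min (by positivity) (by positivity)
  have hε'1 : ε' ≤ τ / 2 := min_le_left _ _
  have hε'2 : ε' ≤ ε / 4 := min_le_right _ _
  set ε₁ : ℝ := ε / (16 * (A0 + 1)) with hε₁def
  have hε₁0 : 0 < ε₁ := by positivity
  set ε₂ : ℝ := ε / 8 with hε₂def
  have hε₂0 : 0 < ε₂ := by positivity
  obtain ⟨hI1, hI2, hI3⟩ := sa_int η hη
  set I := ∫ t in (0 : ℝ)..1, η t with hIdef
  obtain ⟨δ₀, C, hδ₀, hL⟩ := h0 ε' hε'0
  obtain ⟨cV, kV, hcV, hV⟩ := h3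
  have hLδ := hL δ₀ hδ₀ le_rfl 1
  have hAB := h1 η hη (1 / 2 - τ / 2) (by linarith) (by linarith) (kV + 1) (3 * C)
  have hP := h5 η hη ε₁ hε₁0
  filter_upwards [hLδ, hAB, hP, eventually_ge_atTop 256,
    sa_floor (1 / 10) (1 / 8) (by norm_num) (by norm_num),
    sa_floor ((1 / 2 - τ) / 4) (1 / 8) (by linarith) (by linarith),
    sa_log_large (2 * C / (ε₂ * cV) + 1)] with N hLN hABN hPm hN256 hz1 hz2 hlarge
  rw [← hIdef] at hPm
  have hNR : (256 : ℝ) ≤ N := by exact_mod_cast hN256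
  have hNpos : (0 : ℝ) < N := by linarith
  obtain ⟨hD1, hD2, hD3⟩ := h4 1 1 2 le_rfl (Nat.coprime_one_right 2) (by norm_num)
  -- the parameters of the sieve
  set z := zN N with hzdef
  have hdns := tsa_dns h4 ⌊(N : ℝ) ^ δ₀⌋₊ z
  have hz1' : (N : ℝ) ^ (1 / 10 : ℝ) ≤ z := hz1
  have hz2' : (N : ℝ) ^ ((1 / 2 - τ) / 4) ≤ z := hz2
  have hzup : (z : ℝ) ≤ (N : ℝ) ^ (1 / 8 : ℝ) := Nat.floor_le (by positivity)
  have hzone : (1 : ℝ) ≤ z := by
    have h6 : 1 ≤ (N : ℝ) ^ (1 / 10 : ℝ) := Real.one_le_rpow (by linarith) (by norm_num)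
    linarith
  have hz1n : 1 ≤ z := by exact_mod_cast hzone
  set D := (N : ℝ) ^ (1 / 2 - τ) with hDdef
  have hDz2 : (z : ℝ) ^ 2 ≤ D := by
    calc (z : ℝ) ^ 2 ≤ ((N : ℝ) ^ (1 / 8 : ℝ)) ^ 2 := by gcongr
      _ = (N : ℝ) ^ (1 / 4 : ℝ) := by
          rw [← Real.rpow_natCast, ← Real.rpow_mul hNpos.le]
          norm_num
      _ ≤ D := Real.rpow_le_rpow_of_exponent_le (by linarith) (by linarith)
  have hDz4 : D ≤ (z : ℝ) ^ 4 := by
    calc D = ((N : ℝ) ^ ((1 / 2 - τ) / 4)) ^ 4 := by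
          rw [← Real.rpow_natCast, ← Real.rpow_mul hNpos.le, hDdef]
          congr 1
          push_cast
          ring
      _ ≤ (z : ℝ) ^ 4 := by gcongr
  have hDN : D ≤ N := by
    calc D ≤ (N : ℝ) ^ (1 : ℝ) := Real.rpow_le_rpow_of_exponent_le (by linarith) (by linarith)
      _ = N := Real.rpow_one _
  obtain ⟨c, hc1, hc2, hc3, hc4⟩ := hLN z D hz1' hDz2 hDz4 hDN (gA 1 1 2) hdns
  -- logarithms
  set L := Real.log N with hLdef
  have hL0 : 0 < L := Real.log_pos (by linarith)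
  have hlogD : Real.log D = (1 / 2 - τ) * L := by
    rw [hDdef, Real.log_rpow hNpos]
  have hlz1 : Real.log z ≤ L / 8 := by
    calc Real.log z ≤ Real.log ((N : ℝ) ^ (1 / 8 : ℝ)) := Real.log_le_log (by linarith) hzup
      _ = L / 8 := by rw [Real.log_rpow hNpos]; ring
  have hlz2 : (1 / 2 - τ) * L ≤ 4 * Real.log z := by
    rw [← hlogD]
    calc Real.log D ≤ Real.log ((z : ℝ) ^ 4) := Real.log_le_log (by positivity) hDz4
      _ = 4 * Real.log z := by rw [Real.log_pow]; push_cast; ring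
  obtain ⟨hf1, hf2, hf3⟩ := sa_sieve L (Real.log z) τ hL0 hτ0.le hτ1 hlz1 hlz2
  rw [hlogD] at hc3
  -- Bombieri-Vinogradov
  obtain ⟨E, hE0, hE1, hE2⟩ := hABN
  have hcsupp : ∀ d, c d ≠ 0 → (d : ℝ) ≤ (N : ℝ) ^ (1 / 2 - τ / 2) := by
    intro d hd
    refine (hc1 d hd).2.2.trans ?_
    rw [hDdef, ← Real.rpow_add hNpos]
    exact Real.rpow_le_rpow_of_exponent_le (by linarith) (by linarith)
  have hcN : ∀ d, c d ≠ 0 → d < N := by
    intro d hd
    have h6 := hcsupp d hd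
    have h7 : (N : ℝ) ^ (1 / 2 - τ / 2) < (N : ℝ) ^ (1 : ℝ) :=
      Real.rpow_lt_rpow_of_exponent_lt (by linarith) (by linarith)
    rw [Real.rpow_one] at h7
    exact_mod_cast h6.trans_lt h7
  set ϖ : ℕ → ℝ := fun q => lam (q - 2) * η ((q : ℝ) / N) with hϖdef
  have hϖ0 : ∀ q, 0 ≤ ϖ q := fun q =>
    mul_nonneg ArithmeticFunction.vonMangoldt_nonneg (hη.nonneg _)
  have hgen := h2 ϖ c (fun d => 1 / ((d : ℕ).totient : ℝ)) E (fun l => OmA 1 1 2 l)
    (pr z) N (N ^ 2) 3 (psi0 η N)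
    (fun l hl => by unfold pr at hl; exact (Finset.mem_filter.1 hl).2)
    (fun l hl => by
      have hlp : l.Prime := by unfold pr at hl; exact (Finset.mem_filter.1 hl).2
      exact ⟨Finset.filter_subset _ _, (hD1 l hlp).1⟩)
    (fun d hd => by
      refine ⟨(hc1 d hd).1, ?_, ?_⟩
      · intro p hp
        unfold pr
        rw [Finset.mem_filter, Finset.mem_range]
        refine ⟨?_, Nat.prime_of_mem_primeFactors hp⟩
        have h6 := (hc1 d hd).2.1 p hp
        omega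
      · have h6 := hcN d hd
        have h7 : N ≤ N ^ 2 := Nat.le_self_pow (by norm_num) N
        omega)
    hE0
    (fun d hd a ha hal => by
      have hd0 : d ≠ 0 := (hc1 d hd).1.ne_zero
      have h6 := hE1 d a (by omega) (hcsupp d hd) ha (tsa_class d a hal)
      unfold T2AP at h6
      rw [Nat.mod_eq_of_lt ha] at h6
      rw [mul_one_div]
      exact h6)
  -- the main term
  have hmain : psi0 η N * ∑ d ∈ Icc 1 (N ^ 2), c d *
      (1 / ((d : ℕ).totient : ℝ) * ∏ l ∈ d.primeFactors, ((OmA 1 1 2 l).card : ℝ)) =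
      psi0 η N * ∑ d ∈ Icc 1 (N ^ 2), c d * ∏ p ∈ d.primeFactors, gA 1 1 2 p := by
    congr 1
    apply Finset.sum_congr rfl
    intro d _
    by_cases hd : c d = 0
    · rw [hd]
      ring
    · have h6 := sa_local 1 1 2 d le_rfl (hc1 d hd).1
      rw [one_mul, Nat.totient_one, Nat.cast_one, div_one, one_mul] at h6
      rw [h6]
  have herr := sa_err N C (1 / 2 - τ / 2) (N / L ^ (kV + 1)) (by linarith) (by omega) c E hcsupp
    hc2 hE0 hE2
  have hsift := sa_sift ϖ c hϖ0 (fun l => OmA 1 1 2 l) z N hc4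
  have hVA := hD3 z le_rfl hz1n
  rw [Nat.totient_one, Nat.cast_one, div_one, one_mul] at hVA
  have hVpos : 0 ≤ VV (gB 1 1 2) z := by
    unfold VV
    apply Finset.prod_nonneg
    intro l hl
    have hlp : l.Prime := by unfold pr at hl; exact (Finset.mem_filter.1 hl).2
    have := (hD1 l hlp).2.2.2.2.2.2.1
    linarith
  have hpsi0 : 0 ≤ psi0 η N := by
    unfold psi0
    apply Finset.sum_nonneg
    intro q _
    exact mul_nonneg ArithmeticFunction.vonMangoldt_nonneg (hη.nonneg _)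
  -- assemble
  have hlow : psi0 η N / 1 * VV (gB 1 1 2) z *
      (A0 * (Real.log ((1 / 2 - τ) * L / Real.log z - 1) * Real.log z / ((1 / 2 - τ) * L)) - ε') ≤
      psi0 η N * ∑ d ∈ Icc 1 (N ^ 2), c d * ∏ p ∈ d.primeFactors, gA 1 1 2 p := by
    have h6 := mul_le_mul_of_nonneg_left hc3 hpsi0
    refine le_trans (le_of_eq ?_) h6
    rw [hVA]
    ring
  have hgen2 := (abs_sub_le_iff.1 hgen).2
  rw [hmain] at hgen2
  have hErrUU : C * (N / L ^ (kV + 1)) ≤ ε₂ * (I * N * VV (gB 1 1 2) z) := by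
    have hz2n : 2 ≤ z := by
      have h6 : (256 : ℝ) ^ (1 / 8 : ℝ) = 2 := by
        have h7 : (256 : ℝ) = 2 ^ (8 : ℝ) := by norm_num
        rw [h7, ← Real.rpow_mul (by norm_num)]
        norm_num
      have h7 : (2 : ℝ) ≤ (N : ℝ) ^ (1 / 8 : ℝ) := by
        rw [← h6]
        exact Real.rpow_le_rpow (by norm_num) hNR (by norm_num)
      exact Nat.le_floor h7
    have h6 := hV z (gB 1 1 2) hz2n
      (fun l hl => ⟨(hD1 l hl).2.2.2.2.2.1, (hD1 l hl).2.2.2.2.2.2.1, (hD1 l hl).2.2.2.2.2.2.2⟩)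
    have hlz0 : 0 < Real.log z := Real.log_pos (by exact_mod_cast hz2n)
    have h7 : cV / L ^ kV ≤ VV (gB 1 1 2) z := by
      refine le_trans ?_ h6
      apply div_le_div_of_nonneg_left hcV.le (by positivity)
      apply pow_le_pow_left₀ hlz0.le
      linarith
    have h8 : (C : ℝ) * (N / L ^ (kV + 1)) ≤ ε₂ * (1 / 2 * N * (cV / L ^ kV)) := by
      have h9 : 2 * C / (ε₂ * cV) ≤ L := by linarith
      rw [div_le_iff₀ (by positivity)] at h9
      have h10 : (C : ℝ) * (N / L ^ (kV + 1)) = (2 * C) * (N / (2 * L ^ kV * L)) := by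
        rw [pow_succ]
        field_simp
      rw [h10]
      calc (2 * C) * (N / (2 * L ^ kV * L)) ≤ (L * (ε₂ * cV)) * (N / (2 * L ^ kV * L)) := by
            gcongr
        _ = ε₂ * (1 / 2 * N * (cV / L ^ kV)) := by
            field_simp
    refine h8.trans ?_
    have h11 : 0 ≤ cV / L ^ kV := by positivity
    gcongr
  have hUU : U2 η N = I * N * VV (gB 1 1 2) z := rfl
  rw [hUU]
  have hPm' : |psi0 η N - 1 * N * I| ≤ ε₁ * (1 * N) := by
    rw [one_mul]
    exact hPm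
  refine sa_final A0 ε τ ε' ε₁ ε₂ I N (VV (gB 1 1 2) z) (psi0 η N) 1
    (A0 * (Real.log ((1 / 2 - τ) * L / Real.log z - 1) * Real.log z / ((1 / 2 - τ) * L)) - ε')
    (Real.log ((1 / 2 - τ) * L / Real.log z - 1) * Real.log z / ((1 / 2 - τ) * L))
    (C * (N / L ^ (kV + 1))) _ hA0 hI1 hNpos hVpos one_pos hPm' rfl hf1 hf2 hf3 hε'0.le
    (by linarith) hε₁0.le ?_ hErrUU ?_
  · have h6 : 4 * A0 * τ ≤ ε / 4 := by
      have h7 : τ * (16 * (A0 + 1)) ≤ ε := by
        rw [le_div_iff₀ (by positivity)] at hτ2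
        exact hτ2
      nlinarith
    have h8 : 2 * ε₁ * (A0 + 1) = ε / 8 := by
      rw [hε₁def]
      field_simp
      norm_num
    rw [h8, hε₂def]
    linarith
  · have h6 : ∑ d ∈ Icc 1 (N ^ 2), |c d| * (((3 : ℕ) : ℝ) ^ d.primeFactors.card * E d) ≤
        C * (N / L ^ (kV + 1)) := herr
    have h7 : ∑ q ∈ range (N + 1), ϖ q *
      ∑ T ∈ ((pr z).filter (fun l => q % l ∈ OmA 1 1 2 l)).powerset, c (∏ l ∈ T, l) ≤
      ∑ q ∈ (range (N + 1)).filter (fun q => ∀ l ∈ pr z, q % l ∉ OmA 1 1 2 l), ϖ q :=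
      hsift
    rw [sub_le_iff_le_add, add_comm]
    exact hlow.trans ((sub_le_iff_le_add.1 hgen2).trans (add_le_add h6 h7))

end Pool.Agent.TCH
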