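import Pool.Agent.TCH.Stmts
import Pool.Agent.CH.SP

set_option autoImplicit false

/-!
# TCH / TSP

The upper bound for the sum over the primes `p` in `(zN, yN]` of the sifted sums over the `q`
divisible by `p` (twin version of `Pool/Agent/CH/SP.lean`).
-/

namespace Pool.Agent.TCH

open Finset Filter Pool.Agent.MT Pool.Agent.CH

/-- the density of a squarefree modulus -/
theorem TSP_density (d : ℕ) (hd : Squarefree d) :
    1 / (d.totient : ℝ) * ∏ l ∈ d.primeFactors, ((OmA 1 1 2 l).card : ℝ) =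
      ∏ l ∈ d.primeFactors, gA 1 1 2 l := by
  have h := SP_density 1 1 2 d hd
  rw [one_mul, Nat.totient_one, Nat.cast_one, div_one, one_mul] at h
  exact h

theorem TSP_psi0_nonneg {η : ℝ → ℝ} (hη : IsWt η) (N : ℕ) : 0 ≤ psi0 η N :=
  sum_nonneg fun _ _ => mul_nonneg ArithmeticFunction.vonMangoldt_nonneg (hη.nonneg _)

/-- the sieve bound for one prime `p > 2` -/
theorem TSP_one (h2 : St_Gen) {η : ℝ → ℝ} (hη : IsWt η) {z N p : ℕ} {θ : ℝ} (hN : 1 ≤ N)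
    (hθ : θ ≤ 1) (hp : p.Prime) (hzp : z < p) (hp2 : 2 < p)
    (hcard : ∀ l : ℕ, l.Prime → (OmA 1 1 2 l).card ≤ 3)
    (E : ℕ → ℝ) (hE0 : ∀ d, 0 ≤ E d)
    (hE : ∀ d c : ℕ, 1 ≤ d → (d : ℝ) ≤ (N : ℝ) ^ θ → c < d →
      (∀ l ∈ d.primeFactors, c % l ≠ 2 % l) →
      |T2AP η N d c - psi0 η N / (d.totient : ℝ)| ≤ E d)
    (c : ℕ → ℝ)
    (hc1 : ∀ d, c d ≠ 0 → Squarefree d ∧ (∀ l ∈ d.primeFactors, l ≤ z) ∧
      ((p * d : ℕ) : ℝ) ≤ (N : ℝ) ^ θ)
    (hc4 : ∀ S : Finset ℕ, S ⊆ pr z → (if S = ∅ then (1 : ℝ) else 0) ≤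
      ∑ T ∈ S.powerset, c (∏ l ∈ T, l))
    {V : ℝ} (hc3 : ∑ d ∈ Icc 1 (N ^ 2), c d * ∏ l ∈ d.primeFactors, gA 1 1 2 l ≤ V) :
    ∑ q ∈ (range (N + 1)).filter (fun q => (∀ l ∈ pr z, q % l ∉ OmA 1 1 2 l) ∧ p ∣ q),
      lam (q - 2) * η ((q : ℝ) / N) ≤
      psi0 η N / ((p : ℝ) - 1) * V +
        ∑ d ∈ Icc 1 (N ^ 2), |c d| * ((3 : ℝ) ^ d.primeFactors.card * E (p * d)) := by
  classical
  have hN1 : (1 : ℝ) ≤ N := by exact_mod_cast hN
  have hNθ : (N : ℝ) ^ θ ≤ N := by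
    calc (N : ℝ) ^ θ ≤ (N : ℝ) ^ (1 : ℝ) := Real.rpow_le_rpow_of_exponent_le hN1 hθ
      _ = N := Real.rpow_one _
  have hpd : ∀ d, c d ≠ 0 → p * d ≤ N ∧ 1 ≤ d ∧ p.Coprime d := by
    intro d hd
    obtain ⟨h3, h4, h5⟩ := hc1 d hd
    refine ⟨by exact_mod_cast h5.trans hNθ, Nat.pos_of_ne_zero h3.ne_zero, ?_⟩
    rw [Nat.Prime.coprime_iff_not_dvd hp]
    intro h6
    have := h4 p (Nat.mem_primeFactors.2 ⟨hp, h6, h3.ne_zero⟩)
    omega
  set ϖ : ℕ → ℝ := fun q => if p ∣ q then lam (q - 2) * η ((q : ℝ) / N) else 0 with hϖ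
  have hterm : ∀ q : ℕ, 0 ≤ lam (q - 2) * η ((q : ℝ) / N) := fun q =>
    mul_nonneg (SP_lam_nonneg _) (hη.nonneg _)
  have hstep1 : ∑ q ∈ (range (N + 1)).filter
      (fun q => (∀ l ∈ pr z, q % l ∉ OmA 1 1 2 l) ∧ p ∣ q),
      lam (q - 2) * η ((q : ℝ) / N) ≤ ∑ q ∈ range (N + 1), ϖ q *
        ∑ T ∈ ((pr z).filter (fun l => q % l ∈ OmA 1 1 2 l)).powerset, c (∏ l ∈ T, l) := by
    rw [sum_filter]
    refine sum_le_sum fun q _ => ?_
    have hS := hc4 ((pr z).filter (fun l => q % l ∈ OmA 1 1 2 l)) (filter_subset _ _)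
    simp only [hϖ]
    by_cases hpq : p ∣ q
    · rw [if_pos hpq]
      by_cases h3 : ∀ l ∈ pr z, q % l ∉ OmA 1 1 2 l
      · rw [if_pos ⟨h3, hpq⟩]
        rw [if_pos (filter_eq_empty_iff.2 h3)] at hS
        exact le_mul_of_one_le_right (hterm q) hS
      · rw [if_neg (fun h => h3 h.1)]
        refine mul_nonneg (hterm q) (le_trans ?_ hS)
        split_ifs <;> norm_num
    · rw [if_neg hpq, zero_mul, if_neg (fun h => hpq h.2)]
  have hgen := h2 ϖ c (fun d => 1 / ((p * d).totient : ℝ)) (fun d => E (p * d))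
    (OmA 1 1 2) (pr z) N (N ^ 2) 3 (psi0 η N)
    (fun l hl => (mem_filter.1 hl).2)
    (fun l hl => ⟨filter_subset _ _, hcard l (mem_filter.1 hl).2⟩)
    (by
      intro d hd
      obtain ⟨h3, h4, -⟩ := hc1 d hd
      obtain ⟨h6, h7, -⟩ := hpd d hd
      refine ⟨h3, ?_, ?_⟩
      · intro l hl
        exact mem_filter.2 ⟨mem_range.2 (Nat.lt_succ_of_le (h4 l hl)),
          Nat.prime_of_mem_primeFactors hl⟩
      · have h8 : d ≤ p * d := Nat.le_mul_of_pos_left d hp.pos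
        nlinarith)
    (fun d => hE0 _)
    (by
      intro d hd a had hal
      obtain ⟨h3, h4, h5⟩ := hc1 d hd
      obtain ⟨h6, h7, h8⟩ := hpd d hd
      obtain ⟨c', hc'1, hc'2, hc'3, hc'4⟩ := SP_crt hp h8 had
      have hsum : ∑ q ∈ (range (N + 1)).filter (fun q => q % d = a), ϖ q =
          T2AP η N (p * d) c' := by
        unfold T2AP
        simp only [hϖ]
        rw [← sum_filter, filter_filter]
        refine sum_congr ?_ fun _ _ => rfl
        ext q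
        simp only [mem_filter]
        rw [hc'4 q]
      have hcop : ∀ l ∈ (p * d).primeFactors, c' % l ≠ 2 % l := by
        intro l hl
        have hlp := Nat.prime_of_mem_primeFactors hl
        rcases (Nat.Prime.dvd_mul hlp).1 (Nat.dvd_of_mem_primeFactors hl) with h9 | h9
        · have h10 : l = p := (Nat.prime_dvd_prime_iff_eq hlp hp).1 h9
          rw [h10, Nat.mod_eq_zero_of_dvd hc'3, Nat.mod_eq_of_lt hp2]
          norm_num
        · have h10 := hal l (Nat.mem_primeFactors.2 ⟨hlp, h9, h3.ne_zero⟩)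
          have h11 := (mem_filter.1 h10).2.2
          rw [one_mul, Nat.mod_mod] at h11
          have h12 : c' % d % l = a % l := by rw [hc'2]
          rw [Nat.mod_mod_of_dvd _ h9] at h12
          rw [h12]
          exact h11
      have hE' := hE (p * d) c' (Nat.mul_pos hp.pos h7) h5 hc'1 hcop
      rw [hsum]
      simp only [mul_one_div]
      exact hE')
  have hmain : ∑ d ∈ Icc 1 (N ^ 2), c d * (1 / ((p * d).totient : ℝ) *
      ∏ l ∈ d.primeFactors, ((OmA 1 1 2 l).card : ℝ)) =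
      1 / ((p : ℝ) - 1) *
        ∑ d ∈ Icc 1 (N ^ 2), c d * ∏ l ∈ d.primeFactors, gA 1 1 2 l := by
    rw [mul_sum]
    refine sum_congr rfl fun d _ => ?_
    by_cases hd : c d = 0
    · rw [hd, zero_mul, zero_mul, mul_zero]
    · obtain ⟨h3, h4, h5⟩ := hc1 d hd
      obtain ⟨h6, h7, h8⟩ := hpd d hd
      have h9 : (p * d).totient = (p - 1) * d.totient :=
        Nat.totient_mul_of_prime_of_not_dvd hp fun h =>
          (Nat.Prime.coprime_iff_not_dvd hp).1 h8 h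
      have h10 := TSP_density d h3
      rw [h9, Nat.cast_mul, Nat.cast_sub hp.one_le, Nat.cast_one]
      have h11 : 1 / (((p : ℝ) - 1) * (d.totient : ℝ)) *
          ∏ l ∈ d.primeFactors, ((OmA 1 1 2 l).card : ℝ) = 1 / ((p : ℝ) - 1) *
          (1 / (d.totient : ℝ) * ∏ l ∈ d.primeFactors, ((OmA 1 1 2 l).card : ℝ)) := by
        rw [← mul_assoc, one_div_mul_one_div]
      rw [h11, h10]
      ring
  have hM := TSP_psi0_nonneg hη N
  have hp1 : (0 : ℝ) < (p : ℝ) - 1 := by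
    have : (2 : ℝ) ≤ p := by exact_mod_cast hp.two_le
    linarith
  have hcoef : 0 ≤ psi0 η N / ((p : ℝ) - 1) := div_nonneg hM hp1.le
  have h3 := (abs_le.1 hgen).2
  rw [hmain] at h3
  have h4 : psi0 η N * (1 / ((p : ℝ) - 1) *
      ∑ d ∈ Icc 1 (N ^ 2), c d * ∏ l ∈ d.primeFactors, gA 1 1 2 l) ≤
      psi0 η N / ((p : ℝ) - 1) * V := by
    rw [← mul_assoc, mul_one_div]
    exact mul_le_mul_of_nonneg_left hc3 hcoef
  have h5 : ∑ d ∈ Icc 1 (N ^ 2), |c d| * (((3 : ℕ) : ℝ) ^ d.primeFactors.card * E (p * d)) =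
      ∑ d ∈ Icc 1 (N ^ 2), |c d| * ((3 : ℝ) ^ d.primeFactors.card * E (p * d)) := by
    norm_num
  rw [h5] at h3
  linarith

/-- the density is admissible for the sieve -/
theorem TSP_Dns (h4 : St_Dens) (w z : ℕ) (hw : 1 ≤ w) : Dns w z 1 (gA 1 1 2) := by
  obtain ⟨d1, d2, -⟩ := h4 1 1 2 le_rfl (Nat.coprime_one_right 2) rfl
  have hl1 : ∀ l : ℕ, l.Prime → ¬ l ∣ 1 := fun l hl h => hl.one_lt.ne' (Nat.dvd_one.1 h)
  refine ⟨fun l hl => ?_, fun l hl hwl _ => ?_, ?_⟩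
  · obtain ⟨-, -, e1, e2, e3, -⟩ := d1 l hl
    exact ⟨e1, e2, e3⟩
  · obtain ⟨-, e1, e2⟩ := d2 l hl hl.one_lt (hl1 l hl)
    by_cases h : l ∣ 2
    · exact Or.inl (e1 h)
    · exact Or.inr (e2 h)
  · have h5 : (pr z).filter (fun l => w < l ∧ gA 1 1 2 l = 0) ⊆ {2} := by
      intro l hl
      obtain ⟨f1, f2, f3⟩ := mem_filter.1 hl
      have hlp : l.Prime := (mem_filter.1 f1).2
      rw [mem_singleton]
      by_contra h
      have h6 : ¬ l ∣ 2 := fun h7 => h ((Nat.prime_dvd_prime_iff_eq hlp Nat.prime_two).1 h7)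
      obtain ⟨-, -, e2⟩ := d2 l hlp hlp.one_lt (hl1 l hlp)
      rw [e2 h6] at f3
      have : (2 : ℝ) ≤ l := by exact_mod_cast hlp.two_le
      have h5 : (0 : ℝ) < 1 / ((l : ℝ) - 1) := by
        apply div_pos one_pos
        linarith
      linarith
    refine (card_le_card h5).trans ?_
    rw [card_singleton]

/-- keep this signature -/
theorem thm_TSP (A0 : ℝ) (hA0 : 0 < A0) (h0 : St_LinU A0) (h1 : St_TBV) (h2 : St_Gen)
    (h3 : St_VLow) (h4 : St_Dens) (h5 : St_P1) (h6 : St_ASum) : St_TSP A0 := by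
  classical
  intro η hη ε hε
  obtain ⟨L0, L1⟩ := SP_log6
  set L : ℝ := Real.log 6 / 4 with hL
  set t : ℝ := min (1 / 2) (ε / (6 * A0 + 12)) with ht
  have ht0 : 0 < t := lt_min (by norm_num) (by positivity)
  have ht2 : t ≤ 1 / 2 := min_le_left _ _
  have ht3 : t * (6 * A0 + 12) ≤ ε := by
    have : t ≤ ε / (6 * A0 + 12) := min_le_right _ _
    rwa [le_div_iff₀ (by positivity)] at this
  obtain ⟨τ₀, hτ₀, hτall⟩ := h6 t ht0
  set τ : ℝ := min τ₀ (1 / 100) with hτd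
  have hτ : 0 < τ := lt_min hτ₀ (by norm_num)
  have hτ1 : τ ≤ 1 / 100 := min_le_right _ _
  have hASum := hτall τ hτ.le (min_le_left _ _)
  set e1 : ℝ := min t (τ / 2) with he1
  have he0 : 0 < e1 := lt_min ht0 (by linarith)
  have het : e1 ≤ t := min_le_left _ _
  have heτ : e1 ≤ τ / 2 := min_le_right _ _
  obtain ⟨δ₀, C, hδ₀, hLin⟩ := h0 e1 he0
  obtain ⟨c0, k, hc0, hVL⟩ := h3
  set δ : ℝ := min δ₀ (1 / 8) with hδd
  have hδ : 0 < δ := lt_min hδ₀ (by norm_num)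
  have hδa : δ ≤ δ₀ := min_le_left _ _
  have hδb : δ ≤ 1 / 8 := min_le_right _ _
  set θ : ℝ := 1 / 2 - τ / 2 with hθ
  have hI := SP_int_ge hη
  have hP1 := h5 η hη t ht0
  set I : ℝ := ∫ u in (0 : ℝ)..1, η u with hIdef
  have hABV := h1 η hη θ (by linarith) (by linarith) (k + 1) (6 * C + 6)
  filter_upwards [SP_sizes hτ hτ1 hδ hδb 0, hASum, hLin δ hδ hδa 1, hABV, hP1,
    SP_logdiv (8 * C / (ε * c0)), SP_logdiv 1]
    with N hsz hAS hLU hAB hPN hf2 hf3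
  obtain ⟨s1, s2, s3, s4, s5, s6, s7, s8, s9, s10⟩ := hsz
  obtain ⟨E, hE0, hE1, hE2⟩ := hAB
  have hN1 : (1 : ℝ) < N := by exact_mod_cast (by omega : 1 < N)
  have hN0 : (0 : ℝ) < N := by linarith
  have hlogN : 0 < Real.log N := by linarith
  set z := zN N with hz
  set y := yN N with hy
  obtain ⟨d1, d2, d3⟩ := h4 1 1 2 le_rfl (Nat.coprime_one_right 2) rfl
  have hw1 : 1 ≤ ⌊(N : ℝ) ^ δ⌋₊ := by
    rw [Nat.one_le_floor_iff]
    exact Real.one_le_rpow hN1.le hδ.le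
  have hDns : Dns ⌊(N : ℝ) ^ δ⌋₊ z 1 (gA 1 1 2) := TSP_Dns h4 _ _ hw1
  have hθ1 : θ ≤ 1 := by rw [hθ]; linarith
  set Q := (pr y).filter (fun p => z < p) with hQ
  have hQp : ∀ p ∈ Q, p.Prime ∧ z < p ∧ p ≤ y := by
    intro p hp
    obtain ⟨a1, a2⟩ := mem_filter.1 hp
    obtain ⟨a3, a4⟩ := mem_filter.1 a1
    exact ⟨a4, a2, Nat.lt_succ_iff.1 (mem_range.1 a3)⟩
  have hzpos : (0 : ℝ) < z := by
    have : (2 : ℝ) ≤ z := by exact_mod_cast s3
    linarith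
  have hlogz0 : 0 < Real.log z := Real.log_pos (by
    have : (2 : ℝ) ≤ z := by exact_mod_cast s3
    linarith)
  have hlogz : Real.log z ≤ Real.log N / 8 := by
    have a1 := Real.log_le_log hzpos s4
    rw [Real.log_rpow hN0] at a1
    linarith
  -- sizes for a prime of `Q`
  have hpsz : ∀ p ∈ Q, (0 : ℝ) < (p : ℝ) - 1 ∧ (N : ℝ) ^ (1 / 8 : ℝ) < p ∧
      (z : ℝ) ≤ (N : ℝ) ^ (1 / 2 - τ) / p ∧ (N : ℝ) ^ (1 / 2 - τ) / p ≤ (z : ℝ) ^ 3 ∧
      (N : ℝ) ^ (1 / 2 - τ) / p ≤ N := by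
    intro p hp
    obtain ⟨a1, a2, a3⟩ := hQp p hp
    have b0 : (0 : ℝ) < p := by exact_mod_cast a1.pos
    have b1 : (N : ℝ) ^ (1 / 8 : ℝ) < p := (Nat.floor_lt (by positivity)).1 a2
    have b2 : (p : ℝ) ≤ y := by exact_mod_cast a3
    have b3 : (N : ℝ) ^ (1 / 2 - τ) / p ≤ (N : ℝ) ^ (3 / 8 - τ) := by
      rw [div_le_iff₀ b0]
      calc (N : ℝ) ^ (1 / 2 - τ) = (N : ℝ) ^ (3 / 8 - τ) * (N : ℝ) ^ (1 / 8 : ℝ) := by
            rw [← Real.rpow_add hN0]
            congr 1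
            ring
        _ ≤ (N : ℝ) ^ (3 / 8 - τ) * p := mul_le_mul_of_nonneg_left b1.le (by positivity)
    refine ⟨?_, b1, ?_, b3.trans s6, b3.trans ?_⟩
    · have : (2 : ℝ) ≤ p := by exact_mod_cast a1.two_le
      linarith
    · rw [le_div_iff₀ b0]
      calc (z : ℝ) * p ≤ (N : ℝ) ^ (1 / 8 : ℝ) * y :=
            mul_le_mul s4 b2 b0.le (by positivity)
        _ ≤ _ := s5
    · calc (N : ℝ) ^ (3 / 8 - τ) ≤ (N : ℝ) ^ (1 : ℝ) :=
            Real.rpow_le_rpow_of_exponent_le hN1.le (by linarith)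
        _ = N := Real.rpow_one _
  have hLc : ∀ p, ∃ c : ℕ → ℝ, p ∈ Q → 
      (∀ d, c d ≠ 0 → Squarefree d ∧ (∀ l ∈ d.primeFactors, l ≤ z) ∧
        (d : ℝ) ≤ (N : ℝ) ^ (1 / 2 - τ) / p * (N : ℝ) ^ e1) ∧
      (∀ d, |c d| ≤ C * (C : ℝ) ^ d.primeFactors.card) ∧
      (∑ d ∈ Icc 1 (N ^ 2), c d * ∏ l ∈ d.primeFactors, gA 1 1 2 l ≤
        VV (gA 1 1 2) z * (A0 * Real.log z / Real.log ((N : ℝ) ^ (1 / 2 - τ) / p) + e1)) ∧
      ∀ S : Finset ℕ, S ⊆ pr z → (if S = ∅ then (1 : ℝ) else 0) ≤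
        ∑ T ∈ S.powerset, c (∏ l ∈ T, l) := by
    intro p
    by_cases hp : p ∈ Q
    · obtain ⟨-, -, a1, a2, a3⟩ := hpsz p hp
      obtain ⟨c, hc⟩ := hLU z ((N : ℝ) ^ (1 / 2 - τ) / p) s2 a1 a2 a3 (gA 1 1 2) hDns
      exact ⟨c, fun _ => hc⟩
    · exact ⟨0, fun h => absurd h hp⟩
  choose c hc using hLc
  have hc1 : ∀ p ∈ Q, ∀ d, c p d ≠ 0 → Squarefree d ∧ (∀ l ∈ d.primeFactors, l ≤ z) ∧
      ((p * d : ℕ) : ℝ) ≤ (N : ℝ) ^ θ := by
    intro p hp d hd
    obtain ⟨a1, a2, a3⟩ := (hc p hp).1 d hd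
    refine ⟨a1, a2, ?_⟩
    have b0 : (0 : ℝ) < p := by exact_mod_cast (hQp p hp).1.pos
    push_cast
    calc (p : ℝ) * d ≤ p * ((N : ℝ) ^ (1 / 2 - τ) / p * (N : ℝ) ^ e1) :=
          mul_le_mul_of_nonneg_left a3 b0.le
      _ = (N : ℝ) ^ (1 / 2 - τ) * (N : ℝ) ^ e1 := by
          field_simp
      _ = (N : ℝ) ^ (1 / 2 - τ + e1) := (Real.rpow_add hN0 _ _).symm
      _ ≤ (N : ℝ) ^ θ := Real.rpow_le_rpow_of_exponent_le hN1.le (by rw [hθ]; linarith)
  have hVA0 : 0 ≤ VV (gA 1 1 2) z := by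
    refine prod_nonneg fun l hl => ?_
    obtain ⟨-, -, -, a1, -⟩ := d1 l (mem_filter.1 hl).2
    linarith
  -- each prime
  have hgood : ∀ p ∈ Q,
      ∑ q ∈ (range (N + 1)).filter (fun q => (∀ l ∈ pr z, q % l ∉ OmA 1 1 2 l) ∧ p ∣ q),
        lam (q - 2) * η ((q : ℝ) / N) ≤
      psi0 η N * VV (gA 1 1 2) z *
        ((A0 + 3 * t) * (1 / (((p : ℝ) - 1) *
          (8 * (1 / 2 - τ - Real.log p / Real.log N))))) +
        ∑ d ∈ Icc 1 (N ^ 2), |c p d| * ((3 : ℝ) ^ d.primeFactors.card * E (p * d)) := by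
    intro p hpQ
    obtain ⟨a1, a2, a3⟩ := hQp p hpQ
    obtain ⟨b1, b2, b3, b4, b5⟩ := hpsz p hpQ
    obtain ⟨-, -, c3, c4⟩ := hc p hpQ
    have hone := TSP_one h2 hη (z := z) (N := N) (θ := θ)
      (by omega) hθ1 a1 a2 (by omega) (fun l hl => (d1 l hl).1) E hE0 hE1 (c p) (hc1 p hpQ) c4 c3
    refine hone.trans (add_le_add ?_ le_rfl)
    have hu : Real.log ((N : ℝ) ^ (1 / 2 - τ) / p) =
        Real.log N * (1 / 2 - τ - Real.log p / Real.log N) := by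
      have b0 : (p : ℝ) ≠ 0 := by exact_mod_cast a1.ne_zero
      rw [Real.log_div (by positivity) b0, Real.log_rpow hN0]
      field_simp
    set u : ℝ := 1 / 2 - τ - Real.log p / Real.log N with hudef
    have hu0 : 0 < u := by
      have e2 : 0 < Real.log ((N : ℝ) ^ (1 / 2 - τ) / p) := by
        refine lt_of_lt_of_le hlogz0 (Real.log_le_log hzpos b3)
      rw [hu] at e2
      exact (mul_pos_iff_of_pos_left hlogN).1 e2
    have hu1 : u ≤ 3 / 8 := by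
      have e2 : 1 / 8 * Real.log N ≤ Real.log p := by
        have := Real.log_le_log (by positivity) b2.le
        rwa [Real.log_rpow hN0] at this
      have e3 : 1 / 8 ≤ Real.log p / Real.log N := by
        rw [le_div_iff₀ hlogN]
        exact e2
      rw [hudef]
      linarith
    rw [hu]
    have hkey : A0 * Real.log z / (Real.log N * u) + e1 ≤ (A0 + 3 * t) * (1 / (8 * u)) := by
      have e2 : A0 * Real.log z / (Real.log N * u) ≤ A0 * (1 / (8 * u)) := by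
        rw [mul_one_div, div_le_div_iff₀ (by positivity) (by positivity)]
        have : A0 * Real.log z ≤ A0 * (Real.log N / 8) := mul_le_mul_of_nonneg_left hlogz hA0.le
        nlinarith
      have e3 : e1 ≤ 3 * t * (1 / (8 * u)) := by
        rw [mul_one_div, le_div_iff₀ (by positivity)]
        nlinarith
      linarith [add_mul A0 (3 * t) (1 / (8 * u))]
    have hcoef : 0 ≤ psi0 η N / ((p : ℝ) - 1) * VV (gA 1 1 2) z :=
      mul_nonneg (div_nonneg (TSP_psi0_nonneg hη _) b1.le) hVA0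
    calc psi0 η N / ((p : ℝ) - 1) *
          (VV (gA 1 1 2) z * (A0 * Real.log z / (Real.log N * u) + e1)) =
          psi0 η N / ((p : ℝ) - 1) * VV (gA 1 1 2) z *
            (A0 * Real.log z / (Real.log N * u) + e1) := by ring
      _ ≤ psi0 η N / ((p : ℝ) - 1) * VV (gA 1 1 2) z *
            ((A0 + 3 * t) * (1 / (8 * u))) := mul_le_mul_of_nonneg_left hkey hcoef
      _ = _ := by
          rw [← one_div_mul_one_div ((p : ℝ) - 1) (8 * u)]
          ring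
  have herr := SP_err (N := N) (z := z) (C := C) (θ := θ) (by omega) hθ1
    Q (fun p hp => ⟨(hQp p hp).1, (hQp p hp).2.1⟩) c hc1
    (fun p hp => (hc p hp).2.1) E hE0
  have hsplit : ∑ p ∈ Q,
      ∑ q ∈ (range (N + 1)).filter (fun q => (∀ l ∈ pr z, q % l ∉ OmA 1 1 2 l) ∧ p ∣ q),
        lam (q - 2) * η ((q : ℝ) / N) ≤
      psi0 η N * VV (gA 1 1 2) z * ((A0 + 3 * t) * (L + t)) +
        C * (N / Real.log N ^ (k + 1)) := by
    refine (sum_le_sum hgood).trans ?_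
    rw [sum_add_distrib]
    have hcoef : 0 ≤ psi0 η N * VV (gA 1 1 2) z :=
      mul_nonneg (TSP_psi0_nonneg hη _) hVA0
    refine add_le_add ?_ ?_
    · rw [← mul_sum, ← mul_sum]
      refine mul_le_mul_of_nonneg_left ?_ hcoef
      exact mul_le_mul_of_nonneg_left hAS (by positivity)
    · refine herr.trans ?_
      exact mul_le_mul_of_nonneg_left hE2 (Nat.cast_nonneg _)
  refine hsplit.trans ?_
  -- the main term
  have hVB := d3 z (le_refl 1) (by omega)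
  rw [Nat.totient_one, Nat.cast_one, div_one, one_mul] at hVB
  have hVB0 : c0 / Real.log N ^ k ≤ VV (gB 1 1 2) z := by
    have a1 := hVL z (gB 1 1 2) s3 fun l hl => by
      obtain ⟨-, -, -, -, -, e2, e3, e4⟩ := d1 l hl
      exact ⟨e2, e3, e4⟩
    refine le_trans ?_ a1
    have a2 : Real.log z ≤ Real.log N := by linarith
    exact div_le_div_of_nonneg_left hc0.le (pow_pos hlogz0 k) (pow_le_pow_left₀ hlogz0.le a2 k)
  have hVBpos : 0 < VV (gB 1 1 2) z := lt_of_lt_of_le (by positivity) hVB0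
  have hpsi : psi0 η N ≤ (1 + 2 * t) * (I * N) := by
    have a2 := (abs_le.1 hPN).2
    have a4 : t * N ≤ 2 * t * (I * N) := by
      have : t * N * (1 / 2) ≤ t * N * I :=
        mul_le_mul_of_nonneg_left hI (by positivity)
      nlinarith
    nlinarith
  have hUU : U2 η N = I * N * VV (gB 1 1 2) z := rfl
  have hUU0 : 0 < U2 η N := by
    rw [hUU]
    have : 0 < I := by linarith
    positivity
  have hmain : psi0 η N * VV (gA 1 1 2) z *
      ((A0 + 3 * t) * (L + t)) ≤ (A0 * L + ε / 2) * U2 η N := by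
    have a3 : psi0 η N * VV (gA 1 1 2) z ≤ (1 + 2 * t) * U2 η N := by
      rw [hVB, hUU]
      calc psi0 η N * VV (gB 1 1 2) z ≤ (1 + 2 * t) * (I * N) * VV (gB 1 1 2) z :=
            mul_le_mul_of_nonneg_right hpsi hVBpos.le
        _ = _ := by ring
    have a4 : 0 ≤ (A0 + 3 * t) * (L + t) := by positivity
    calc psi0 η N * VV (gA 1 1 2) z *
          ((A0 + 3 * t) * (L + t)) ≤ (1 + 2 * t) * U2 η N * ((A0 + 3 * t) * (L + t)) :=
          mul_le_mul_of_nonneg_right a3 a4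
      _ = (1 + 2 * t) * ((A0 + 3 * t) * (L + t)) * U2 η N := by ring
      _ ≤ _ := mul_le_mul_of_nonneg_right (SP_num hA0 L0 L1 ht0.le ht2 ht3) hUU0.le
  -- the error terms
  have hUlow : 1 / 2 * N * (c0 / Real.log N ^ k) ≤ U2 η N := by
    rw [hUU]
    exact mul_le_mul (mul_le_mul_of_nonneg_right hI hN0.le) hVB0 (by positivity)
      (mul_nonneg (by linarith) hN0.le)
  have hL0 : 0 < Real.log N ^ k := pow_pos hlogN k
  have hεc : 0 < ε * c0 := mul_pos hε hc0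
  have herr2 : C * (N / Real.log N ^ (k + 1)) ≤ ε / 8 * (N * (c0 / Real.log N ^ k)) := by
    rw [div_le_iff₀ hεc] at hf2
    have a1 : ε / 8 * (N * (c0 / Real.log N ^ k)) = N / (8 * Real.log N ^ k) * (ε * c0) := by
      field_simp
    have a2 : C * (N / Real.log N ^ (k + 1)) = N / (8 * Real.log N ^ k) *
        (8 * C / Real.log N) := by
      rw [pow_succ]
      field_simp
    rw [a1, a2]
    refine mul_le_mul_of_nonneg_left ?_ (by positivity)
    rw [div_le_iff₀ hlogN]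
    linarith
  have herr3 : ε / 8 * (N * (c0 / Real.log N ^ k)) ≤ ε / 2 * U2 η N := by
    have a1 := mul_le_mul_of_nonneg_left hUlow (by linarith : 0 ≤ ε / 2)
    have a2 : 0 ≤ ε / 8 * (N * (c0 / Real.log N ^ k)) := by positivity
    nlinarith
  have hfin : (A0 * L + ε / 2) * U2 η N + ε / 2 * U2 η N = (A0 * L + ε) * U2 η N := by ring
  linarith

end Pool.Agent.TCH
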