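import Pool.Agent.TCH.Stmts
import Pool.Agent.GBQ.RhoLow

/-!
# TCH / TVL

`∏_{2 < l ≤ z} (1 - 1/(l-1)) ≥ c / log z`, from `GBQ.thm_RhoLow`.
-/

set_option autoImplicit false

namespace Pool.Agent.TCH

open Finset Filter Pool.Agent.MT Pool.Agent.CH

private lemma tvl_step (z : ℕ) (f : ℕ → ℝ) :
    ∏ l ∈ (range (z + 1 + 1)).filter Nat.Prime, f l =
      (∏ l ∈ (range (z + 1)).filter Nat.Prime, f l) * (if (z + 1).Prime then f (z + 1) else 1) := by
  rw [Finset.range_add_one (n := z + 1), Finset.filter_insert]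
  split_ifs with h
  · rw [Finset.prod_insert (by simp), mul_comm]
  · rw [mul_one]

private lemma tvl_ind (g : ℕ → ℝ) (h2 : g 2 = 0)
    (hg : ∀ l : ℕ, l.Prime → 2 < l → g l = 1 / ((l : ℝ) - 1)) (z : ℕ) (hz : 2 ≤ z) :
    (z : ℝ) / (2 * ((z : ℝ) - 1)) * (∏ l ∈ (range (z + 1)).filter Nat.Prime, (1 - 1 / (l : ℝ))) ≤
      ∏ l ∈ (range (z + 1)).filter Nat.Prime, (1 - g l) := by
  induction z, hz using Nat.le_induction with
  | base =>
    have h : (range (2 + 1)).filter Nat.Prime = {2} := by decide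
    rw [h, Finset.prod_singleton, Finset.prod_singleton, h2]
    norm_num
  | succ n hn ih =>
    have hn' : (2 : ℝ) ≤ n := by exact_mod_cast hn
    have h0 : 0 ≤ ∏ l ∈ (range (n + 1)).filter Nat.Prime, (1 - 1 / (l : ℝ)) := by
      refine Finset.prod_nonneg fun l hl => ?_
      have h1 : 1 < l := (Finset.mem_filter.1 hl).2.one_lt
      have h3 : (1 : ℝ) < l := by exact_mod_cast h1
      rw [sub_nonneg, div_le_one (by linarith)]
      exact h3.le
    rw [tvl_step, tvl_step]
    set R := ∏ l ∈ (range (n + 1)).filter Nat.Prime, (1 - 1 / (l : ℝ))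
    set W := ∏ l ∈ (range (n + 1)).filter Nat.Prime, (1 - g l)
    have hn1 : (0 : ℝ) < (n : ℝ) - 1 := by linarith
    have hn0 : (0 : ℝ) < (n : ℝ) := by linarith
    split_ifs with hp
    · rw [hg (n + 1) hp (by omega)]
      push_cast
      have e1 : ((n : ℝ) + 1) / (2 * ((n : ℝ) + 1 - 1)) * (R * (1 - 1 / ((n : ℝ) + 1))) = R / 2 := by
        rw [add_sub_cancel_right]
        have hn2 : (n : ℝ) + 1 ≠ 0 := by linarith
        field_simp
        ring
      have e2 : (n : ℝ) / (2 * ((n : ℝ) - 1)) * R * (1 - 1 / ((n : ℝ) + 1 - 1)) = R / 2 := by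
        rw [add_sub_cancel_right]
        have hn2 : (n : ℝ) - 1 ≠ 0 := hn1.ne'
        have hn3 : 1 - 1 / (n : ℝ) = ((n : ℝ) - 1) / n := by
          field_simp
        rw [hn3]
        field_simp
      rw [e1, ← e2]
      refine mul_le_mul_of_nonneg_right ih ?_
      rw [add_sub_cancel_right, sub_nonneg, div_le_one hn0]
      linarith
    · rw [mul_one, mul_one]
      refine le_trans (mul_le_mul_of_nonneg_right ?_ h0) ih
      push_cast
      rw [div_le_div_iff₀ (by linarith) (by linarith)]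
      nlinarith

/-- Mertens, lower bound -/
theorem thm_TVL (h4 : St_Dens) : St_TVL := by
  obtain ⟨c, hc, h⟩ := Pool.Agent.GBQ.thm_RhoLow
  refine ⟨c / 2, by positivity, fun z hz => ?_⟩
  have hD := (h4 1 1 2 le_rfl (by decide) (by decide)).2.1
  have hg2 : gB 1 1 2 2 = 0 := by
    have h1 := hD 2 Nat.prime_two (by norm_num) (by norm_num)
    rw [h1.1]
    exact h1.2.1 (dvd_refl 2)
  have hg : ∀ l : ℕ, l.Prime → 2 < l → gB 1 1 2 l = 1 / ((l : ℝ) - 1) := by
    intro l hl h2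
    have h1 := hD l hl (by omega) (fun hd => by
      have := Nat.dvd_one.1 hd
      omega)
    rw [h1.1]
    refine h1.2.2 fun hd => ?_
    have := Nat.le_of_dvd (by norm_num) hd
    omega
  have h1 := tvl_ind (gB 1 1 2) hg2 hg z hz
  have h2 := h z hz
  unfold Pool.Agent.GBQ.rho at h2
  have hz' : (2 : ℝ) ≤ z := by exact_mod_cast hz
  have hlog : 0 < Real.log z := Real.log_pos (by linarith)
  have h3 : (1 : ℝ) / 2 ≤ (z : ℝ) / (2 * ((z : ℝ) - 1)) := by
    rw [div_le_div_iff₀ (by norm_num) (by linarith)]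
    linarith
  have h4 : (1 : ℝ) / 2 * (c / Real.log z) ≤
      (z : ℝ) / (2 * ((z : ℝ) - 1)) * ∏ l ∈ (range (z + 1)).filter Nat.Prime, (1 - 1 / (l : ℝ)) :=
    mul_le_mul h3 h2 (by positivity) (by linarith)
  calc c / 2 / Real.log z = 1 / 2 * (c / Real.log z) := by ring
    _ ≤ _ := h4
    _ ≤ _ := h1

end Pool.Agent.TCH
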