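import Mathlib
import Pool.Agent.CH.PRed
import Pool.Agent.CH.PLC
import Pool.Agent.CH.PSW
import Pool.Agent.CH.PBV
import Pool.Agent.CH.PBVW
import Pool.Agent.CH.Gen
import Pool.Agent.CH.MR
import Pool.Agent.CH.P1
import Pool.Agent.CH.P2
import Pool.Agent.CH.BMass
import Pool.Agent.CH.cBnum
import Pool.Agent.CH.ASum
import Pool.Agent.CH.VR
import Pool.Agent.CH.VLow
import Pool.Agent.CH.Dens
import Pool.Agent.CH.Wt
import Pool.Agent.CU.LinG
import Pool.Agent.LIN.Asm
import Pool.Agent.TCH.TBV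
import Pool.Agent.TCH.TSA
import Pool.Agent.TCH.TSP
import Pool.Agent.TCH.TSB
import Pool.Agent.TCH.TVL
import Pool.Agent.TCH.TFin
import Pool.Agent.TCH.LDA
import Pool.Agent.TCH.LDB
import Pool.Agent.TCH.LDS
import Pool.Agent.TCH.LDM
import Pool.Agent.TCH.LDF
import Pool.Agent.TCH.IDX

set_option autoImplicit false

/-!
# TCH: assembly
-/

namespace Pool.Agent.TCH

open Finset Filter Pool.Agent.MT Pool.Agent.CH

/-- the linear sieve -/
theorem lin : St_Lin := (Pool.Agent.CU.thm_LinG Pool.Agent.LIN.sve Pool.Agent.LIN.thm_Cv2).2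

/-- **Chen's theorem**: at least `c N / (log N)^2` primes `p ≤ N` such that `p + 2` has at most two
prime factors. -/
theorem chen_twin : St_TChen := by
  obtain ⟨A0, hA0, hU, hL⟩ := lin
  have hPBVW := thm_PBVW (thm_PBV thm_PRed thm_PLC thm_PSW)
  exact thm_TFin ⟨A0, hA0, thm_TSA A0 hA0 hL thm_TBV thm_Gen thm_VLow thm_Dens thm_P1,
    thm_TSP A0 hA0 hU thm_TBV thm_Gen thm_VLow thm_Dens thm_P1 (thm_ASum thm_MR),
    thm_TSB A0 hA0 hU hPBVW thm_Gen thm_VLow thm_Dens (thm_BMass thm_MR thm_P2) thm_VR⟩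
    thm_cB thm_Wt (thm_TVL thm_Dens)

/-- large deviations of the number of prime factors of `p + 2` -/
theorem ld : St_LD := thm_LDF thm_LDA (thm_LDM thm_LDB thm_LDS)

theorem t1 : St_T1 := thm_IDX chen_twin ld

end Pool.Agent.TCH
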