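import Pool.Agent.TCH.IDX
import Pool.Agent.TCH.LDG

set_option autoImplicit false

/-!
# TCH IDX2: almost all `n`
-/

namespace Pool.Agent.TCH

open Finset Filter Pool.Agent.MT Pool.Agent.CH

/-- injectivity of the shifted double index -/
theorem IDX2_card {N M : ℕ} (T : ℕ → ℝ) (U : ℝ) (hTU : ∀ n, M < n → U ≤ T n) :
    ((Icc 3 N).filter (fun n => T n <
      ArithmeticFunction.cardFactors (pj (pj (n - 2)) + 2))).card ≤ M +
    ((Icc 1 (pj (pj N))).filter (fun p => p.Prime ∧ U <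
      ArithmeticFunction.cardFactors (p + 2))).card := by
  have h0 : (Icc 3 N).filter (fun n => T n <
      ArithmeticFunction.cardFactors (pj (pj (n - 2)) + 2)) ⊆
      Icc 1 M ∪ ((Icc 3 N).filter (fun n => U <
      ArithmeticFunction.cardFactors (pj (pj (n - 2)) + 2))) := by
    intro n hn
    rw [mem_filter, mem_Icc] at hn
    rw [mem_union, mem_Icc, mem_filter, mem_Icc]
    rcases le_or_gt n M with h | h
    · exact Or.inl ⟨by omega, h⟩
    · exact Or.inr ⟨hn.1, lt_of_le_of_lt (hTU n h) hn.2⟩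
  refine (card_le_card h0).trans ((card_union_le _ _).trans ?_)
  rw [Nat.card_Icc, Nat.add_sub_cancel]
  refine Nat.add_le_add_left ?_ _
  apply Finset.card_le_card_of_injOn (fun n => pj (pj (n - 2)))
  · intro n hn
    simp only [coe_filter, Set.mem_ofPred_eq, mem_Icc] at hn ⊢
    obtain ⟨⟨h1, h2⟩, h3⟩ := hn
    refine ⟨⟨?_, ?_⟩, IDX_prime _, h3⟩
    · exact (IDX_prime _).one_lt.le
    · exact IDX_mono (IDX_mono (by omega))
  · intro k hk l hl h
    simp only [coe_filter, Set.mem_ofPred_eq, mem_Icc] at hk hl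
    have h1 : pj (k - 2) = pj (l - 2) :=
      IDX_inj (IDX_prime _).one_lt.le (IDX_prime _).one_lt.le h
    have h2 := IDX_inj (by omega) (by omega) h1
    omega

/-- almost all `n = 2 + m` -/
theorem thm_IDX2 (h1 : St_LDA) (h2 : St_LDM) (K : ℝ) (hK : Real.exp 1 < K) :
    ∃ δ : ℝ, 0 < δ ∧ ∀ᶠ N : ℕ in atTop,
      (((Icc 3 N).filter (fun n : ℕ => K * Real.log (Real.log n) <
        ArithmeticFunction.cardFactors (pj (pj (n - 2)) + 2))).card : ℝ) ≤
        N / Real.log N ^ δ := by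
  obtain ⟨K', hK', hKK⟩ := exists_between hK
  obtain ⟨δ, hδ, h3⟩ := LDG_e h1 h2 K' hK'
  have hK0 : 0 < K' := lt_trans (Real.exp_pos 1) hK'
  have tx : Tendsto (fun n : ℕ => pj (pj n)) atTop atTop := by
    refine tendsto_atTop_mono' atTop ?_ tendsto_id
    filter_upwards [eventually_ge_atTop 2] with n hn
    have h3 := IDX_self_lt (j := n) (by omega)
    have h4 := IDX_self_lt (j := pj n) (by omega)
    change n ≤ pj (pj n)
    omega
  have tl : Tendsto (fun n : ℕ => Real.log n) atTop atTop :=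
    Real.tendsto_log_atTop.comp tendsto_natCast_atTop_atTop
  refine ⟨δ / 2, by positivity, ?_⟩
  have e2 := tx.eventually h3
  have e4 : ∀ᶠ n : ℕ in atTop, (K' * Real.log 3 + K * Real.log 2) / (K - K') ≤
      Real.log (Real.log n) := (Real.tendsto_log_atTop.comp tl).eventually_ge_atTop _
  have e5 : ∀ᶠ n : ℕ in atTop, 1800 ≤ Real.log n ^ (δ / 2) :=
    ((tendsto_rpow_atTop (by positivity : 0 < δ / 2)).comp tl).eventually_ge_atTop _
  have e6 : ∀ᶠ n : ℕ in atTop, 2 * Real.log n ^ (δ / 2) ≤ (n : ℝ) ^ (1 / 2 : ℝ) := by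
    have h4 := (isLittleO_log_rpow_rpow_atTop (δ / 2) (by norm_num : (0 : ℝ) < 1 / 2)).bound
      (by norm_num : (0 : ℝ) < 1 / 2)
    filter_upwards [tendsto_natCast_atTop_atTop.eventually h4,
      tendsto_natCast_atTop_atTop.eventually_ge_atTop (1 : ℝ)] with n hn hn1
    rw [Real.norm_of_nonneg (Real.rpow_nonneg (Real.log_nonneg hn1) _),
      Real.norm_of_nonneg (Real.rpow_nonneg (by linarith) _)] at hn
    linarith
  filter_upwards [e2, e4, e5, e6, eventually_ge_atTop 2560000] with n g2 g4 g5 g6 hn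
  obtain ⟨s1, s2⟩ := IDX_size hn
  have hn1 : (2560000 : ℝ) ≤ n := by exact_mod_cast hn
  have hn0 : (0 : ℝ) < n := by linarith
  have hL1 : (1 : ℝ) ≤ Real.log n := by
    rw [Real.le_log_iff_exp_le hn0]
    have := Real.exp_one_lt_d9
    linarith
  have hL0 : (0 : ℝ) < Real.log n := by linarith
  set L := Real.log n with hLdef
  set x := pj (pj n) with hx
  have hnx : n ≤ x := by
    have h3 := IDX_self_lt (j := n) (by omega)
    have h4 := IDX_self_lt (j := pj n) (by omega)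
    omega
  have hnx' : (n : ℝ) ≤ x := by exact_mod_cast hnx
  have hx0 : (0 : ℝ) < x := by linarith
  have hLx : L ≤ Real.log x := Real.log_le_log hn0 hnx'
  have hLx0 : 0 < Real.log x := by linarith
  have hTU : ∀ l : ℕ, ⌊(n : ℝ) ^ (1 / 2 : ℝ)⌋₊ < l →
      K' * Real.log (Real.log x) ≤ K * Real.log (Real.log l) := by
    intro l hl
    have h5 : (n : ℝ) ^ (1 / 2 : ℝ) ≤ l := (Nat.lt_of_floor_lt hl).le
    have h6 : L / 2 ≤ Real.log l := by
      have h7 := Real.log_le_log (Real.rpow_pos_of_pos hn0 _) h5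
      rw [Real.log_rpow hn0] at h7
      linarith
    have h7 : Real.log L - Real.log 2 ≤ Real.log (Real.log l) := by
      rw [← Real.log_div hL0.ne' (by norm_num)]
      exact Real.log_le_log (by positivity) h6
    have h8 : Real.log (Real.log x) ≤ Real.log 3 + Real.log L := by
      rw [← Real.log_mul (by norm_num) hL0.ne']
      exact Real.log_le_log hLx0 s1
    have h9 : K' * Real.log 3 + K * Real.log 2 ≤ (K - K') * Real.log L := by
      rw [div_le_iff₀ (by linarith)] at g4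
      linarith
    have h10 := mul_le_mul_of_nonneg_left h8 hK0.le
    have h11 := mul_le_mul_of_nonneg_left h7 (hK0.trans hKK).le
    nlinarith
  have k1 := IDX2_card (N := n) (M := ⌊(n : ℝ) ^ (1 / 2 : ℝ)⌋₊)
    (fun l => K * Real.log (Real.log l)) _ hTU
  rw [← hx] at k1
  have k2 : (((Icc 3 n).filter (fun l : ℕ => K * Real.log (Real.log l) <
      ArithmeticFunction.cardFactors (pj (pj (l - 2)) + 2))).card : ℝ) ≤
      (⌊(n : ℝ) ^ (1 / 2 : ℝ)⌋₊ : ℝ) + x / Real.log x ^ (2 + δ) := by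
    refine le_trans ?_ (add_le_add_right g2 _)
    exact_mod_cast k1
  have k3 : (⌊(n : ℝ) ^ (1 / 2 : ℝ)⌋₊ : ℝ) ≤ (n : ℝ) ^ (1 / 2 : ℝ) :=
    Nat.floor_le (by positivity)
  have hp0 : 0 < L ^ (δ / 2) := Real.rpow_pos_of_pos hL0 _
  have k4 : (n : ℝ) ^ (1 / 2 : ℝ) ≤ n / L ^ (δ / 2) / 2 := by
    rw [div_div, le_div_iff₀ (by positivity)]
    have h5 : (n : ℝ) = (n : ℝ) ^ (1 / 2 : ℝ) * (n : ℝ) ^ (1 / 2 : ℝ) := by
      rw [← Real.rpow_add hn0]
      norm_num
    have h6 := mul_le_mul_of_nonneg_left g6 (Real.rpow_nonneg hn0.le (1 / 2 : ℝ))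
    calc (n : ℝ) ^ (1 / 2 : ℝ) * (L ^ (δ / 2) * 2)
        = (n : ℝ) ^ (1 / 2 : ℝ) * (2 * L ^ (δ / 2)) := by ring
      _ ≤ (n : ℝ) ^ (1 / 2 : ℝ) * (n : ℝ) ^ (1 / 2 : ℝ) := h6
      _ = n := h5.symm
  have k5 : (x : ℝ) / Real.log x ^ (2 + δ) ≤ n / L ^ (δ / 2) / 2 := by
    have h3 : L ^ (2 + δ) ≤ Real.log x ^ (2 + δ) :=
      Real.rpow_le_rpow hL0.le hLx (by linarith)
    have h4 : (x : ℝ) / Real.log x ^ (2 + δ) ≤ (900 * n * L ^ 2) / L ^ (2 + δ) :=
      div_le_div₀ (by positivity) s2 (by positivity) h3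
    refine h4.trans ?_
    have h5 : L ^ (2 + δ) = L ^ 2 * (L ^ (δ / 2) * L ^ (δ / 2)) := by
      rw [← Real.rpow_add hL0, Real.rpow_add hL0]
      congr 1
      · rw [← Real.rpow_natCast]
        norm_num
      · congr 1
        ring
    rw [h5, div_div, div_le_div_iff₀ (by positivity) (by positivity)]
    have h6 : 900 * n * L ^ 2 * (L ^ (δ / 2) * 2) = (n * L ^ 2 * L ^ (δ / 2)) * 1800 := by ring
    have h7 : n * (L ^ 2 * (L ^ (δ / 2) * L ^ (δ / 2))) =
      (n * L ^ 2 * L ^ (δ / 2)) * L ^ (δ / 2) := by ring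
    rw [h6, h7]
    exact mul_le_mul_of_nonneg_left g5 (by positivity)
  refine k2.trans ?_
  linarith

end Pool.Agent.TCH
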