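import Mathlib
import Pool.Agent.TCH.Stmts
import Pool.Agent.CH.ABV

set_option autoImplicit false

/-!
# TCH / TBV

Bombieri-Vinogradov for `x = q - 2` prime in terms of `q`.
-/

namespace Pool.Agent.TCH

open Finset Filter Pool.Agent.MT Pool.Agent.CH

/-- change of variable `x = q - 2` -/
theorem tbv_bij (η : ℝ → ℝ) (hη : IsWt η) (N d c : ℕ) (hN : 1 ≤ N) (hd : 1 ≤ d) :
    T2AP η N d c = ∑ x ∈ (range (N + 1)).filter (fun x => x % d = (c + 2 * (d - 1)) % d),
      lam x * η (((x + 2 : ℕ) : ℝ) / N) := by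
  classical
  have hNR : (0 : ℝ) < N := by exact_mod_cast hN
  unfold T2AP
  symm
  have hbig : ∀ x : ℕ, N < x + 2 → η (((x + 2 : ℕ) : ℝ) / N) = 0 := by
    intro x hx
    by_contra hne
    have h1 := (hη.supp _ hne).2
    have h2 : (1 : ℝ) ≤ ((x + 2 : ℕ) : ℝ) / N := by
      rw [le_div_iff₀ hNR, one_mul]
      exact_mod_cast hx.le
    linarith
  have hiff : ∀ x : ℕ, x % d = (c + 2 * (d - 1)) % d ↔ (x + 2) % d = c % d := by
    intro x
    have h1 : (c + 2 * (d - 1) + 2) % d = c % d := by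
      have h2 : c + 2 * (d - 1) + 2 = c + d * 2 := by omega
      rw [h2, Nat.add_mul_mod_self_left]
    constructor
    · intro h
      have h3 : x ≡ c + 2 * (d - 1) [MOD d] := h
      have h4 : x + 2 ≡ c + 2 * (d - 1) + 2 [MOD d] := h3.add_right 2
      exact h4.trans h1
    · intro h
      have h3 : x + 2 ≡ c + 2 * (d - 1) + 2 [MOD d] := h.trans h1.symm
      exact Nat.ModEq.add_right_cancel' 2 h3
  have hfil : ∑ x ∈ (range (N + 1)).filter (fun x => x % d = (c + 2 * (d - 1)) % d),
        lam x * η (((x + 2 : ℕ) : ℝ) / N) =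
      ∑ x ∈ ((range (N + 1)).filter (fun x => x % d = (c + 2 * (d - 1)) % d)).filter
          (fun x => x + 2 ≤ N), lam x * η (((x + 2 : ℕ) : ℝ) / N) := by
    symm
    apply Finset.sum_subset (Finset.filter_subset _ _)
    intro x hx hx'
    have hgt : N < x + 2 := by
      by_contra hcon
      exact hx' (Finset.mem_filter.2 ⟨hx, not_lt.1 hcon⟩)
    rw [hbig x hgt, mul_zero]
  have hfil2 : ∑ q ∈ (range (N + 1)).filter (fun q => q % d = c % d),
        lam (q - 2) * η ((q : ℝ) / N) =
      ∑ q ∈ ((range (N + 1)).filter (fun q => q % d = c % d)).filter (fun q => 2 ≤ q),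
        lam (q - 2) * η ((q : ℝ) / N) := by
    symm
    apply Finset.sum_subset (Finset.filter_subset _ _)
    intro q hq hq'
    have hlt : q < 2 := by
      by_contra hcon
      exact hq' (Finset.mem_filter.2 ⟨hq, not_lt.1 hcon⟩)
    have h0 : q - 2 = 0 := by omega
    rw [h0]
    unfold lam
    simp
  rw [hfil, hfil2]
  refine Finset.sum_bij (fun x _ => x + 2) ?_ ?_ ?_ ?_
  · intro x hx
    rw [Finset.mem_filter, Finset.mem_filter, Finset.mem_range] at hx
    rw [Finset.mem_filter, Finset.mem_filter, Finset.mem_range]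
    exact ⟨⟨by omega, (hiff x).1 hx.1.2⟩, by omega⟩
  · intro a _ b _ hab
    omega
  · intro q hq
    rw [Finset.mem_filter, Finset.mem_filter, Finset.mem_range] at hq
    obtain ⟨⟨h1, h2⟩, h3⟩ := hq
    have h4 : q - 2 + 2 = q := by omega
    refine ⟨q - 2, ?_, h4⟩
    rw [Finset.mem_filter, Finset.mem_filter, Finset.mem_range]
    refine ⟨⟨by omega, (hiff _).2 ?_⟩, by omega⟩
    rw [h4]
    exact h2
  · intro x _
    have h1 : x + 2 - 2 = x := by omega
    rw [h1]

theorem tbv_near (η : ℝ → ℝ) (hη : IsWt η) (C : ℝ) (hC : ∀ x y : ℝ, |η x - η y| ≤ C * |x - y|)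
    (hC0 : 0 ≤ C) (N d c : ℕ) (hN : 1 ≤ N) (hd : 1 ≤ d) (hdN : d ≤ N) :
    |T2AP η N d c - psiAP η N d (c + 2 * (d - 1))| ≤ 4 * C * Real.log N / d := by
  classical
  have hNR : (0 : ℝ) < N := by exact_mod_cast hN
  have hdR : (0 : ℝ) < d := by exact_mod_cast hd
  have hlog : 0 ≤ Real.log N := Real.log_nonneg (by exact_mod_cast hN)
  rw [tbv_bij η hη N d c hN hd]
  unfold psiAP
  rw [← Finset.sum_sub_distrib]
  refine (Finset.abs_sum_le_sum_abs _ _).trans ?_
  have hterm : ∀ x ∈ (range (N + 1)).filter (fun x => x % d = (c + 2 * (d - 1)) % d),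
      |lam x * η (((x + 2 : ℕ) : ℝ) / N) -
        ArithmeticFunction.vonMangoldt x * η ((x : ℝ) / N)| ≤ Real.log N * (C * 2 / N) := by
    intro x hx
    rw [Finset.mem_filter, Finset.mem_range] at hx
    have h0 : lam x = ArithmeticFunction.vonMangoldt x := rfl
    rw [h0, ← mul_sub, abs_mul]
    have hl0 : (0 : ℝ) ≤ ArithmeticFunction.vonMangoldt x := ArithmeticFunction.vonMangoldt_nonneg
    have hl1 : ArithmeticFunction.vonMangoldt x ≤ Real.log N := by
      refine (ArithmeticFunction.vonMangoldt_le_log).trans ?_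
      rcases Nat.eq_zero_or_pos x with h1 | h1
      · rw [h1, Nat.cast_zero, Real.log_zero]
        exact hlog
      · apply Real.log_le_log (by exact_mod_cast h1)
        have : x ≤ N := by omega
        exact_mod_cast this
    rw [abs_of_nonneg hl0]
    have h2 : |η (((x + 2 : ℕ) : ℝ) / N) - η ((x : ℝ) / N)| ≤ C * 2 / N := by
      refine (hC _ _).trans (le_of_eq ?_)
      have h3 : (((x + 2 : ℕ) : ℝ) / N) - ((x : ℝ) / N) = 2 / N := by
        push_cast
        ring
      rw [h3, abs_of_nonneg (by positivity)]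
      ring
    exact mul_le_mul hl1 h2 (abs_nonneg _) hlog
  refine (Finset.sum_le_sum hterm).trans ?_
  rw [Finset.sum_const, nsmul_eq_mul]
  have hcard := Pool.Agent.GV.bvw_count N d (c + 2 * (d - 1)) hd hdN
  calc ((((range (N + 1)).filter (fun n => n % d = (c + 2 * (d - 1)) % d)).card : ℕ) : ℝ) *
        (Real.log N * (C * 2 / N)) ≤ (2 * N / d) * (Real.log N * (C * 2 / N)) := by
        exact mul_le_mul_of_nonneg_right hcard (by positivity)
    _ = 4 * C * Real.log N / d := by
        field_simp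
        ring

theorem tbv_coprime (d c : ℕ) (hd : 1 ≤ d) (h : ∀ l ∈ d.primeFactors, c % l ≠ 2 % l) :
    (c + 2 * (d - 1)).Coprime d := by
  apply Nat.coprime_of_dvd
  intro l hl h1 h2
  apply h l (Nat.mem_primeFactors.2 ⟨hl, h2, by omega⟩)
  have h3 : c + 2 * (d - 1) + 2 = c + d * 2 := by omega
  have h4 : (c + 2 * (d - 1) + 2) ≡ 2 [MOD l] := by
    have h5 : (c + 2 * (d - 1)) ≡ 0 [MOD l] := (Nat.modEq_zero_iff_dvd).2 h1
    have h6 := h5.add_right 2
    rwa [zero_add] at h6
  rw [h3] at h4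
  have h7 : c + d * 2 ≡ c [MOD l] := by
    have h8 : d * 2 ≡ 0 [MOD l] := (Nat.modEq_zero_iff_dvd).2 (Dvd.dvd.mul_right h2 2)
    have h9 := h8.add_left c
    rwa [add_zero] at h9
  exact (h7.symm.trans h4)

/-- keep this signature -/
theorem thm_TBV : St_TBV := by
  intro η hη θ hθ0 hθ1 A K
  classical
  obtain ⟨C, hC0, hC⟩ := wt_lipschitz η hη
  have hev := Pool.Agent.GV.bvw η hη θ hθ0 hθ1 (A + 1) (K + 1)
  filter_upwards [hev, eventually_ge_atTop 9,
    abv_log_pow (K + 2 + A) 1 (8 * C * 2 ^ (K + 1)) one_pos (by positivity)] with N hBV hN9 hN3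
  have hN1 : 1 ≤ N := by omega
  have hN9R : (9 : ℝ) ≤ N := by exact_mod_cast hN9
  have hNR : (0 : ℝ) < N := by linarith
  have hL2 : 2 ≤ Real.log N := by
    rw [Real.le_log_iff_exp_le hNR]
    have h1 := Real.exp_one_lt_d9
    have h2 : Real.exp 2 = Real.exp 1 * Real.exp 1 := by
      rw [← Real.exp_add]
      norm_num
    rw [h2]
    have h3 := Real.exp_pos 1
    nlinarith
  set L := Real.log N with hLdef
  have hL0 : 0 < L := by linarith
  rw [Real.rpow_one] at hN3
  obtain ⟨E', hE0, hE1, hE2⟩ := hBV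
  refine ⟨fun d => E' d + 4 * C * L / d, ?_, ?_, ?_⟩
  · intro d
    have := hE0 d
    positivity
  · intro d c hd hdN hc hcd
    have hdN' : d ≤ N := by
      have h3 : (N : ℝ) ^ θ ≤ (N : ℝ) ^ (1 : ℝ) :=
        Real.rpow_le_rpow_of_exponent_le (by linarith) (by linarith)
      rw [Real.rpow_one] at h3
      have h4 : (d : ℝ) ≤ N := hdN.trans h3
      exact_mod_cast h4
    have hA := tbv_near η hη C hC hC0.le N d c hN1 hd hdN'
    have hB := hE1 d (c + 2 * (d - 1)) hd hdN (tbv_coprime d c hd hcd)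
    calc |T2AP η N d c - psi0 η N / (d.totient : ℝ)| ≤
          |T2AP η N d c - psiAP η N d (c + 2 * (d - 1))| +
          |psiAP η N d (c + 2 * (d - 1)) - psi0 η N / (d.totient : ℝ)| := abs_sub_le _ _ _
      _ ≤ 4 * C * L / d + E' d := add_le_add hA hB
      _ = E' d + 4 * C * L / d := add_comm _ _
  · set F := (Icc 1 N).filter (fun d : ℕ => (d : ℝ) ≤ (N : ℝ) ^ θ) with hF
    have hK : ∀ j : ℕ, (K : ℝ) ^ j ≤ ((K + 1 : ℕ) : ℝ) ^ j := by
      intro j
      apply pow_le_pow_left₀ (by positivity)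
      push_cast
      linarith
    have hsplit : ∑ d ∈ F, (K : ℝ) ^ d.primeFactors.card * (E' d + 4 * C * L / d) ≤
        ∑ d ∈ F, ((K + 1 : ℕ) : ℝ) ^ d.primeFactors.card * E' d +
        4 * C * L * ∑ d ∈ F, ((K + 1 : ℕ) : ℝ) ^ d.primeFactors.card / d := by
      rw [Finset.mul_sum, ← Finset.sum_add_distrib]
      apply Finset.sum_le_sum
      intro d hd
      rw [hF, Finset.mem_filter, Finset.mem_Icc] at hd
      have hdR : (0 : ℝ) < d := by exact_mod_cast hd.1.1
      have h4 := hE0 d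
      have h5 := hK d.primeFactors.card
      calc (K : ℝ) ^ d.primeFactors.card * (E' d + 4 * C * L / d) =
            (K : ℝ) ^ d.primeFactors.card * E' d +
            4 * C * L * ((K : ℝ) ^ d.primeFactors.card / d) := by
              field_simp
        _ ≤ ((K + 1 : ℕ) : ℝ) ^ d.primeFactors.card * E' d +
            4 * C * L * (((K + 1 : ℕ) : ℝ) ^ d.primeFactors.card / d) := by
              gcongr
    have hfirst2 : (N : ℝ) / L ^ (A + 1) ≤ N / (2 * L ^ A) := by
      apply div_le_div_of_nonneg_left hNR.le (by positivity)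
      rw [pow_succ]
      have : 0 < L ^ A := by positivity
      nlinarith
    have hsecond : 4 * C * L * ∑ d ∈ F, ((K + 1 : ℕ) : ℝ) ^ d.primeFactors.card / d ≤
        N / (2 * L ^ A) := by
      have h3 : ∑ d ∈ F, ((K + 1 : ℕ) : ℝ) ^ d.primeFactors.card / d ≤ (1 + L) ^ (K + 1) := by
        refine le_trans ?_ (Pool.Agent.GV.bvw_omega_sum N hN1 (K + 1))
        apply Finset.sum_le_sum_of_subset_of_nonneg (Finset.filter_subset _ _)
        intro q _ _
        positivity
      have h4 : (1 + L) ^ (K + 1) ≤ (2 * L) ^ (K + 1) :=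
        pow_le_pow_left₀ (by linarith) (by linarith) _
      have h5 : 0 < L ^ A := by positivity
      rw [le_div_iff₀ (by positivity)]
      calc 4 * C * L * (∑ d ∈ F, ((K + 1 : ℕ) : ℝ) ^ d.primeFactors.card / d) * (2 * L ^ A) ≤
            4 * C * L * (2 * L) ^ (K + 1) * (2 * L ^ A) := by
              gcongr
              exact h3.trans h4
        _ = 8 * C * 2 ^ (K + 1) * L ^ (K + 2 + A) := by
              rw [mul_pow]
              ring
        _ ≤ N := hN3
    have hhalf : (N : ℝ) / (2 * L ^ A) + N / (2 * L ^ A) = N / L ^ A := by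
      field_simp
      ring
    calc _ ≤ _ := hsplit
      _ ≤ N / (2 * L ^ A) + N / (2 * L ^ A) := add_le_add (hE2.trans hfirst2) hsecond
      _ = N / L ^ A := hhalf

end Pool.Agent.TCH
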